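import Mathlib

namespace Pool.Agent.MP_dd1803_nt.Aff

variable {F : Type} [Field F] {κ : Type}

/-- Zariski closed subsets of affine space `F^κ`: common zeros of sets of polynomials. -/
def ZClosed (X : Set (κ → F)) : Prop :=
  ∃ S : Set (MvPolynomial κ F), X = {x | ∀ p ∈ S, MvPolynomial.eval x p = 0}

/-- Irreducible (not necessarily closed) subsets of affine space. -/
def PIrr (X : Set (κ → F)) : Prop :=
  X.Nonempty ∧ ∀ A B : Set (κ → F), ZClosed A → ZClosed B → X ⊆ A ∪ B → X ⊆ A ∨ X ⊆ B

/-- Irreducible closed subsets of affine space. -/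
def Irr (X : Set (κ → F)) : Prop := ZClosed X ∧ PIrr X

/-- `X` is an irreducible component of `V`: a maximal irreducible closed subset of `V`. -/
def Comp (V X : Set (κ → F)) : Prop := Maximal (fun Z => Irr Z ∧ Z ⊆ V) X

/-- The dimension of a subset of affine space: the supremum of the lengths of chains of
irreducible closed subsets contained in it. -/
noncomputable def dm (V : Set (κ → F)) : WithBot ℕ∞ :=
  Order.krullDim {Y : Set (κ → F) // Irr Y ∧ Y ⊆ V}

end Pool.Agent.MP_dd1803_nt.Aff
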