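import Mathlib
import Pool.Agent.MP_dd1803_nt.Alg
import Pool.Agent.MP_dd1803_nt.Aff.Defs

open MvPolynomial

namespace Pool.Agent.MP_dd1803_nt.Aff

section Basic

variable {F : Type} [Field F] {κ : Type}

/-- The coordinates of a point. -/
def co (x : κ → F) : κ → F := fun i => x i

theorem co_apply (x : κ → F) (i : κ) : co x i = x i := rfl

/-- Common zeros in the torus of polynomials with coefficients in `k`. -/
def zl (k : Type) [Field k] [Algebra k F] (S : Set (MvPolynomial κ k)) : Set (κ → F) :=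
  {x | ∀ p ∈ S, aeval (co x) p = 0}

/-- The ideal of polynomials over `k` vanishing on a subset of the torus. -/
def vI (k : Type) [Field k] [Algebra k F] (X : Set (κ → F)) : Ideal (MvPolynomial κ k) :=
  vanishingIdeal k (co '' X)

variable {k : Type} [Field k] [Algebra k F]

theorem mem_zl {S : Set (MvPolynomial κ k)} {x : κ → F} :
    x ∈ zl (F := F) k S ↔ ∀ p ∈ S, aeval (co x) p = 0 := Iff.rfl

theorem mem_vI {X : Set (κ → F)} {p : MvPolynomial κ k} :
    p ∈ vI k X ↔ ∀ x ∈ X, aeval (co x) p = 0 := by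
  unfold vI
  rw [mem_vanishingIdeal_iff]
  constructor
  · intro h x hx
    exact h _ ⟨x, hx, rfl⟩
  · rintro h _ ⟨x, hx, rfl⟩
    exact h x hx

theorem aeval_eq_eval (x : κ → F) (p : MvPolynomial κ F) :
    aeval (co x) p = MvPolynomial.eval (fun i => (x i : F)) p := by
  rw [MvPolynomial.aeval_def, MvPolynomial.eval₂_eq_eval_map]
  simp
  rfl

theorem zclosed_iff_zl {X : Set (κ → F)} :
    ZClosed X ↔ ∃ S : Set (MvPolynomial κ F), X = zl F S := by
  unfold ZClosed zl
  simp only [aeval_eq_eval]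

theorem zl_anti {S T : Set (MvPolynomial κ k)} (h : S ⊆ T) : zl (F := F) k T ⊆ zl k S :=
  fun _ hx p hp => hx p (h hp)

theorem vI_anti {X Y : Set (κ → F)} (h : X ⊆ Y) : vI k Y ≤ vI k X := by
  intro p hp
  rw [mem_vI] at *
  exact fun x hx => hp x (h hx)

theorem subset_zl_vI (X : Set (κ → F)) : X ⊆ zl k (vI k X : Set (MvPolynomial κ k)) :=
  fun x hx _ hp => mem_vI.mp hp x hx

theorem subset_zl_iff {X : Set (κ → F)} {S : Set (MvPolynomial κ k)} :
    X ⊆ zl k S ↔ S ⊆ vI k X := by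
  constructor
  · intro h p hp
    exact mem_vI.mpr fun x hx => h hx p hp
  · intro h x hx p hp
    exact mem_vI.mp (h hp) x hx

theorem zclosed_iff {X : Set (κ → F)} :
    ZClosed X ↔ zl F (vI F X : Set (MvPolynomial κ F)) = X := by
  rw [zclosed_iff_zl]
  constructor
  · rintro ⟨S, rfl⟩
    apply Set.Subset.antisymm
    · apply zl_anti
      rw [← subset_zl_iff]
    · exact subset_zl_vI _
  · intro h
    exact ⟨_, h.symm⟩

theorem zclosed_zl (S : Set (MvPolynomial κ k)) : ZClosed (zl (F := F) k S) := by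
  rw [zclosed_iff_zl]
  refine ⟨(MvPolynomial.map (algebraMap k F)) '' S, ?_⟩
  ext x
  simp only [mem_zl, Set.mem_image, forall_exists_index, and_imp, forall_apply_eq_imp_iff₂,
    MvPolynomial.aeval_map_algebraMap]

theorem zclosed_univ : ZClosed (Set.univ : Set (κ → F)) := by
  rw [zclosed_iff_zl]
  refine ⟨∅, ?_⟩
  ext x
  simp [mem_zl]

theorem zclosed_empty : ZClosed (∅ : Set (κ → F)) := by
  rw [zclosed_iff_zl]
  refine ⟨{1}, ?_⟩
  ext x
  simp [mem_zl]

theorem ZClosed.inter {X Y : Set (κ → F)} (hX : ZClosed X) (hY : ZClosed Y) :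
    ZClosed (X ∩ Y) := by
  rw [zclosed_iff_zl] at *
  obtain ⟨S, rfl⟩ := hX
  obtain ⟨T, rfl⟩ := hY
  refine ⟨S ∪ T, ?_⟩
  ext x
  simp only [Set.mem_inter_iff, mem_zl, Set.mem_union]
  constructor
  · rintro ⟨h1, h2⟩ p (hp | hp)
    · exact h1 p hp
    · exact h2 p hp
  · intro h
    exact ⟨fun p hp => h p (Or.inl hp), fun p hp => h p (Or.inr hp)⟩

theorem ZClosed.union {X Y : Set (κ → F)} (hX : ZClosed X) (hY : ZClosed Y) :
    ZClosed (X ∪ Y) := by
  rw [zclosed_iff_zl] at *
  obtain ⟨S, rfl⟩ := hX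
  obtain ⟨T, rfl⟩ := hY
  refine ⟨{r | ∃ p ∈ S, ∃ q ∈ T, r = p * q}, ?_⟩
  ext x
  simp only [Set.mem_union, mem_zl, Set.mem_ofPred_eq, forall_exists_index, and_imp]
  constructor
  · rintro (h | h) r p hp q hq rfl
    · rw [map_mul, h p hp, zero_mul]
    · rw [map_mul, h q hq, mul_zero]
  · intro h
    by_contra hcon
    push Not at hcon
    obtain ⟨⟨p, hp, hp0⟩, ⟨q, hq, hq0⟩⟩ := hcon
    have := h (p * q) p hp q hq rfl
    rw [map_mul] at this
    exact (mul_ne_zero hp0 hq0) this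

theorem ZClosed.iInter {ι : Sort*} {X : ι → Set (κ → F)} (hX : ∀ i, ZClosed (X i)) :
    ZClosed (⋂ i, X i) := by
  choose S hS using fun i => zclosed_iff_zl.mp (hX i)
  rw [zclosed_iff_zl]
  refine ⟨⋃ i, S i, ?_⟩
  ext x
  rw [Set.mem_iInter]
  constructor
  · intro h p hp
    rw [Set.mem_iUnion] at hp
    obtain ⟨i, hi⟩ := hp
    have := h i
    rw [hS i] at this
    exact this p hi
  · intro h i
    rw [hS i]
    intro p hp
    exact h p (Set.mem_iUnion.mpr ⟨i, hp⟩)

theorem ZClosed.finset_biUnion {ι : Type*} (s : Finset ι) {X : ι → Set (κ → F)}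
    (hX : ∀ i ∈ s, ZClosed (X i)) : ZClosed (⋃ i ∈ s, X i) := by
  classical
  induction s using Finset.induction_on with
  | empty => simpa using zclosed_empty
  | insert a s ha ih =>
    rw [Finset.set_biUnion_insert]
    exact (hX a (Finset.mem_insert_self _ _)).union
      (ih fun i hi => hX i (Finset.mem_insert_of_mem hi))

/-- the zero locus of one polynomial -/
def zp (p : MvPolynomial κ F) : Set (κ → F) := {x | aeval (co x) p = 0}

theorem zclosed_zp (p : MvPolynomial κ F) : ZClosed (zp p) := by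
  rw [zclosed_iff_zl]
  refine ⟨{p}, ?_⟩
  ext x
  simp [mem_zl, zp]

theorem mem_zp {p : MvPolynomial κ F} {x : κ → F} : x ∈ zp p ↔ aeval (co x) p = 0 := Iff.rfl

/-- Noetherian induction on closed sets. -/
theorem closed_induction [Finite κ] {P : Set (κ → F) → Prop}
    (h : ∀ V, ZClosed V → (∀ W, ZClosed W → W ⊂ V → P W) → P V) (V : Set (κ → F))
    (hV : ZClosed V) : P V := by
  have key : ∀ I : Ideal (MvPolynomial κ F), ∀ V : Set (κ → F), ZClosed V → vI F V = I → P V := by
    intro I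
    induction I using WellFoundedGT.induction with
    | _ I ih =>
      intro V hV hI
      apply h V hV
      intro W hW hWV
      apply ih (vI F W) _ W hW rfl
      rw [← hI]
      refine lt_of_le_of_ne (vI_anti hWV.subset) ?_
      intro heq
      have h1 := zclosed_iff.mp hV
      have h2 := zclosed_iff.mp hW
      rw [heq, h2] at h1
      exact hWV.ne h1
  exact key _ V hV rfl

theorem Irr.closed {X : Set (κ → F)} (h : Irr X) : ZClosed X := h.1

theorem Irr.pirr {X : Set (κ → F)} (h : Irr X) : PIrr X := h.2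

theorem PIrr.nonempty {X : Set (κ → F)} (h : PIrr X) : X.Nonempty := h.1

theorem Irr.nonempty {X : Set (κ → F)} (h : Irr X) : X.Nonempty := h.2.1

theorem PIrr.subset_or {X A B : Set (κ → F)} (h : PIrr X) (hA : ZClosed A) (hB : ZClosed B)
    (hX : X ⊆ A ∪ B) : X ⊆ A ∨ X ⊆ B := h.2 A B hA hB hX

theorem Irr.subset_or {X A B : Set (κ → F)} (h : Irr X) (hA : ZClosed A) (hB : ZClosed B)
    (hX : X ⊆ A ∪ B) : X ⊆ A ∨ X ⊆ B := h.2.2 A B hA hB hX

theorem PIrr.subset_of_finset {X : Set (κ → F)} (h : PIrr X) (S : Finset (Set (κ → F)))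
    (hS : ∀ Z ∈ S, ZClosed Z) (hX : X ⊆ ⋃ Z ∈ S, Z) : ∃ Z ∈ S, X ⊆ Z := by
  classical
  induction S using Finset.induction_on with
  | empty =>
    obtain ⟨x, hx⟩ := h.nonempty
    have := hX hx
    simp at this
  | insert a s ha ih =>
    rw [Finset.set_biUnion_insert] at hX
    rcases h.subset_or (hS a (Finset.mem_insert_self _ _))
      (ZClosed.finset_biUnion s (X := fun Z => Z) fun i hi => hS i (Finset.mem_insert_of_mem hi)) hX
      with h1 | h1
    · exact ⟨a, Finset.mem_insert_self _ _, h1⟩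
    · obtain ⟨Z, hZ, hXZ⟩ := ih (fun i hi => hS i (Finset.mem_insert_of_mem hi)) h1
      exact ⟨Z, Finset.mem_insert_of_mem hZ, hXZ⟩

theorem Irr.subset_of_finset {X : Set (κ → F)} (h : Irr X) (S : Finset (Set (κ → F)))
    (hS : ∀ Z ∈ S, ZClosed Z) (hX : X ⊆ ⋃ Z ∈ S, Z) : ∃ Z ∈ S, X ⊆ Z :=
  h.pirr.subset_of_finset S hS hX

/-- Every closed set is a finite union of irreducible closed sets. -/
theorem exists_decomp [Finite κ] (V : Set (κ → F)) (hV : ZClosed V) :
    ∃ S : Finset (Set (κ → F)), (∀ Z ∈ S, Irr Z) ∧ V = ⋃ Z ∈ S, Z := by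
  classical
  revert V
  apply closed_induction
  intro V hV ih
  by_cases hne : V.Nonempty
  · by_cases hirr : Irr V
    · exact ⟨{V}, by simpa using hirr, by simp⟩
    · unfold Irr PIrr at hirr
      push Not at hirr
      obtain ⟨A, B, hA, hB, hAB, hnA, hnB⟩ := hirr hV hne
      obtain ⟨S1, hS1, h1⟩ := ih (V ∩ A) (hV.inter hA)
        ⟨Set.inter_subset_left, fun h => hnA (h.trans Set.inter_subset_right)⟩
      obtain ⟨S2, hS2, h2⟩ := ih (V ∩ B) (hV.inter hB)
        ⟨Set.inter_subset_left, fun h => hnB (h.trans Set.inter_subset_right)⟩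
      refine ⟨S1 ∪ S2, ?_, ?_⟩
      · intro Z hZ
        rcases Finset.mem_union.mp hZ with h | h
        · exact hS1 Z h
        · exact hS2 Z h
      · rw [Finset.set_biUnion_union, ← h1, ← h2, ← Set.inter_union_distrib_left]
        exact (Set.inter_eq_left.mpr hAB).symm
  · rw [Set.not_nonempty_iff_eq_empty] at hne
    exact ⟨∅, by simp, by simp [hne]⟩

theorem Comp.irr {V X : Set (κ → F)} (h : Comp V X) : Irr X := h.prop.1

theorem Comp.subset {V X : Set (κ → F)} (h : Comp V X) : X ⊆ V := h.prop.2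

theorem Comp.eq_of_subset {V X Y : Set (κ → F)} (h : Comp V X) (hY : Irr Y) (hYV : Y ⊆ V)
    (hXY : X ⊆ Y) : X = Y := Maximal.eq_of_subset h ⟨hY, hYV⟩ hXY

theorem exists_comp [Finite κ] {V X : Set (κ → F)} (hV : ZClosed V) (hX : Irr X)
    (hXV : X ⊆ V) : ∃ Y, Comp V Y ∧ X ⊆ Y := by
  classical
  obtain ⟨S, hS, hVS⟩ := exists_decomp V hV
  let S' := S.filter (fun Z => X ⊆ Z)
  have hne : S'.Nonempty := by
    obtain ⟨Z, hZ, hXZ⟩ := hX.subset_of_finset S (fun Z hZ => (hS Z hZ).closed) (hVS ▸ hXV)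
    exact ⟨Z, Finset.mem_filter.mpr ⟨hZ, hXZ⟩⟩
  obtain ⟨Y, hY⟩ := S'.exists_maximal hne
  have hYS : Y ∈ S := (Finset.mem_filter.mp hY.prop).1
  have hXY : X ⊆ Y := (Finset.mem_filter.mp hY.prop).2
  refine ⟨Y, ⟨⟨hS Y hYS, ?_⟩, ?_⟩, hXY⟩
  · rw [hVS]
    exact Set.subset_biUnion_of_mem (u := fun Z => Z) hYS
  · rintro Z ⟨hZ, hZV⟩ hYZ
    obtain ⟨W, hW, hZW⟩ := hZ.subset_of_finset S (fun Z hZ => (hS Z hZ).closed) (hVS ▸ hZV)
    have hW' : W ∈ S' := Finset.mem_filter.mpr ⟨hW, hXY.trans (Set.Subset.trans hYZ hZW)⟩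
    exact (hZW.trans (hY.le_of_ge hW' (Set.Subset.trans hYZ hZW)) : Z ⊆ Y)

theorem finite_comp [Finite κ] {V : Set (κ → F)} (hV : ZClosed V) : {X | Comp V X}.Finite := by
  classical
  obtain ⟨S, hS, hVS⟩ := exists_decomp V hV
  apply (S : Set (Set (κ → F))).toFinite.subset
  intro X hX
  obtain ⟨Z, hZ, hXZ⟩ := hX.irr.subset_of_finset S (fun Z hZ => (hS Z hZ).closed) (hVS ▸ hX.subset)
  have := hX.eq_of_subset (hS Z hZ) (by
    rw [hVS]
    exact Set.subset_biUnion_of_mem (u := fun Z => Z) hZ) hXZ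
  rw [this]
  exact hZ

theorem exists_comp_mem [Finite κ] {V : Set (κ → F)} (hV : ZClosed V) {x : κ → F}
    (hx : x ∈ V) : ∃ Y, Comp V Y ∧ x ∈ Y := by
  classical
  obtain ⟨S, hS, hVS⟩ := exists_decomp V hV
  have hx' := hx
  rw [hVS] at hx'
  simp only [Set.mem_iUnion] at hx'
  obtain ⟨Z, hZ, hxZ⟩ := hx'
  obtain ⟨Y, hY, hZY⟩ := exists_comp hV (hS Z hZ) (by
    rw [hVS]
    exact Set.subset_biUnion_of_mem (u := fun Z => Z) hZ)
  exact ⟨Y, hY, hZY hxZ⟩

theorem comp_self {X : Set (κ → F)} (h : Irr X) : Comp X X :=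
  ⟨⟨h, le_rfl⟩, fun _ hZ _ => hZ.2⟩

theorem vI_isPrime {X : Set (κ → F)} (h : PIrr X) : (vI k X).IsPrime := by
  constructor
  · intro htop
    obtain ⟨x, hx⟩ := h.nonempty
    have h1 : (1 : MvPolynomial κ k) ∈ vI k X := htop ▸ Submodule.mem_top
    have := mem_vI.mp h1 x hx
    rw [map_one] at this
    exact one_ne_zero this
  · intro p q hpq
    have h2 : X ⊆ zl k {p} ∪ zl k {q} := by
      intro x hx
      have := mem_vI.mp hpq x hx
      rw [map_mul] at this
      rcases mul_eq_zero.mp this with h | h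
      · left
        intro r hr
        rw [Set.mem_singleton_iff.mp hr]
        exact h
      · right
        intro r hr
        rw [Set.mem_singleton_iff.mp hr]
        exact h
    rcases h.subset_or (zclosed_zl _) (zclosed_zl _) h2 with h | h
    · left
      exact mem_vI.mpr fun x hx => h hx p rfl
    · right
      exact mem_vI.mpr fun x hx => h hx q rfl

/-- The Nullstellensatz, for prime ideals over a subfield. -/
theorem vI_zl [Finite κ] [IsAlgClosed F] (P : Ideal (MvPolynomial κ k)) [hP : P.IsPrime] :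
    vI k (zl (F := F) k (P : Set (MvPolynomial κ k))) = P := by
  apply le_antisymm
  · intro p hp
    rw [mem_vI] at hp
    have h1 : p ∈ vanishingIdeal k (zeroLocus F P) := by
      rw [mem_vanishingIdeal_iff]
      intro y hy
      rw [mem_zeroLocus_iff] at hy
      exact hp y (fun q hq => hy q hq)
    rwa [MvPolynomial.IsPrime.vanishingIdeal_zeroLocus] at h1
  · rw [← SetLike.coe_subset_coe, ← subset_zl_iff]

/-- Zero loci of prime ideals are irreducible. -/
theorem irr_zl [Finite κ] [IsAlgClosed F] (P : Ideal (MvPolynomial κ F)) [hP : P.IsPrime] :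
    Irr (zl (F := F) F (P : Set (MvPolynomial κ F))) := by
  have hv := vI_zl (F := F) P
  refine ⟨zclosed_zl _, ?_, ?_⟩
  · by_contra hne
    rw [Set.not_nonempty_iff_eq_empty] at hne
    rw [hne] at hv
    apply hP.ne_top
    rw [← hv]
    rw [Ideal.eq_top_iff_one]
    rw [mem_vI]
    intro x hx
    exact absurd hx (Set.notMem_empty x)
  · intro A B hA hB hAB
    by_contra hcon
    push Not at hcon
    obtain ⟨h1, h2⟩ := hcon
    rw [← zclosed_iff.mp hA, subset_zl_iff, Set.not_subset] at h1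
    rw [← zclosed_iff.mp hB, subset_zl_iff, Set.not_subset] at h2
    obtain ⟨p, hp, hp'⟩ := h1
    obtain ⟨q, hq, hq'⟩ := h2
    rw [SetLike.mem_coe, hv] at hp' hq'
    have : p * q ∈ P := by
      rw [← hv, mem_vI]
      intro x hx
      rw [map_mul]
      rcases hAB hx with h | h
      · rw [mem_vI.mp hp x h, zero_mul]
      · rw [mem_vI.mp hq x h, mul_zero]
    rcases hP.mem_or_mem this with h | h
    · exact hp' h
    · exact hq' h

end Basic

end Pool.Agent.MP_dd1803_nt.Aff
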