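import Mathlib
import Pool.Agent.MP_dd1803_nt.Aff.Dim

open MvPolynomial

namespace Pool.Agent.MP_dd1803_nt.Aff

section Maps

variable {F : Type} [Field F] {κ κ' : Type}

/-- A function on the torus given on `S` by a quotient of two polynomials. -/
def RatOn (S : Set (κ → F)) (f : (κ → F) → F) : Prop :=
  ∃ a b : MvPolynomial κ F, ∀ x ∈ S, aeval (co x) b ≠ 0 ∧ f x * aeval (co x) b = aeval (co x) a

theorem RatOn.mono {S T : Set (κ → F)} {f : (κ → F) → F} (h : RatOn T f) (hST : S ⊆ T) :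
    RatOn S f := by
  obtain ⟨a, b, h⟩ := h
  exact ⟨a, b, fun x hx => h x (hST hx)⟩

theorem ratOn_poly (S : Set (κ → F)) (p : MvPolynomial κ F) :
    RatOn S (fun x => aeval (co x) p) :=
  ⟨p, 1, fun x _ => by simp⟩

theorem ratOn_const (S : Set (κ → F)) (c : F) : RatOn S (fun _ => c) :=
  ⟨C c, 1, fun x _ => by simp⟩

theorem ratOn_coord (S : Set (κ → F)) (i : κ) : RatOn S (fun x => (x i : F)) :=
  ⟨X i, 1, fun x _ => by simp [co]⟩

theorem RatOn.add {S : Set (κ → F)} {f g : (κ → F) → F} (hf : RatOn S f) (hg : RatOn S g) :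
    RatOn S (fun x => f x + g x) := by
  obtain ⟨a, b, h⟩ := hf
  obtain ⟨c, d, h'⟩ := hg
  refine ⟨a * d + c * b, b * d, fun x hx => ?_⟩
  obtain ⟨h1, h2⟩ := h x hx
  obtain ⟨h3, h4⟩ := h' x hx
  refine ⟨by rw [map_mul]; exact mul_ne_zero h1 h3, ?_⟩
  rw [map_mul, map_add, map_mul, map_mul, ← h2, ← h4]
  ring

theorem RatOn.mul {S : Set (κ → F)} {f g : (κ → F) → F} (hf : RatOn S f) (hg : RatOn S g) :
    RatOn S (fun x => f x * g x) := by
  obtain ⟨a, b, h⟩ := hf
  obtain ⟨c, d, h'⟩ := hg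
  refine ⟨a * c, b * d, fun x hx => ?_⟩
  obtain ⟨h1, h2⟩ := h x hx
  obtain ⟨h3, h4⟩ := h' x hx
  refine ⟨by rw [map_mul]; exact mul_ne_zero h1 h3, ?_⟩
  rw [map_mul, map_mul, ← h2, ← h4]
  ring

theorem RatOn.neg {S : Set (κ → F)} {f : (κ → F) → F} (hf : RatOn S f) :
    RatOn S (fun x => - f x) := by
  obtain ⟨a, b, h⟩ := hf
  refine ⟨-a, b, fun x hx => ?_⟩
  obtain ⟨h1, h2⟩ := h x hx
  refine ⟨h1, ?_⟩
  rw [map_neg, ← h2]
  ring

theorem RatOn.sub {S : Set (κ → F)} {f g : (κ → F) → F} (hf : RatOn S f) (hg : RatOn S g) :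
    RatOn S (fun x => f x - g x) := by
  have := hf.add hg.neg
  simpa [sub_eq_add_neg] using this

theorem RatOn.inv {S : Set (κ → F)} {f : (κ → F) → F} (hf : RatOn S f)
    (h0 : ∀ x ∈ S, f x ≠ 0) : RatOn S (fun x => (f x)⁻¹) := by
  obtain ⟨a, b, h⟩ := hf
  refine ⟨b, a, fun x hx => ?_⟩
  obtain ⟨h1, h2⟩ := h x hx
  have h3 := h0 x hx
  refine ⟨by rw [← h2]; exact mul_ne_zero h3 h1, ?_⟩
  rw [← h2]
  field_simp

theorem RatOn.pow {S : Set (κ → F)} {f : (κ → F) → F} (hf : RatOn S f) (n : ℕ) :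
    RatOn S (fun x => f x ^ n) := by
  induction n with
  | zero => simpa using ratOn_const S 1
  | succ n ih =>
    simp only [pow_succ]
    exact ih.mul hf

theorem RatOn.finset_sum {ι : Type*} (s : Finset ι) {S : Set (κ → F)}
    {f : ι → (κ → F) → F} (hf : ∀ i ∈ s, RatOn S (f i)) : RatOn S (fun x => ∑ i ∈ s, f i x) := by
  classical
  induction s using Finset.induction_on with
  | empty => simpa using ratOn_const S 0
  | insert a s ha ih =>
    simp only [Finset.sum_insert ha]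
    exact (hf a (Finset.mem_insert_self _ _)).add
      (ih fun i hi => hf i (Finset.mem_insert_of_mem hi))

theorem RatOn.finset_prod {ι : Type*} (s : Finset ι) {S : Set (κ → F)}
    {f : ι → (κ → F) → F} (hf : ∀ i ∈ s, RatOn S (f i)) : RatOn S (fun x => ∏ i ∈ s, f i x) := by
  classical
  induction s using Finset.induction_on with
  | empty => simpa using ratOn_const S 1
  | insert a s ha ih =>
    simp only [Finset.prod_insert ha]
    exact (hf a (Finset.mem_insert_self _ _)).mul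
      (ih fun i hi => hf i (Finset.mem_insert_of_mem hi))

/-- A map between tori all of whose coordinates are rational functions on `S`. -/
def RatMap (S : Set (κ → F)) (φ : (κ → F) → (κ' → F)) : Prop :=
  ∀ i, RatOn S (fun x => (φ x i : F))

theorem RatMap.mono {S T : Set (κ → F)} {φ : (κ → F) → (κ' → F)} (h : RatMap T φ)
    (hST : S ⊆ T) : RatMap S φ := fun i => (h i).mono hST

theorem RatMap.poly {S : Set (κ → F)} {φ : (κ → F) → (κ' → F)} (h : RatMap S φ)
    (p : MvPolynomial κ' F) : RatOn S (fun x => aeval (co (φ x)) p) := by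
  induction p using MvPolynomial.induction_on with
  | C c => simpa using ratOn_const S c
  | add p q hp hq =>
    simp only [map_add]
    exact hp.add hq
  | mul_X p i hp =>
    simp only [map_mul, aeval_X]
    exact hp.mul (h i)

/-- zero sets of rational functions are (relatively) closed -/
theorem RatOn.zero_set {S : Set (κ → F)} {f : (κ → F) → F} (hf : RatOn S f) :
    ∃ a : MvPolynomial κ F, ∀ x ∈ S, (f x = 0 ↔ x ∈ zp a) := by
  obtain ⟨a, b, h⟩ := hf
  refine ⟨a, fun x hx => ?_⟩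
  obtain ⟨h1, h2⟩ := h x hx
  rw [mem_zp, ← h2]
  constructor
  · intro h3
    rw [h3, zero_mul]
  · intro h3
    exact (mul_eq_zero.mp h3).resolve_right h1

theorem RatMap.preimage {S : Set (κ → F)} {φ : (κ → F) → (κ' → F)} (h : RatMap S φ)
    {A : Set (κ' → F)} (hA : ZClosed A) : ∃ B, ZClosed B ∧ ∀ x ∈ S, (φ x ∈ A ↔ x ∈ B) := by
  choose a ha using fun p : MvPolynomial κ' F => (h.poly p).zero_set
  refine ⟨⋂ p : vI F A, zp (a p.1), ZClosed.iInter fun p => zclosed_zp _, ?_⟩
  intro x hx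
  rw [Set.mem_iInter]
  constructor
  · intro h1 p
    rw [← ha p.1 x hx]
    exact mem_vI.mp p.2 _ h1
  · intro h1
    rw [← zclosed_iff.mp hA]
    intro p hp
    rw [ha p x hx]
    exact h1 ⟨p, hp⟩

theorem RatMap.preimage_closed {φ : (κ → F) → (κ' → F)} (h : RatMap Set.univ φ)
    {A : Set (κ' → F)} (hA : ZClosed A) : ZClosed (φ ⁻¹' A) := by
  obtain ⟨B, hB, hB'⟩ := h.preimage hA
  have : φ ⁻¹' A = B := by
    ext x
    exact hB' x trivial
  rw [this]
  exact hB

theorem PIrr.image {S : Set (κ → F)} {φ : (κ → F) → (κ' → F)} (hS : PIrr S)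
    (h : RatMap S φ) : PIrr (φ '' S) := by
  refine ⟨hS.nonempty.image _, ?_⟩
  intro A B hA hB hAB
  obtain ⟨A', hA', hAA⟩ := h.preimage hA
  obtain ⟨B', hB', hBB⟩ := h.preimage hB
  have h1 : S ⊆ A' ∪ B' := by
    intro x hx
    rcases hAB ⟨x, hx, rfl⟩ with h2 | h2
    · left; exact (hAA x hx).mp h2
    · right; exact (hBB x hx).mp h2
  rcases hS.subset_or hA' hB' h1 with h2 | h2
  · left
    rintro _ ⟨x, hx, rfl⟩
    exact (hAA x hx).mpr (h2 hx)
  · right
    rintro _ ⟨x, hx, rfl⟩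
    exact (hBB x hx).mpr (h2 hx)

/-- a nonempty relatively open subset of an irreducible set is irreducible -/
theorem PIrr.diff {S C : Set (κ → F)} (hS : PIrr S) (hC : ZClosed C) (h : ¬ S ⊆ C) :
    PIrr (S \ C) := by
  refine ⟨?_, ?_⟩
  · obtain ⟨x, hx, hxC⟩ := Set.not_subset.mp h
    exact ⟨x, hx, hxC⟩
  · intro A B hA hB hAB
    have h1 : S ⊆ (A ∪ C) ∪ B := by
      intro x hx
      by_cases hxC : x ∈ C
      · exact Or.inl (Or.inr hxC)
      · rcases hAB ⟨hx, hxC⟩ with h | h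
        · exact Or.inl (Or.inl h)
        · exact Or.inr h
    rcases hS.subset_or (hA.union hC) hB h1 with h2 | h2
    · rcases hS.subset_or hA hC h2 with h3 | h3
      · left; exact fun x hx => h3 hx.1
      · exact absurd h3 h
    · right; exact fun x hx => h2 hx.1

/-- a relatively open nonempty subset of an irreducible set is dense -/
theorem PIrr.subset_of_diff {S C A : Set (κ → F)} (hS : PIrr S) (hC : ZClosed C) (h : ¬ S ⊆ C)
    (hA : ZClosed A) (hd : S \ C ⊆ A) : S ⊆ A := by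
  have h1 : S ⊆ A ∪ C := by
    intro x hx
    by_cases hxC : x ∈ C
    · exact Or.inr hxC
    · exact Or.inl (hd ⟨hx, hxC⟩)
  exact (hS.subset_or hA hC h1).resolve_right h

/-- Reindexing of coordinates. -/
def pull (j : κ' → κ) (x : κ → F) : κ' → F := x ∘ j

theorem ratMap_pull (S : Set (κ → F)) (j : κ' → κ) : RatMap S (pull j) :=
  fun i => ratOn_coord S (j i)

/-- products of subsets of tori -/
def prodSet (A : Set (κ → F)) (B : Set (κ' → F)) : Set (κ ⊕ κ' → F) :=
  {x | x ∘ Sum.inl ∈ A ∧ x ∘ Sum.inr ∈ B}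

theorem mem_prodSet {A : Set (κ → F)} {B : Set (κ' → F)} {x : κ ⊕ κ' → F} :
    x ∈ prodSet A B ↔ x ∘ Sum.inl ∈ A ∧ x ∘ Sum.inr ∈ B := Iff.rfl

theorem elim_mem_prodSet {A : Set (κ → F)} {B : Set (κ' → F)} {a : κ → F} {b : κ' → F} :
    Sum.elim a b ∈ prodSet A B ↔ a ∈ A ∧ b ∈ B := by
  rw [mem_prodSet, Sum.elim_comp_inl, Sum.elim_comp_inr]

theorem prodSet_mono {A A' : Set (κ → F)} {B B' : Set (κ' → F)} (hA : A ⊆ A') (hB : B ⊆ B') :
    prodSet A B ⊆ prodSet A' B' := fun _ hx => ⟨hA hx.1, hB hx.2⟩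

theorem ZClosed.prodSet {A : Set (κ → F)} {B : Set (κ' → F)} (hA : ZClosed A)
    (hB : ZClosed B) : ZClosed (prodSet A B) :=
  ((ratMap_pull Set.univ Sum.inl).preimage_closed hA).inter
    ((ratMap_pull Set.univ Sum.inr).preimage_closed hB)

theorem ratMap_elim_right (S : Set (κ → F)) (b : κ' → F) :
    RatMap S (fun a : κ → F => Sum.elim a b) := by
  rintro (i | i)
  · exact ratOn_coord S i
  · exact ratOn_const S (b i : F)

theorem ratMap_elim_left (S : Set (κ' → F)) (a : κ → F) :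
    RatMap S (fun b : κ' → F => Sum.elim a b) := by
  rintro (i | i)
  · exact ratOn_const S (a i : F)
  · exact ratOn_coord S i

theorem PIrr.prodSet {A : Set (κ → F)} {B : Set (κ' → F)} (hA : PIrr A)
    (hB : PIrr B) : PIrr (prodSet A B) := by
  refine ⟨?_, ?_⟩
  · obtain ⟨a, ha⟩ := hA.nonempty
    obtain ⟨b, hb⟩ := hB.nonempty
    exact ⟨Sum.elim a b, elim_mem_prodSet.mpr ⟨ha, hb⟩⟩
  · intro C D hC hD hCD
    -- the closed set of b such that A x {b} lies in C
    have key : ∀ C : Set (κ ⊕ κ' → F), ZClosed C →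
        ZClosed {b : κ' → F | ∀ a ∈ A, Sum.elim a b ∈ C} := by
      intro C hC
      have : {b : κ' → F | ∀ a ∈ A, Sum.elim a b ∈ C}
          = ⋂ a : A, (fun b : κ' → F => Sum.elim a.1 b) ⁻¹' C := by
        ext b
        simp
      rw [this]
      exact ZClosed.iInter fun a => (ratMap_elim_left Set.univ a.1).preimage_closed hC
    have h1 : B ⊆ {b | ∀ a ∈ A, Sum.elim a b ∈ C} ∪ {b | ∀ a ∈ A, Sum.elim a b ∈ D} := by
      intro b hb
      have h2 : A ⊆ (fun a : κ → F => Sum.elim a b) ⁻¹' C ∪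
          (fun a : κ → F => Sum.elim a b) ⁻¹' D := by
        intro a ha
        exact hCD (elim_mem_prodSet.mpr ⟨ha, hb⟩)
      rcases hA.subset_or ((ratMap_elim_right Set.univ b).preimage_closed hC)
        ((ratMap_elim_right Set.univ b).preimage_closed hD) h2 with h3 | h3
      · left; exact fun a ha => h3 ha
      · right; exact fun a ha => h3 ha
    rcases hB.subset_or (key C hC) (key D hD) h1 with h3 | h3
    · left
      intro x hx
      have := h3 hx.2 _ hx.1
      rwa [Sum.elim_comp_inl_inr] at this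
    · right
      intro x hx
      have := h3 hx.2 _ hx.1
      rwa [Sum.elim_comp_inl_inr] at this

theorem Irr.prodSet {A : Set (κ → F)} {B : Set (κ' → F)} (hA : Irr A)
    (hB : Irr B) : Irr (prodSet A B) := ⟨hA.closed.prodSet hB.closed, hA.pirr.prodSet hB.pirr⟩

theorem zclosed_singleton [Finite κ] (x : κ → F) : ZClosed ({x} : Set (κ → F)) := by
  rw [zclosed_iff_zl]
  refine ⟨Set.range fun i => X i - C (x i : F), ?_⟩
  ext y
  simp only [Set.mem_singleton_iff, mem_zl, Set.mem_range, forall_exists_index,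
    forall_apply_eq_imp_iff, map_sub, aeval_X, aeval_C]
  constructor
  · rintro rfl i
    simp [co]
  · intro h
    funext i
    have := h i
    rw [sub_eq_zero] at this
    exact this

theorem pirr_singleton (x : κ → F) : PIrr ({x} : Set (κ → F)) := by
  refine ⟨⟨x, rfl⟩, ?_⟩
  intro A B _ _ hAB
  rcases hAB (Set.mem_singleton x) with h | h
  · left; exact Set.singleton_subset_iff.mpr h
  · right; exact Set.singleton_subset_iff.mpr h

theorem irr_singleton [Finite κ] (x : κ → F) : Irr ({x} : Set (κ → F)) :=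
  ⟨zclosed_singleton x, pirr_singleton x⟩

theorem zl_bot : zl (F := F) F ((⊥ : Ideal (MvPolynomial κ F)) : Set (MvPolynomial κ F))
    = (Set.univ : Set (κ → F)) := by
  ext x
  simp only [mem_zl, Set.mem_univ, iff_true]
  intro p hp
  have : p = 0 := hp
  rw [this, map_zero]

theorem irr_univ [Finite κ] [IsAlgClosed F] : Irr (Set.univ : Set (κ → F)) := by
  have := irr_zl (F := F) (⊥ : Ideal (MvPolynomial κ F))
  rwa [zl_bot] at this

theorem vI_univ [Finite κ] [IsAlgClosed F] : vI F (Set.univ : Set (κ → F)) = ⊥ := by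
  rw [← zl_bot]
  exact vI_zl (F := F) (⊥ : Ideal (MvPolynomial κ F))

end Maps

end Pool.Agent.MP_dd1803_nt.Aff
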