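import Mathlib
import Pool.Agent.MP_dd1803_nt.Aff.Ext

open MvPolynomial

namespace Pool.Agent.MP_dd1803_nt.Aff

section Tower

variable {F : Type} [Field F] {κ : Type} {k k' : Type} [Field k] [Field k'] [Algebra k F]
  [Algebra k' F] [Algebra k k'] [IsScalarTower k k' F]

theorem map_mem_vI {X : Set (κ → F)} {p : MvPolynomial κ k} :
    MvPolynomial.map (algebraMap k k') p ∈ vI k' X ↔ p ∈ vI k X := by
  rw [mem_vI, mem_vI]
  apply forall₂_congr
  intro x _
  rw [aeval_map_algebraMap]

variable (k k') in
theorem cl_tower (X : Set (κ → F)) : cl k' X ⊆ cl k X := by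
  intro x hx p hp
  rw [SetLike.mem_coe, ← map_mem_vI (k' := k')] at hp
  have := hx _ hp
  rwa [aeval_map_algebraMap] at this

variable (k k') in
theorem cl_cl (X : Set (κ → F)) : cl k (cl k' X) = cl k X := by
  apply Set.Subset.antisymm
  · have h1 := cl_mono (k := k) (cl_tower k k' X)
    have h2 : cl k (cl k X) = cl k X := by
      unfold cl
      rw [show vI k (zl k (vI k X : Set (MvPolynomial κ k))) = vI k X from vI_cl X]
    rw [h2] at h1
    exact h1
  · exact cl_mono (subset_cl X)

theorem cl_idem (X : Set (κ → F)) : cl k (cl k X) = cl k X := by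
  unfold cl
  rw [show vI k (zl k (vI k X : Set (MvPolynomial κ k))) = vI k X from vI_cl X]

theorem cl_subset_of_closed {X Y : Set (κ → F)} (h : X ⊆ Y) (hY : cl k Y = Y) : cl k X ⊆ Y := by
  rw [← hY]
  exact cl_mono h

variable [Finite κ]

/-- larger fields give smaller transcendence degrees -/
theorem td_tower_le {X : Set (κ → F)} (hX : PIrr X) : td k' X ≤ td k X := by
  obtain ⟨s, hs, hc⟩ := exists_basis' (k := k') hX
  rw [← hc]
  apply Ind.ncard_le _ hX
  intro p hp
  have h1 := hs (MvPolynomial.map (algebraMap k k') p) (by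
    intro x hx
    rw [aeval_map_algebraMap]
    exact hp x hx)
  exact (MvPolynomial.map_injective _ (algebraMap k k').injective) (by rw [h1, map_zero])

/-- An extension of transcendence degree at most one changes the dimension by at most one. -/
theorem td_tower_le_add_one {X : Set (κ → F)} (hX : PIrr X) (a : k')
    [Algebra.IsAlgebraic (Algebra.adjoin k {a}) k'] : td k X ≤ td k' X + 1 := by
  have hP := vI_isPrime (k := k') hX
  obtain ⟨s, hs, hc⟩ := exists_basis' (k := k) hX
  let R' := MvPolynomial κ k' ⧸ vI k' X
  have hne : Nontrivial R' := inferInstance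
  have hfs : FaithfulSMul k' R' :=
    (faithfulSMul_iff_algebraMap_injective k' R').mpr (algebraMap k' R').injective
  have hfs2 : FaithfulSMul k k' :=
    (faithfulSMul_iff_algebraMap_injective k k').mpr (algebraMap k k').injective
  have h1 : AlgebraicIndependent k (fun i : s => gen k' X i) := by
    rw [algebraicIndependent_iff]
    intro p hp
    apply hs
    intro x hx
    have h2 : aeval (fun i : s => gen k' X i) p =
        aeval (fun i : s => gen k' X i) (MvPolynomial.map (algebraMap k k') p) := by
      rw [aeval_map_algebraMap]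
    rw [h2, aeval_gen_eq_zero_iff] at hp
    have h3 := hp x hx
    rwa [aeval_map_algebraMap] at h3
  have h2 := h1.cardinalMk_le_trdeg
  have h3 : Algebra.trdeg k k' + Algebra.trdeg k' R' = Algebra.trdeg k R' :=
    trdeg_add_eq k k' (A := R')
  have h4 : Algebra.trdeg k k' ≤ 1 := by
    have := Algebra.IsAlgebraic.trdeg_le_cardinalMk (R := k) (A := k') (s := {a})
    simpa using this
  have h5 : Cardinal.mk s ≤ 1 + Algebra.trdeg k' R' := by
    refine h2.trans ?_
    rw [← h3]
    gcongr
  have hfin := trdeg_lt_aleph0 (k := k') hX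
  have h6 := Cardinal.toNat_le_toNat h5 (by
    apply Cardinal.add_lt_aleph0 _ hfin
    exact Cardinal.one_lt_aleph0)
  rw [Cardinal.toNat_add Cardinal.one_lt_aleph0 hfin, Cardinal.one_toNat,
    ← Set.cast_ncard s.toFinite, Cardinal.toNat_natCast] at h6
  unfold td
  unfold td at hc
  omega

/-- Algebraic extensions do not change the dimension. -/
theorem td_tower_eq {X : Set (κ → F)} (hX : PIrr X) [Algebra.IsAlgebraic k k'] :
    td k X = td k' X := by
  apply le_antisymm _ (td_tower_le hX)
  have hP := vI_isPrime (k := k') hX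
  obtain ⟨s, hs, hc⟩ := exists_basis' (k := k) hX
  let R' := MvPolynomial κ k' ⧸ vI k' X
  have h1 : AlgebraicIndependent k (fun i : s => gen k' X i) := by
    rw [algebraicIndependent_iff]
    intro p hp
    apply hs
    intro x hx
    have h2 : aeval (fun i : s => gen k' X i) p =
        aeval (fun i : s => gen k' X i) (MvPolynomial.map (algebraMap k k') p) := by
      rw [aeval_map_algebraMap]
    rw [h2, aeval_gen_eq_zero_iff] at hp
    have h3 := hp x hx
    rwa [aeval_map_algebraMap] at h3
  have h2 : AlgebraicIndependent k' (fun i : s => gen k' X i) := h1.extendScalars _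
  rw [← ind_iff] at h2
  rw [← hc]
  exact h2.ncard_le hX

end Tower

end Pool.Agent.MP_dd1803_nt.Aff
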