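import Mathlib
import Pool.Agent.MP_dd1803_nt.Acl
import Pool.Agent.MP_dd1803_nt.Aff.Fields

open MvPolynomial

namespace Pool.Agent.MP_dd1803_nt.Aff

section VIle

variable {F : Type} [Field F] {κ : Type} {k k' : Type} [Field k] [Field k'] [Algebra k F]
  [Algebra k' F] [Algebra k k'] [IsScalarTower k k' F] [Finite κ]

theorem td_of_vI_le {X Y : Set (κ → F)} (hX : PIrr X) (hY : PIrr Y) (h : vI k X ≤ vI k Y) :
    td k Y ≤ td k X := by
  obtain ⟨s, hs, hc⟩ := exists_basis' (k := k) hY
  rw [← hc]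
  apply Ind.ncard_le _ hX
  intro p hp
  apply hs
  intro x hx
  have h1 : rename Subtype.val p ∈ vI k X := by
    rw [mem_vI]
    intro x hx
    rw [aeval_rename]
    exact hp x hx
  have h2 := mem_vI.mp (h h1) x hx
  rw [aeval_rename] at h2
  exact h2

theorem td_le_of_vI_le [Algebra.IsAlgebraic k k'] {X Y : Set (κ → F)} (hX : PIrr X) (hY : PIrr Y)
    (h : vI k X ≤ vI k Y) : td F Y ≤ td k' X := by
  rw [← td_tower_eq (k := k) (k' := k') hX]
  exact (td_tower_le (k := k) (k' := F) hY).trans (td_of_vI_le hX hY h)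

end VIle

section Core

variable {F : Type} [Field F] {κ : Type} {k : Type} [Field k] [Algebra k F]

/-- The largest subset of `V` defined over `k`. -/
def core (k : Type) [Field k] [Algebra k F] (V : Set (κ → F)) : Set (κ → F) :=
  zl k {q | ∃ p ∈ vI F V, ∃ φ : F →ₗ[k] k, q = cmpl φ p}

theorem core_subset {V : Set (κ → F)} (hV : ZClosed V) : core k V ⊆ V := by
  intro x hx
  rw [← zclosed_iff.mp hV]
  intro p hp
  apply aeval_eq_zero_of_cmpl (k := k)
  intro φ
  exact hx _ ⟨p, hp, φ, rfl⟩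

theorem cl_zl (S : Set (MvPolynomial κ k)) : cl k (zl (F := F) k S) = zl k S := by
  apply Set.Subset.antisymm
  · apply zl_anti
    rw [← subset_zl_iff]
  · exact subset_cl _

theorem cl_core (V : Set (κ → F)) : cl k (core k V) = core k V := cl_zl _

theorem zclosed_core (V : Set (κ → F)) : ZClosed (core k V) := zclosed_zl _

theorem subset_core [Finite κ] [IsAlgClosed F] [IsAlgClosed k] {X V : Set (κ → F)} (hX : PIrr X)
    (h : cl k X ⊆ V) : X ⊆ core k V := by
  rintro x hx q ⟨p, hp, φ, rfl⟩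
  have h1 : p ∈ vI F (cl k X) := vI_anti h hp
  rw [mem_vI_cl hX] at h1
  exact mem_vI.mp (h1 φ) x hx

end Core

end Pool.Agent.MP_dd1803_nt.Aff
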