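import Mathlib
import Pool.Agent.MP_dd1803_nt.Aff.Ext

open MvPolynomial

namespace Pool.Agent.MP_dd1803_nt.Aff

section IndProd

variable {F : Type} [Field F] {κ κ' : Type} {k : Type} [Field k] [Algebra k F]

/-- Partial evaluation of a polynomial in two groups of variables. -/
theorem aeval_sum_eq {ι ι' : Type} (p : MvPolynomial (ι ⊕ ι') k) (x : ι → F) (y : ι' → F) :
    aeval (Sum.elim x y) p = aeval x (MvPolynomial.map (aeval y : MvPolynomial ι' k →ₐ[k] F).toRingHom
      (sumAlgEquiv k ι ι' p)) := by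
  induction p using MvPolynomial.induction_on with
  | C c =>
    simp
  | add p q hp hq => simp only [map_add, hp, hq]
  | mul_X p i hp =>
    simp only [map_mul, hp]
    rcases i with i | i
    · simp
    · simp

theorem IndF.prod {A : Set (κ → F)} {B : Set (κ' → F)} {ι ι' : Type} {f : ι → κ} {g : ι' → κ'}
    (hA : IndF F A f) (hB : IndF k B g) : IndF k (prodSet A B) (Sum.map f g) := by
  intro p hp
  have h1 : sumAlgEquiv k ι ι' p = 0 := by
    ext m : 1
    rw [coeff_zero]
    apply hB
    intro b hb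
    have h2 : MvPolynomial.map (aeval (fun i : ι' => co b (g i)) : MvPolynomial ι' k →ₐ[k] F).toRingHom
      (sumAlgEquiv k ι ι' p) = 0 := by
      apply hA
      intro a ha
      rw [← aeval_sum_eq]
      have h3 := hp (Sum.elim a b) (elim_mem_prodSet.mpr ⟨ha, hb⟩)
      have h4 : (fun i => co (Sum.elim a b) (Sum.map f g i)) =
          Sum.elim (fun i => co a (f i)) (fun i => co b (g i)) := by
        funext i
        rcases i with i | i <;> rfl
      rw [h4] at h3
      exact h3
    have h5 := congrArg (coeff m) h2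
    rw [coeff_map, coeff_zero] at h5
    exact h5
  exact (map_eq_zero_iff _ (sumAlgEquiv k ι ι').injective).mp h1

theorem IndF.image {S : Set (κ → F)} {Φ : (κ → F) → (κ' → F)} {ι : Type} {f : ι → κ}
    {g : ι → κ'} (h : IndF k S f) (hΦ : ∀ x ∈ S, ∀ i, Φ x (g i) = x (f i)) :
    IndF k (Φ '' S) g := by
  intro p hp
  apply h
  intro x hx
  have h1 := hp (Φ x) ⟨x, hx, rfl⟩
  have h2 : (fun i => co (Φ x) (g i)) = fun i => co x (f i) := by
    funext i
    rw [co_apply, co_apply, hΦ x hx i]
  rw [h2] at h1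
  exact h1

end IndProd

section CdProd

variable {F : Type} [Field F] {κ κ' : Type} [Fintype κ] [Fintype κ']

theorem td_prod_ge {k : Type} [Field k] [Algebra k F] {A : Set (κ → F)} {B : Set (κ' → F)}
    (hA : PIrr A) (hB : PIrr B) : td F A + td k B ≤ td k (prodSet A B) := by
  obtain ⟨s, hs, hc⟩ := exists_basis' (k := F) hA
  obtain ⟨t, ht, hd⟩ := exists_basis' (k := k) hB
  rw [ind_iff_indF] at hs ht
  have h1 := (hs.prod ht).card_le (hA.prodSet hB)
  rw [Nat.card_sum, Nat.card_coe_set_eq, Nat.card_coe_set_eq, hc, hd] at h1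
  exact h1

end CdProd

end Pool.Agent.MP_dd1803_nt.Aff
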