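import Mathlib
import Pool.Agent.MP_dd1803_nt.Aff.Prod

open MvPolynomial

namespace Pool.Agent.MP_dd1803_nt.Aff

section Comp

variable {F : Type} [Field F] {κ : Type}

theorem Comp.split [Finite κ] {Z A B Y : Set (κ → F)} (hZ : ZClosed Z) (hA : ZClosed A)
    (h : Comp (Z ∩ A ∩ B) Y) : ∃ Z1, Comp (Z ∩ A) Z1 ∧ Comp (Z1 ∩ B) Y := by
  obtain ⟨Z1, hZ1, hY⟩ := exists_comp (hZ.inter hA) h.irr (h.subset.trans Set.inter_subset_left)
  refine ⟨Z1, hZ1, ⟨⟨h.irr, Set.subset_inter hY (h.subset.trans Set.inter_subset_right)⟩, ?_⟩⟩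
  rintro W ⟨hW, hWZ⟩ hYW
  have h1 : W ⊆ Z ∩ A ∩ B :=
    Set.subset_inter ((hWZ.trans Set.inter_subset_left).trans hZ1.subset)
      (hWZ.trans Set.inter_subset_right)
  exact (h.eq_of_subset hW h1 hYW).ge

variable [IsAlgClosed F]

theorem krull_list [Finite κ] {ι : Type} (s : Finset ι) (p : ι → MvPolynomial κ F) :
    ∀ {Z Y : Set (κ → F)}, Irr Z → Comp (Z ∩ {x | ∀ i ∈ s, aeval (co x) (p i) = 0}) Y →
      td F Z ≤ td F Y + s.card := by
  classical
  induction s using Finset.induction_on with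
  | empty =>
    intro Z Y hZ h
    have h1 : Z ∩ {x | ∀ i ∈ (∅ : Finset ι), aeval (co x) (p i) = 0} = Z := by
      ext x
      simp
    rw [h1] at h
    have := h.eq_of_subset hZ le_rfl h.subset
    rw [this]
    simp
  | insert a s ha ih =>
    intro Z Y hZ h
    have h1 : Z ∩ {x | ∀ i ∈ insert a s, aeval (co x) (p i) = 0} =
        Z ∩ zp (p a) ∩ {x | ∀ i ∈ s, aeval (co x) (p i) = 0} := by
      ext x
      simp only [Set.mem_inter_iff, Set.mem_ofPred_eq, Finset.mem_insert, forall_eq_or_imp, mem_zp]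
      tauto
    rw [h1] at h
    obtain ⟨Z1, h2, h3⟩ := Comp.split hZ.closed (zclosed_zp _) h
    have h4 := ih h2.irr h3
    have h5 := krull hZ (p a) h2
    rw [Finset.card_insert_of_notMem ha]
    omega

end Comp

end Pool.Agent.MP_dd1803_nt.Aff
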