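import Mathlib
import Pool.Agent.MP_dd1803_nt.Aff.Acl
import Pool.Agent.MP_dd1803_nt.Aff.Defect

open MvPolynomial

namespace Pool.Agent.MP_dd1803_nt.Aff

/-- A special structure on a field of characteristic zero: a family of binary relations with the
formal properties of the modular correspondences. -/
class SpStr (F : Type) [Field F] [CharZero F] where
  rel : ℕ → F → F → Prop
  one : ∀ x y, rel 1 x y ↔ x = y
  poly : ∀ N, 0 < N → ∃ P : MvPolynomial (Fin 2) F, ∀ x y, rel N x y ↔ aeval ![x, y] P = 0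
  defd : ∀ N, 0 < N → cl (acl (∅ : Set F)) {z : Fin 2 → F | rel N (z 0) (z 1)} =
    {z : Fin 2 → F | rel N (z 0) (z 1)}
  fin_left : ∀ N, 0 < N → ∀ x, {y | rel N x y}.Finite
  fin_diag : ∀ N, 1 < N → {x | rel N x x}.Finite
  symm : ∀ N, 0 < N → ∀ x y, rel N x y → rel N y x
  trans : ∀ N M, 0 < N → 0 < M → ∃ L : Finset ℕ, (∀ l ∈ L, 0 < l) ∧
    ∀ x y z, rel N x y → rel M y z → ∃ l ∈ L, rel l x z
  cm : ∀ N M, 0 < N → 0 < M → N ≠ M → ∃ L : Finset ℕ, (∀ l ∈ L, 1 < l) ∧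
    ∀ x y, rel N x y → rel M x y → ∃ l ∈ L, rel l x x
  cm_trans : ∀ N M, 0 < N → 1 < M → ∀ x y, rel N x y → rel M x x → ∃ l, 1 < l ∧ rel l y y
  geom : ∀ (κ : Type) [Finite κ] [Nonempty κ] (p : κ → F),
    (∀ i k, ∃ N, 0 < N ∧ rel N (p i) (p k)) → (∀ i, ¬ ∃ N, 1 < N ∧ rel N (p i) (p i)) →
    ∃ T : Set (κ → F), Irr T ∧ p ∈ T ∧ (∃ q ∈ T, q ≠ p) ∧
      ∀ N, 0 < N → ∀ i k, rel N (p i) (p k) → ∀ x ∈ T, rel N (x i) (x k)
  graph : ∀ N, 0 < N → ∀ p : Polynomial F, (∀ x, rel N x (p.eval x)) → N = 1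
  two_sum : ∃ α β : F, ∀ x y1 y2 y3, rel 2 x y1 → rel 2 x y2 → rel 2 x y3 →
    y1 ≠ y2 → y1 ≠ y3 → y2 ≠ y3 → y1 + y2 + y3 = x ^ 2 + α * x + β
  two_three : {x | ¬ ∃ y1 y2 y3, rel 2 x y1 ∧ rel 2 x y2 ∧ rel 2 x y3 ∧
    y1 ≠ y2 ∧ y1 ≠ y3 ∧ y2 ≠ y3}.Finite
  sp_zero : ∃ N, 1 < N ∧ rel N 0 0
  sp_ne : ∃ c : F, c ≠ 0 ∧ ∃ N, 1 < N ∧ rel N c c

section Rank

variable {F : Type} [Field F] [CharZero F] [SpStr F] {κ : Type}

open SpStr

/-- The set of points with `rel N (x i) (x k)`. -/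
def RS (N : ℕ) (i k : κ) : Set (κ → F) := {x | rel N (x i) (x k)}

theorem mem_RS {N : ℕ} {i k : κ} {x : κ → F} : x ∈ RS N i k ↔ rel N (x i) (x k) := Iff.rfl

theorem RS_eq_zp {N : ℕ} (hN : 0 < N) (i k : κ) :
    ∃ P : MvPolynomial κ F, (RS N i k : Set (κ → F)) = zp P := by
  obtain ⟨P, hP⟩ := poly (F := F) N hN
  refine ⟨rename ![i, k] P, ?_⟩
  ext x
  rw [mem_RS, hP, mem_zp, aeval_rename]
  have h : co x ∘ ![i, k] = ![x i, x k] := by
    funext l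
    fin_cases l <;> rfl
  rw [h]

theorem RS_eq_zl {N : ℕ} (hN : 0 < N) (i k : κ) :
    ∃ S : Set (MvPolynomial κ (acl (∅ : Set F))),
      (RS N i k : Set (κ → F)) = zl (acl (∅ : Set F)) S := by
  refine ⟨rename ![i, k] '' (vI (acl (∅ : Set F)) {z : Fin 2 → F | rel N (z 0) (z 1)} :
    Set (MvPolynomial (Fin 2) (acl (∅ : Set F)))), ?_⟩
  have h0 := defd (F := F) N hN
  ext x
  have h : co x ∘ ![i, k] = co (![x i, x k] : Fin 2 → F) := by
    funext l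
    fin_cases l <;> rfl
  rw [mem_RS, mem_zl]
  have h1 : (![x i, x k] : Fin 2 → F) ∈ {z : Fin 2 → F | rel N (z 0) (z 1)} ↔
      rel N (x i) (x k) := Iff.rfl
  constructor
  · rintro h2 _ ⟨p, hp, rfl⟩
    rw [aeval_rename, h]
    rw [← h1, ← h0] at h2
    exact h2 p hp
  · intro h2
    rw [← h1, ← h0]
    intro p hp
    have h3 := h2 _ ⟨p, hp, rfl⟩
    rwa [aeval_rename, h] at h3

theorem zclosed_RS {N : ℕ} (hN : 0 < N) (i k : κ) : ZClosed (RS N i k : Set (κ → F)) := by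
  obtain ⟨P, hP⟩ := RS_eq_zp (F := F) hN i k
  rw [hP]
  exact zclosed_zp _

theorem cl_RS {k0 : Type} [Field k0] [Algebra k0 F] [Algebra (acl (∅ : Set F)) k0]
    [IsScalarTower (acl (∅ : Set F)) k0 F] {N : ℕ} (hN : 0 < N) (i k : κ) :
    cl k0 (RS N i k : Set (κ → F)) = RS N i k := by
  obtain ⟨S, hS⟩ := RS_eq_zl (F := F) hN i k
  apply Set.Subset.antisymm
  · rw [hS]
    refine (cl_tower (acl (∅ : Set F)) k0 _).trans ?_
    rw [cl_zl]
  · exact subset_cl _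

/-- Coordinates `i` and `k` are related on `X`. -/
def Rl (X : Set (κ → F)) (i k : κ) : Prop := ∃ N, 0 < N ∧ X ⊆ RS N i k

/-- The coordinate `i` is special on `X`. -/
def Sp (X : Set (κ → F)) (i : κ) : Prop := ∃ N, 1 < N ∧ X ⊆ RS N i i

theorem Rl.refl (X : Set (κ → F)) (i : κ) : Rl X i i :=
  ⟨1, one_pos, fun x _ => (one (x i) (x i)).mpr rfl⟩

theorem Rl.symm {X : Set (κ → F)} {i k : κ} (h : Rl X i k) : Rl X k i := by
  obtain ⟨N, hN, h⟩ := h
  exact ⟨N, hN, fun x hx => SpStr.symm N hN _ _ (h hx)⟩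

theorem Rl.anti {X Y : Set (κ → F)} {i k : κ} (h : Rl Y i k) (hXY : X ⊆ Y) : Rl X i k := by
  obtain ⟨N, hN, h⟩ := h
  exact ⟨N, hN, hXY.trans h⟩

theorem Sp.anti {X Y : Set (κ → F)} {i : κ} (h : Sp Y i) (hXY : X ⊆ Y) : Sp X i := by
  obtain ⟨N, hN, h⟩ := h
  exact ⟨N, hN, hXY.trans h⟩

theorem Rl.trans {X : Set (κ → F)} (hX : PIrr X) {i k l : κ} (h : Rl X i k) (h' : Rl X k l) :
    Rl X i l := by
  classical
  obtain ⟨N, hN, h⟩ := h
  obtain ⟨M, hM, h'⟩ := h'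
  obtain ⟨L, hL, H⟩ := SpStr.trans (F := F) N M hN hM
  obtain ⟨Z, hZ, hXZ⟩ := hX.subset_of_finset (L.image fun n => (RS n i l : Set (κ → F))) (by
    intro Z hZ
    obtain ⟨n, hn, rfl⟩ := Finset.mem_image.mp hZ
    exact zclosed_RS (hL n hn) i l) (by
    intro x hx
    obtain ⟨n, hn, hr⟩ := H _ _ _ (h hx) (h' hx)
    exact Set.mem_biUnion (Finset.mem_image_of_mem _ hn) hr)
  obtain ⟨n, hn, rfl⟩ := Finset.mem_image.mp hZ
  exact ⟨n, hL n hn, hXZ⟩

omit [CharZero F] [SpStr F] in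
/-- A coordinate with finitely many values on an irreducible set is constant. -/
theorem const_of_finite' {X : Set (κ → F)} (hX : PIrr X) {i : κ} {S : Set F} (hS : S.Finite)
    (h : ∀ x ∈ X, x i ∈ S) : ∃ a ∈ S, ∀ x ∈ X, x i = a := by
  classical
  obtain ⟨Z, hZ, hXZ⟩ := hX.subset_of_finset
    (hS.toFinset.image fun a => (zp (MvPolynomial.X i - C a) : Set (κ → F))) (by
    intro Z hZ
    obtain ⟨a, _, rfl⟩ := Finset.mem_image.mp hZ
    exact zclosed_zp _) (by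
    intro x hx
    refine Set.mem_biUnion (Finset.mem_image_of_mem _ (hS.mem_toFinset.mpr (h x hx))) ?_
    rw [mem_zp, map_sub, aeval_X, aeval_C, co_apply]
    simp)
  obtain ⟨a, ha, rfl⟩ := Finset.mem_image.mp hZ
  refine ⟨a, hS.mem_toFinset.mp ha, ?_⟩
  intro x hx
  have := hXZ hx
  rw [mem_zp, map_sub, aeval_X, aeval_C, co_apply, sub_eq_zero] at this
  exact this

theorem Sp.const {X : Set (κ → F)} (hX : PIrr X) {i : κ} (h : Sp X i) :
    ∃ a, (∃ N, 1 < N ∧ rel N a a) ∧ ∀ x ∈ X, x i = a := by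
  obtain ⟨N, hN, h⟩ := h
  obtain ⟨a, ha, h'⟩ := const_of_finite' hX (fin_diag (F := F) N hN) (i := i) (fun x hx => h hx)
  exact ⟨a, ⟨N, hN, ha⟩, h'⟩

theorem sp_of_const {X : Set (κ → F)} {i : κ} {a : F} (ha : ∃ N, 1 < N ∧ rel N a a)
    (h : ∀ x ∈ X, x i = a) : Sp X i := by
  obtain ⟨N, hN, ha⟩ := ha
  refine ⟨N, hN, fun x hx => ?_⟩
  rw [mem_RS, h x hx]
  exact ha

theorem Rl.const {X : Set (κ → F)} (hX : PIrr X) {i k : κ} {a : F} (h : Rl X i k)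
    (hi : ∀ x ∈ X, x i = a) : ∃ b N, 0 < N ∧ rel N a b ∧ ∀ x ∈ X, x k = b := by
  obtain ⟨N, hN, h⟩ := h
  obtain ⟨b, hb, h'⟩ := const_of_finite' hX (fin_left (F := F) N hN a) (i := k) (fun x hx => by
    have := h hx
    rw [mem_RS, hi x hx] at this
    exact this)
  exact ⟨b, N, hN, hb, h'⟩

theorem Sp.of_rl {X : Set (κ → F)} (hX : PIrr X) {i k : κ} (h : Sp X i) (h' : Rl X i k) :
    Sp X k := by
  obtain ⟨a, ⟨M, hM, ha⟩, hi⟩ := h.const hX
  obtain ⟨b, N, hN, hb, hk⟩ := h'.const hX hi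
  exact sp_of_const (cm_trans N M hN hM a b hb ha) hk

theorem rl_cl {k0 : Type} [Field k0] [Algebra k0 F] [Algebra (acl (∅ : Set F)) k0]
    [IsScalarTower (acl (∅ : Set F)) k0 F] {X : Set (κ → F)} {i k : κ} :
    Rl (cl k0 X) i k ↔ Rl X i k := by
  constructor
  · intro h
    exact h.anti (subset_cl X)
  · rintro ⟨N, hN, h⟩
    exact ⟨N, hN, cl_subset_of_closed h (cl_RS hN i k)⟩

theorem sp_cl {k0 : Type} [Field k0] [Algebra k0 F] [Algebra (acl (∅ : Set F)) k0]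
    [IsScalarTower (acl (∅ : Set F)) k0 F] {X : Set (κ → F)} {i : κ} :
    Sp (cl k0 X) i ↔ Sp X i := by
  constructor
  · intro h
    exact h.anti (subset_cl X)
  · rintro ⟨N, hN, h⟩
    exact ⟨N, hN, cl_subset_of_closed h (cl_RS (by omega) i i)⟩

/-- Free sets of coordinates. -/
def Fr (X : Set (κ → F)) (s : Finset κ) : Prop :=
  (∀ i ∈ s, ¬ Sp X i) ∧ ∀ i ∈ s, ∀ k ∈ s, i ≠ k → ¬ Rl X i k

/-- The rank: the largest size of a free set of coordinates. -/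
noncomputable def rk (X : Set (κ → F)) : ℕ := sSup {n | ∃ s : Finset κ, Fr X s ∧ s.card = n}

theorem Fr.mono {X Y : Set (κ → F)} {s : Finset κ} (h : Fr X s) (hXY : X ⊆ Y) : Fr Y s :=
  ⟨fun i hi hs => h.1 i hi (hs.anti hXY), fun i hi k hk hik hr => h.2 i hi k hk hik (hr.anti hXY)⟩

theorem fr_empty (X : Set (κ → F)) : Fr X ∅ := by
  constructor
  · intro i hi
    simp at hi
  · intro i hi
    simp at hi

variable [Fintype κ]

theorem bdd_fr (X : Set (κ → F)) : BddAbove {n | ∃ s : Finset κ, Fr X s ∧ s.card = n} := by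
  refine ⟨Fintype.card κ, ?_⟩
  rintro n ⟨s, _, rfl⟩
  exact s.card_le_univ

theorem Fr.card_le {X : Set (κ → F)} {s : Finset κ} (h : Fr X s) : s.card ≤ rk X :=
  le_csSup (bdd_fr X) ⟨s, h, rfl⟩

theorem exists_fr (X : Set (κ → F)) : ∃ s : Finset κ, Fr X s ∧ s.card = rk X :=
  Nat.sSup_mem (s := {n | ∃ s : Finset κ, Fr X s ∧ s.card = n}) ⟨0, ∅, fr_empty X, rfl⟩ (bdd_fr X)

theorem rk_mono {X Y : Set (κ → F)} (h : X ⊆ Y) : rk X ≤ rk Y := by
  obtain ⟨s, hs, hc⟩ := exists_fr X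
  rw [← hc]
  exact (hs.mono h).card_le

theorem rk_le_card (X : Set (κ → F)) : rk X ≤ Fintype.card κ := by
  obtain ⟨s, _, hc⟩ := exists_fr X
  rw [← hc]
  exact s.card_le_univ

theorem rk_cl {k0 : Type} [Field k0] [Algebra k0 F] [Algebra (acl (∅ : Set F)) k0]
    [IsScalarTower (acl (∅ : Set F)) k0 F] (X : Set (κ → F)) : rk (cl k0 X) = rk X := by
  unfold rk Fr
  simp only [rl_cl, sp_cl]

/-- A maximal free set spans. -/
theorem Fr.span {X : Set (κ → F)} (hX : PIrr X) {s : Finset κ} (h : Fr X s) (hc : rk X ≤ s.card)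
    (i : κ) : Sp X i ∨ ∃ a ∈ s, Rl X i a := by
  classical
  by_contra hcon
  push Not at hcon
  obtain ⟨h1, h2⟩ := hcon
  have hi : i ∉ s := fun hi => h2 i hi (Rl.refl X i)
  have h3 : Fr X (insert i s) := by
    constructor
    · intro k hk
      rcases Finset.mem_insert.mp hk with rfl | hk
      · exact h1
      · exact h.1 k hk
    · intro k hk l hl hkl
      rcases Finset.mem_insert.mp hk with hk' | hk'
      · rcases Finset.mem_insert.mp hl with hl' | hl'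
        · exact absurd (hk'.trans hl'.symm) hkl
        · rw [hk']
          exact h2 l hl'
      · rcases Finset.mem_insert.mp hl with hl' | hl'
        · rw [hl']
          exact fun hr => h2 k hk' hr.symm
        · exact h.2 k hk' l hl' hkl
  have h4 := h3.card_le
  rw [Finset.card_insert_of_notMem hi] at h4
  omega

theorem rk_le_of_span {X : Set (κ → F)} (hX : PIrr X) (t : Finset κ)
    (h : ∀ i, Sp X i ∨ ∃ a ∈ t, Rl X i a) : rk X ≤ t.card := by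
  classical
  obtain ⟨s, hs, hc⟩ := exists_fr X
  rw [← hc]
  have h1 : ∀ i ∈ s, ∃ a ∈ t, Rl X i a := by
    intro i hi
    rcases h i with h2 | h2
    · exact absurd h2 (hs.1 i hi)
    · exact h2
  choose! f hf hf' using h1
  apply Finset.card_le_card_of_injOn f hf
  intro i hi k hk hik
  by_contra hne
  apply hs.2 i hi k hk hne
  have h2 := hf' k hk
  rw [← hik] at h2
  exact (hf' i hi).trans hX h2.symm

end Rank

end Pool.Agent.MP_dd1803_nt.Aff
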