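import Mathlib
import Pool.Agent.MP_dd1803_nt.Aff.Struct

open MvPolynomial

namespace Pool.Agent.MP_dd1803_nt.Aff

section TdPull

variable {F : Type} [Field F] {κ κ' : Type} {k : Type} [Field k] [Algebra k F]

theorem PIrr.pull {X : Set (κ → F)} (hX : PIrr X) (e : κ' → κ) : PIrr (pull e '' X) :=
  hX.image (ratMap_pull _ _)

theorem IndF.comp {X : Set (κ → F)} {ι ι' : Type} {f : ι → κ} (h : IndF k X f) (g : ι' → ι)
    (hg : Function.Injective g) : IndF k X (f ∘ g) := by
  rw [indF_iff] at *
  exact AlgebraicIndependent.comp h g hg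

theorem td_le_pull [Finite κ] [Finite κ'] {X : Set (κ → F)} (hX : PIrr X) {e : κ' → κ}
    (he : Function.Injective e) (s0 : Set κ)
    (halg : ∀ i, IsAlgebraic (Algebra.adjoin k (gen k X '' s0)) (gen k X i)) :
    td k X ≤ td k (pull e '' X) + (s0 \ Set.range e).ncard := by
  obtain ⟨s, hs0, hs, hc⟩ := exists_basis hX s0 halg
  have h1 : (s ∩ Set.range e).ncard ≤ td k (pull e '' X) := by
    rw [ind_iff_indF] at hs
    have h2 := hs.comp (fun j : (e ⁻¹' s : Set κ') => (⟨e j.1, j.2⟩ : s)) (by
      intro a b hab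
      exact Subtype.ext (he (Subtype.ext_iff.mp hab)))
    have h3 : IndF k (pull e '' X) (Subtype.val : (e ⁻¹' s : Set κ') → κ') :=
      h2.image (Φ := pull e) (fun x _ i => rfl)
    have h4 := h3.card_le (hX.pull e)
    rw [Nat.card_coe_set_eq] at h4
    have h5 : s ∩ Set.range e = e '' (e ⁻¹' s) := by
      rw [Set.image_preimage_eq_inter_range]
    rw [h5, Set.ncard_image_of_injective _ he]
    exact h4
  have h2 : (s \ Set.range e).ncard ≤ (s0 \ Set.range e).ncard :=
    Set.ncard_le_ncard (Set.sdiff_subset_sdiff_left hs0) (Set.toFinite _)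
  have h3 : s.ncard = (s ∩ Set.range e).ncard + (s \ Set.range e).ncard :=
    (Set.ncard_inter_add_ncard_sdiff_eq_ncard s _ (Set.toFinite _)).symm
  omega

theorem td_le_pull' [Finite κ] [Finite κ'] {X : Set (κ → F)} (hX : PIrr X) {e : κ' → κ}
    (he : Function.Injective e) : td k X ≤ td k (pull e '' X) + (Set.range e)ᶜ.ncard := by
  have hP := vI_isPrime (k := k) hX
  have hne : Nontrivial (MvPolynomial κ k ⧸ vI k X) := inferInstance
  have h1 := td_le_pull (k := k) hX he Set.univ (fun i =>
    isAlgebraic_algebraMap (⟨gen k X i, Algebra.subset_adjoin ⟨i, trivial, rfl⟩⟩ :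
      Algebra.adjoin k (gen k X '' Set.univ)))
  rwa [← Set.compl_eq_univ_sdiff] at h1

/-- evaluation at a point of `X` on the coordinate ring -/
noncomputable def evX {X : Set (κ → F)} {x : κ → F} (hx : x ∈ X) :
    (MvPolynomial κ k ⧸ vI k X) →ₐ[k] F :=
  Ideal.Quotient.liftₐ _ (aeval (co x)) (fun _ hp => mem_vI.mp hp x hx)

theorem evX_gen {X : Set (κ → F)} {x : κ → F} (hx : x ∈ X) (i : κ) :
    evX (k := k) hx (gen k X i) = x i := by
  unfold evX gen
  rw [Ideal.Quotient.liftₐ_apply, Ideal.Quotient.lift_mk]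
  simp [co]

theorem gen_constant {X : Set (κ → F)} {i : κ} {a : F} (h : ∀ x ∈ X, x i = a) :
    gen F X i = algebraMap F _ a := by
  unfold gen
  have h1 : (MvPolynomial.X i - C a : MvPolynomial κ F) ∈ vI F X := by
    rw [mem_vI]
    intro x hx
    rw [map_sub, aeval_X, aeval_C, co_apply, h x hx]
    simp
  have h2 := Ideal.Quotient.eq_zero_iff_mem.mpr h1
  rw [map_sub, sub_eq_zero] at h2
  exact h2

theorem isAlgebraic_gen_const {X : Set (κ → F)} {i : κ} {a : F}
    (h : ∀ x ∈ X, x i = a) (hX : PIrr X) (s0 : Set κ) :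
    IsAlgebraic (Algebra.adjoin F (gen F X '' s0)) (gen F X i) := by
  have hP := vI_isPrime (k := F) hX
  have hne : Nontrivial (MvPolynomial κ F ⧸ vI F X) := inferInstance
  rw [gen_constant h]
  exact isAlgebraic_algebraMap
    (⟨algebraMap F _ a, Subalgebra.algebraMap_mem _ a⟩ : Algebra.adjoin F (gen F X '' s0))

/-- A coordinate related polynomially to coordinates in `s0`. -/
theorem isAlgebraic_gen_of_poly {X : Set (κ → F)} (hX : PIrr X) {i a : κ} (s0 : Set κ)
    (ha : a ∈ s0) {k1 : Type} [Field k1] [Algebra k1 F] (P : MvPolynomial (Fin 2) k1)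
    (h : ∀ x ∈ X, aeval ![x i, x a] P = 0) (h0 : ∃ x ∈ X, ∃ z, aeval ![z, x a] P ≠ 0) :
    IsAlgebraic (Algebra.adjoin F (gen F X '' s0)) (gen F X i) := by
  have hP := vI_isPrime (k := F) hX
  let b : Algebra.adjoin F (gen F X '' s0) := ⟨gen F X a, Algebra.subset_adjoin ⟨a, ha, rfl⟩⟩
  let Q : MvPolynomial (Fin 2) F := MvPolynomial.map (algebraMap k1 F) P
  have hQ : ∀ y : Fin 2 → F, aeval y Q = aeval y P := fun y => aeval_map_algebraMap _ _ _
  refine ⟨aeval ![Polynomial.X, Polynomial.C b] Q, ?_, ?_⟩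
  · intro hzero
    obtain ⟨x, hx, z, hz⟩ := h0
    apply hz
    rw [← hQ]
    let f : Algebra.adjoin F (gen F X '' s0) →ₐ[F] F :=
      (evX (k := F) hx).comp (Algebra.adjoin F (gen F X '' s0)).val
    have hf : f b = x a := evX_gen hx a
    let g : Polynomial (Algebra.adjoin F (gen F X '' s0)) →ₐ[F] F :=
      { Polynomial.eval₂RingHom f.toRingHom z with
        commutes' := by
          intro r
          simp only [RingHom.toMonoidHom_eq_coe, OneHom.toFun_eq_coe, MonoidHom.toOneHom_coe,
            MonoidHom.coe_coe, Polynomial.coe_eval₂RingHom]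
          rw [Polynomial.algebraMap_apply, Polynomial.eval₂_C]
          exact f.commutes r }
    have h1 : g (aeval ![Polynomial.X, Polynomial.C b] Q) = aeval ![z, x a] Q := by
      have h2 : g.comp (aeval ![Polynomial.X, Polynomial.C b]) = aeval ![z, x a] := by
        apply MvPolynomial.algHom_ext
        intro l
        fin_cases l
        · simp [g]
        · simp [g, hf]
      exact DFunLike.congr_fun h2 Q
    rw [← h1, hzero, map_zero]
  · have h1 : Polynomial.aeval (gen F X i) (aeval ![Polynomial.X, Polynomial.C b] Q) =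
        aeval ![gen F X i, gen F X a] Q := by
      have h2 : ((Polynomial.aeval (gen F X i) :
          Polynomial (Algebra.adjoin F (gen F X '' s0)) →ₐ[_] _).restrictScalars F).comp
          (aeval ![Polynomial.X, Polynomial.C b]) = aeval ![gen F X i, gen F X a] := by
        apply MvPolynomial.algHom_ext
        intro l
        fin_cases l
        · simp
        · simp [b]
      exact DFunLike.congr_fun h2 Q
    rw [h1]
    have h3 : aeval ![gen F X i, gen F X a] Q =
        Ideal.Quotient.mk (vI F X) (rename ![i, a] Q) := by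
      generalize Q = R
      induction R using MvPolynomial.induction_on with
      | C c =>
        rw [aeval_C, rename_C]
        rfl
      | add p q hp hq => simp only [map_add, hp, hq]
      | mul_X p l hp =>
        simp only [map_mul, hp, aeval_X, rename_X]
        fin_cases l <;> rfl
    rw [h3, Ideal.Quotient.eq_zero_iff_mem, mem_vI]
    intro x hx
    rw [aeval_rename]
    have h4 : co x ∘ ![i, a] = ![x i, x a] := by
      funext l
      fin_cases l <;> rfl
    rw [h4, hQ]
    exact h x hx

end TdPull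

section RankTwo

variable {F : Type} [Field F] [CharZero F] [SpStr F] {κ κ' : Type}

open SpStr

theorem isAlgebraic_gen_of_rl {X : Set (κ → F)} (hX : PIrr X) {i a : κ} (s0 : Set κ)
    (ha : a ∈ s0) (h : Rl X i a) :
    IsAlgebraic (Algebra.adjoin F (gen F X '' s0)) (gen F X i) := by
  obtain ⟨N, hN, h⟩ := h
  obtain ⟨P, hP⟩ := poly (F := F) N hN
  apply isAlgebraic_gen_of_poly hX s0 ha P
  · intro x hx
    rw [← hP]
    exact h hx
  · obtain ⟨x, hx⟩ := hX.nonempty
    refine ⟨x, hx, ?_⟩
    by_contra hcon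
    push Not at hcon
    have h1 : {y | rel N (x a) y} = Set.univ := by
      ext z
      simp only [Set.mem_ofPred_eq, Set.mem_univ, iff_true]
      apply SpStr.symm N hN
      rw [hP]
      exact hcon z
    have h2 := fin_left (F := F) N hN (x a)
    rw [h1] at h2
    exact Set.infinite_univ h2

theorem isAlgebraic_gen_of_span {X : Set (κ → F)} (hX : PIrr X) (s0 : Set κ)
    (h : ∀ i, Sp X i ∨ ∃ a ∈ s0, Rl X i a) (i : κ) :
    IsAlgebraic (Algebra.adjoin F (gen F X '' s0)) (gen F X i) := by
  rcases h i with h1 | ⟨a, ha, h1⟩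
  · obtain ⟨a, _, h2⟩ := h1.const hX
    exact isAlgebraic_gen_const h2 hX s0
  · exact isAlgebraic_gen_of_rl hX s0 ha h1

variable [Fintype κ] [Fintype κ']

theorem td_le_rk {X : Set (κ → F)} (hX : PIrr X) : td F X ≤ rk X := by
  obtain ⟨s, hs, hc⟩ := exists_fr X
  obtain ⟨t, hts, _, ht⟩ := exists_basis (k := F) hX (s : Set κ)
    (isAlgebraic_gen_of_span hX _ (fun i => hs.span hX hc.ge i))
  rw [← ht, ← hc, ← Set.ncard_coe_finset]
  exact Set.ncard_le_ncard hts (Set.toFinite _)

omit [Fintype κ] [Fintype κ'] in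
theorem rl_pull {X : Set (κ → F)} {e : κ' → κ} {i k : κ'} :
    Rl (pull e '' X) i k ↔ Rl X (e i) (e k) := by
  unfold Rl
  simp only [Set.subset_def, Set.forall_mem_image, mem_RS]
  rfl

omit [Fintype κ] [Fintype κ'] in
theorem sp_pull {X : Set (κ → F)} {e : κ' → κ} {i : κ'} :
    Sp (pull e '' X) i ↔ Sp X (e i) := by
  unfold Sp
  simp only [Set.subset_def, Set.forall_mem_image, mem_RS]
  rfl

omit [Fintype κ] [Fintype κ'] in
theorem Fr.map {X : Set (κ → F)} {e : κ' ↪ κ} {s : Finset κ'} (h : Fr (pull e '' X) s) :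
    Fr X (s.map e) := by
  constructor
  · intro i hi
    obtain ⟨j, hj, rfl⟩ := Finset.mem_map.mp hi
    rw [← sp_pull]
    exact h.1 j hj
  · intro i hi k hk hik
    obtain ⟨j, hj, rfl⟩ := Finset.mem_map.mp hi
    obtain ⟨l, hl, rfl⟩ := Finset.mem_map.mp hk
    rw [← rl_pull]
    exact h.2 j hj l hl (fun h => hik (by rw [h]))

omit [Fintype κ] [Fintype κ'] in
theorem Fr.comap {X : Set (κ → F)} {e : κ' ↪ κ} {s : Finset κ'} (h : Fr X (s.map e)) :
    Fr (pull e '' X) s := by
  constructor
  · intro i hi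
    rw [sp_pull]
    exact h.1 _ (Finset.mem_map_of_mem e hi)
  · intro i hi k hk hik
    rw [rl_pull]
    exact h.2 _ (Finset.mem_map_of_mem e hi) _ (Finset.mem_map_of_mem e hk)
      (fun h => hik (e.injective h))

theorem rk_pull_le {X : Set (κ → F)} {e : κ' → κ} (he : Function.Injective e) :
    rk (pull e '' X) ≤ rk X := by
  obtain ⟨s, hs, hc⟩ := exists_fr (pull e '' X)
  have h1 : Fr X (s.map ⟨e, he⟩) := Fr.map (e := ⟨e, he⟩) hs
  have h2 := h1.card_le
  rw [Finset.card_map, hc] at h2
  exact h2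

/-- new independent coordinates increase the rank -/
theorem rk_pull_add_le {X : Set (κ → F)} {e : κ' → κ} (he : Function.Injective e) (B : Finset κ)
    (hB : ∀ b ∈ B, b ∉ Set.range e ∧ ¬ Sp X b ∧ (∀ i, ¬ Rl X b (e i)) ∧
      ∀ b' ∈ B, b ≠ b' → ¬ Rl X b b') :
    rk (pull e '' X) + B.card ≤ rk X := by
  classical
  obtain ⟨s, hs, hc⟩ := exists_fr (pull e '' X)
  have h1 : Fr X (s.map ⟨e, he⟩) := Fr.map (e := ⟨e, he⟩) hs
  have h2 : Fr X (s.map ⟨e, he⟩ ∪ B) := by
    constructor
    · intro i hi
      rcases Finset.mem_union.mp hi with hi | hi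
      · exact h1.1 i hi
      · exact (hB i hi).2.1
    · intro i hi k hk hik
      rcases Finset.mem_union.mp hi with hi' | hi'
      · rcases Finset.mem_union.mp hk with hk' | hk'
        · exact h1.2 i hi' k hk' hik
        · obtain ⟨j, _, rfl⟩ := Finset.mem_map.mp hi'
          exact fun h => (hB k hk').2.2.1 j h.symm
      · rcases Finset.mem_union.mp hk with hk' | hk'
        · obtain ⟨j, _, rfl⟩ := Finset.mem_map.mp hk'
          exact (hB i hi').2.2.1 j
        · exact (hB i hi').2.2.2 k hk' hik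
  have h3 := h2.card_le
  rw [Finset.card_union_of_disjoint, Finset.card_map, hc] at h3
  · exact h3
  · rw [Finset.disjoint_left]
    intro i hi hiB
    obtain ⟨j, _, rfl⟩ := Finset.mem_map.mp hi
    exact (hB _ hiB).1 ⟨j, rfl⟩

/-- upper bound for the rank by that of a projection -/
theorem rk_le_pull_add {X : Set (κ → F)} (hX : PIrr X) {e : κ' → κ} (he : Function.Injective e)
    (B : Finset κ)
    (hB : ∀ i, i ∉ Set.range e → i ∉ B → Sp X i ∨ (∃ b ∈ B, Rl X i b) ∨ ∃ j, Rl X i (e j)) :
    rk X ≤ rk (pull e '' X) + B.card := by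
  classical
  obtain ⟨s, hs, hc⟩ := exists_fr (pull e '' X)
  have h0 := fun j => hs.span (hX.pull e) hc.ge j
  have h1 : rk X ≤ (s.map ⟨e, he⟩ ∪ B).card := by
    have key : ∀ j, Sp X (e j) ∨ ∃ a ∈ s.map ⟨e, he⟩ ∪ B, Rl X (e j) a := by
      intro j
      rcases h0 j with h | ⟨a, ha, h⟩
      · left
        exact sp_pull.mp h
      · right
        exact ⟨e a, Finset.mem_union_left _ (Finset.mem_map_of_mem ⟨e, he⟩ ha), rl_pull.mp h⟩
    apply rk_le_of_span hX
    intro i
    by_cases hi : i ∈ Set.range e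
    · obtain ⟨j, rfl⟩ := hi
      exact key j
    · by_cases hiB : i ∈ B
      · right
        exact ⟨i, Finset.mem_union_right _ hiB, Rl.refl X i⟩
      · rcases hB i hi hiB with h | ⟨b, hb, h⟩ | ⟨j, h⟩
        · exact Or.inl h
        · exact Or.inr ⟨b, Finset.mem_union_right _ hb, h⟩
        · rcases key j with h' | ⟨a, ha, h'⟩
          · exact Or.inl (h'.of_rl hX h.symm)
          · exact Or.inr ⟨a, ha, h.trans hX h'⟩
  have h2 := Finset.card_union_le (s.map ⟨e, he⟩) B
  rw [Finset.card_map, hc] at h2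
  omega

/-- Projections do not increase the defect. -/
theorem defect_pull {X : Set (κ → F)} (hX : PIrr X) {e : κ' → κ} (he : Function.Injective e) :
    rk (pull e '' X) + td F X ≤ rk X + td F (pull e '' X) := by
  classical
  obtain ⟨s, hs, hc⟩ := exists_fr (pull e '' X)
  have h1 : Fr X (s.map ⟨e, he⟩) := Fr.map (e := ⟨e, he⟩) hs
  -- extend to a maximal free set
  obtain ⟨t, ⟨ht, hst⟩, hmax⟩ := (Set.toFinite {t : Finset κ | Fr X t ∧ s.map ⟨e, he⟩ ⊆ t}).exists_maximalFor
    (fun t => t.card) _ ⟨_, h1, le_rfl⟩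
  have hspan : ∀ i, Sp X i ∨ ∃ a ∈ (t : Set κ), Rl X i a := by
    intro i
    by_contra hcon
    push Not at hcon
    obtain ⟨h2, h3⟩ := hcon
    have hi : i ∉ t := fun hi => h3 i hi (Rl.refl X i)
    have h4 : Fr X (insert i t) := by
      constructor
      · intro k hk
        rcases Finset.mem_insert.mp hk with rfl | hk
        · exact h2
        · exact ht.1 k hk
      · intro k hk l hl hkl
        rcases Finset.mem_insert.mp hk with hk' | hk'
        · rcases Finset.mem_insert.mp hl with hl' | hl'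
          · exact absurd (hk'.trans hl'.symm) hkl
          · rw [hk']
            exact h3 l hl'
        · rcases Finset.mem_insert.mp hl with hl' | hl'
          · rw [hl']
            exact fun hr => h3 k hk' hr.symm
          · exact ht.2 k hk' l hl' hkl
    have h5 := hmax ⟨h4, hst.trans (Finset.subset_insert i t)⟩ (by
      simp only
      exact Finset.card_le_card (Finset.subset_insert i t))
    simp only at h5
    rw [Finset.card_insert_of_notMem hi] at h5
    omega
  have h2 := td_le_pull (k := F) hX he (t : Set κ) (isAlgebraic_gen_of_span hX _ hspan)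
  -- the elements of `t` outside the image
  have h3 : ((t : Set κ) \ Set.range e).ncard + s.card ≤ t.card := by
    have h4 : (t : Set κ) \ Set.range e ⊆ ((t \ s.map ⟨e, he⟩ : Finset κ) : Set κ) := by
      rintro i ⟨hi, hi'⟩
      rw [Finset.mem_coe, Finset.mem_sdiff]
      refine ⟨hi, ?_⟩
      intro h5
      obtain ⟨j, _, rfl⟩ := Finset.mem_map.mp h5
      exact hi' ⟨j, rfl⟩
    have h5 := Set.ncard_le_ncard h4 (Set.toFinite _)
    rw [Set.ncard_coe_finset, Finset.card_sdiff_of_subset hst, Finset.card_map] at h5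
    have h6 := Finset.card_le_card hst
    rw [Finset.card_map] at h6
    omega
  have h4 := ht.card_le
  omega

/-- the rank of a product -/
theorem rk_prod_le (A : Set (κ → F)) (B : Set (κ' → F)) : rk (prodSet A B) ≤ rk A + rk B := by
  classical
  obtain ⟨s, hs, hc⟩ := exists_fr (prodSet A B)
  let s1 : Finset κ := Finset.univ.filter fun i => Sum.inl i ∈ s
  let s2 : Finset κ' := Finset.univ.filter fun i => Sum.inr i ∈ s
  have h1 : Fr A s1 := by
    constructor
    · rintro i hi ⟨N, hN, h⟩
      exact hs.1 _ (Finset.mem_filter.mp hi).2 ⟨N, hN, fun x hx => h hx.1⟩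
    · rintro i hi k hk hik ⟨N, hN, h⟩
      exact hs.2 _ (Finset.mem_filter.mp hi).2 _ (Finset.mem_filter.mp hk).2 (by simpa using hik)
        ⟨N, hN, fun x hx => h hx.1⟩
  have h2 : Fr B s2 := by
    constructor
    · rintro i hi ⟨N, hN, h⟩
      exact hs.1 _ (Finset.mem_filter.mp hi).2 ⟨N, hN, fun x hx => h hx.2⟩
    · rintro i hi k hk hik ⟨N, hN, h⟩
      exact hs.2 _ (Finset.mem_filter.mp hi).2 _ (Finset.mem_filter.mp hk).2 (by simpa using hik)
        ⟨N, hN, fun x hx => h hx.2⟩
  have h3 : s ⊆ s1.map Function.Embedding.inl ∪ s2.map Function.Embedding.inr := by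
    intro i hi
    rcases i with i | i
    · apply Finset.mem_union_left
      exact Finset.mem_map_of_mem Function.Embedding.inl
        (Finset.mem_filter.mpr ⟨Finset.mem_univ i, hi⟩)
    · apply Finset.mem_union_right
      exact Finset.mem_map_of_mem Function.Embedding.inr
        (Finset.mem_filter.mpr ⟨Finset.mem_univ i, hi⟩)
  have h4 := Finset.card_le_card h3
  have h5 := Finset.card_union_le (s1.map Function.Embedding.inl) (s2.map Function.Embedding.inr)
  rw [Finset.card_map, Finset.card_map] at h5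
  have h6 := h1.card_le
  have h7 := h2.card_le
  omega

end RankTwo

end Pool.Agent.MP_dd1803_nt.Aff
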