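import Mathlib
import Pool.Agent.MP_dd1803_nt.Aff.RankTwo

open MvPolynomial

namespace Pool.Agent.MP_dd1803_nt.Aff

section Cut

variable {F : Type} [Field F] [IsAlgClosed F] [CharZero F] [SpStr F] {κ : Type} [Fintype κ]

open SpStr

omit [IsAlgClosed F] [CharZero F] [SpStr F] [Fintype κ] in
theorem zclosed_coord (i : κ) (a : F) : ZClosed {x : κ → F | x i = a} := by
  have h : {x : κ → F | x i = a} = zp (MvPolynomial.X i - C a) := by
    ext x
    rw [mem_zp, map_sub, aeval_X, aeval_C, co_apply, sub_eq_zero]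
    simp
  rw [h]
  exact zclosed_zp _

/-- Cutting with one of the relations does not increase the defect. -/
theorem cut_rel {Z Y : Set (κ → F)} (hZ : Irr Z) {N : ℕ} (hN : 0 < N) (i k : κ)
    (hY : Comp (Z ∩ RS N i k) Y) : rk Y + td F Z ≤ rk Z + td F Y := by
  by_cases hsub : Z ⊆ RS N i k
  · rw [Set.inter_eq_left.mpr hsub] at hY
    have := hY.eq_of_subset hZ le_rfl hY.subset
    rw [this]
  · have hYZ : Y ⊆ Z := hY.subset.trans Set.inter_subset_left
    have hYR : Y ⊆ RS N i k := hY.subset.trans Set.inter_subset_right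
    have hYp := hY.irr.pirr
    obtain ⟨P, hP⟩ := RS_eq_zp (F := F) hN i k
    have h1 : td F Z ≤ td F Y + 1 := by
      rw [hP] at hY
      exact krull hZ P hY
    have h2 : rk Y + 1 ≤ rk Z := by
      by_contra hcon
      obtain ⟨s, hs, hc⟩ := exists_fr Y
      have hsp := fun j => (hs.mono hYZ).span hZ.pirr (by omega) j
      have hr : Rl Y i k := ⟨N, hN, hYR⟩
      rcases hsp i with hi | ⟨a, ha, hi⟩
      · rcases hsp k with hk | ⟨b, hb, hk⟩
        · obtain ⟨a, _, ha'⟩ := hi.const hZ.pirr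
          obtain ⟨b, _, hb'⟩ := hk.const hZ.pirr
          apply hsub
          intro x hx
          obtain ⟨y, hy⟩ := hYp.nonempty
          have h3 := hYR hy
          rw [mem_RS, ha' y (hYZ hy), hb' y (hYZ hy)] at h3
          rw [mem_RS, ha' x hx, hb' x hx]
          exact h3
        · exact hs.1 b hb (((hi.anti hYZ).of_rl hYp hr).of_rl hYp (hk.anti hYZ))
      · rcases hsp k with hk | ⟨b, hb, hk⟩
        · exact hs.1 a ha (((hk.anti hYZ).of_rl hYp hr.symm).of_rl hYp (hi.anti hYZ))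
        · have hab : a = b := by
            by_contra hne
            exact hs.2 a ha b hb hne
              ((((hi.anti hYZ).symm).trans hYp hr).trans hYp (hk.anti hYZ))
          subst hab
          obtain ⟨M, hM, hZM⟩ := hi.trans hZ.pirr hk.symm
          have hNM : N ≠ M := by
            rintro rfl
            exact hsub hZM
          obtain ⟨L, hL, H⟩ := cm (F := F) N M hN hM hNM
          classical
          obtain ⟨W, hW, hYW⟩ := hYp.subset_of_finset (L.image fun n => (RS n i i : Set (κ → F)))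
            (by
            intro W hW
            obtain ⟨n, hn, rfl⟩ := Finset.mem_image.mp hW
            exact zclosed_RS (by have := hL n hn; omega) i i) (by
            intro x hx
            obtain ⟨n, hn, hr⟩ := H _ _ (hYR hx) (hZM (hYZ hx))
            exact Set.mem_biUnion (Finset.mem_image_of_mem _ hn) hr)
          obtain ⟨n, hn, rfl⟩ := Finset.mem_image.mp hW
          have h4 : Sp Y i := ⟨n, hL n hn, hYW⟩
          exact hs.1 a ha (h4.of_rl hYp (hi.anti hYZ))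
    omega

theorem cut_const {Z Y : Set (κ → F)} (hZ : Irr Z) (i : κ) {a : F}
    (ha : ∃ M, 1 < M ∧ rel M a a)
    (hY : Comp (Z ∩ {x | x i = a}) Y) : rk Y + td F Z ≤ rk Z + td F Y := by
  by_cases hsub : Z ⊆ {x | x i = a}
  · rw [Set.inter_eq_left.mpr hsub] at hY
    have := hY.eq_of_subset hZ le_rfl hY.subset
    rw [this]
  · have hYZ : Y ⊆ Z := hY.subset.trans Set.inter_subset_left
    have hYR : Y ⊆ {x | x i = a} := hY.subset.trans Set.inter_subset_right
    have hYp := hY.irr.pirr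
    have h1 : td F Z ≤ td F Y + 1 := by
      have h : {x : κ → F | x i = a} = zp (MvPolynomial.X i - C a) := by
        ext x
        rw [mem_zp, map_sub, aeval_X, aeval_C, co_apply, sub_eq_zero]
        simp
      rw [h] at hY
      exact krull hZ _ hY
    have h2 : rk Y + 1 ≤ rk Z := by
      by_contra hcon
      obtain ⟨s, hs, hc⟩ := exists_fr Y
      have hsp := fun j => (hs.mono hYZ).span hZ.pirr (by omega) j
      rcases hsp i with hi | ⟨b, hb, hi⟩
      · obtain ⟨b, _, hb'⟩ := hi.const hZ.pirr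
        apply hsub
        intro x hx
        obtain ⟨y, hy⟩ := hYp.nonempty
        have h3 := hYR hy
        rw [Set.mem_ofPred_eq] at h3 ⊢
        rw [hb' x hx, ← hb' y (hYZ hy), h3]
      · exact hs.1 b hb ((sp_of_const ha (fun y hy => hYR hy)).of_rl hYp (hi.anti hYZ))
    omega

/-- The closed sets used for cutting. -/
def Gs (F : Type) [Field F] [CharZero F] [SpStr F] (κ : Type) : Set (Set (κ → F)) :=
  {G | (∃ N i k, 0 < N ∧ G = RS N i k) ∨
    ∃ i a, (∃ M, 1 < M ∧ rel (F := F) M a a) ∧ G = {x | x i = a}}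

omit [IsAlgClosed F] [Fintype κ] in
theorem zclosed_Gs {G : Set (κ → F)} (h : G ∈ Gs F κ) : ZClosed G := by
  rcases h with ⟨N, i, k, hN, rfl⟩ | ⟨i, a, _, rfl⟩
  · exact zclosed_RS hN i k
  · exact zclosed_coord i a

theorem cut_Gs {Z Y G : Set (κ → F)} (hZ : Irr Z) (hG : G ∈ Gs F κ) (hY : Comp (Z ∩ G) Y) :
    rk Y + td F Z ≤ rk Z + td F Y := by
  rcases hG with ⟨N, i, k, hN, rfl⟩ | ⟨i, a, ha, rfl⟩
  · exact cut_rel hZ hN i k hY
  · exact cut_const hZ i ha hY

theorem cut_finset (S : Finset (Set (κ → F))) (hS : ∀ G ∈ S, G ∈ Gs F κ) :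
    ∀ {Z Y : Set (κ → F)}, Irr Z → Comp (Z ∩ ⋂ G ∈ S, G) Y → rk Y + td F Z ≤ rk Z + td F Y := by
  classical
  induction S using Finset.induction_on with
  | empty =>
    intro Z Y hZ h
    simp only [Finset.notMem_empty, Set.iInter_of_empty, Set.iInter_univ, Set.inter_univ] at h
    have := h.eq_of_subset hZ le_rfl h.subset
    rw [this]
  | insert G S _ ih =>
    intro Z Y hZ h
    rw [Finset.set_biInter_insert, ← Set.inter_assoc] at h
    obtain ⟨Z1, h1, h2⟩ := Comp.split hZ.closed (zclosed_Gs (hS G (Finset.mem_insert_self _ _))) h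
    have h3 := ih (fun G hG => hS G (Finset.mem_insert_of_mem hG)) h1.irr h2
    have h4 := cut_Gs hZ (hS G (Finset.mem_insert_self _ _)) h1
    omega

end Cut

section Max

variable {F : Type} [Field F] [IsAlgClosed F] [CharZero F] [SpStr F] {κ κ' : Type} [Fintype κ]
  [Fintype κ']

/-- The maximal irreducible closed subsets of `V` of defect less than `e`. -/
def MaxE (e : ℕ) (V : Set (κ → F)) : Set (Set (κ → F)) :=
  {X | Maximal (fun X => Irr X ∧ X ⊆ V ∧ rk X < td F X + e) X}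

omit [IsAlgClosed F] [Fintype κ] in
theorem mem_maxE {e : ℕ} {V X : Set (κ → F)} :
    X ∈ MaxE e V ↔ Maximal (fun X => Irr X ∧ X ⊆ V ∧ rk X < td F X + e) X := by
  unfold MaxE
  rw [Set.mem_ofPred_eq]

omit [CharZero F] [SpStr F] in
/-- General existence of maximal elements among irreducible closed sets. -/
theorem exists_max_irr {P : Set (κ → F) → Prop} (hP : ∀ X, P X → Irr X) {X : Set (κ → F)}
    (hX : P X) : ∃ Y, Maximal P Y ∧ X ⊆ Y := by
  classical
  have h1 : ∃ n : ℕ, ∃ Y, P Y ∧ X ⊆ Y ∧ Nat.card κ - td F Y = n := ⟨_, X, hX, le_rfl, rfl⟩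
  obtain ⟨Y, hY, hXY, hn⟩ := Nat.find_spec h1
  refine ⟨Y, ⟨hY, ?_⟩, hXY⟩
  intro Z hZ hYZ
  have h2 : td F Z ≤ td F Y := by
    by_contra hcon
    push Not at hcon
    have h3 := td_le_card (k := F) (hP Z hZ).pirr
    have h4 := Nat.find_min' h1 ⟨Z, hZ, hXY.trans hYZ, rfl⟩
    rw [← hn] at h4
    omega
  exact (eq_of_td_le (hP Y hY) (hP Z hZ) hYZ h2).ge

theorem exists_maxE {e : ℕ} {V X : Set (κ → F)} (hX : Irr X) (hXV : X ⊆ V)
    (hd : rk X < td F X + e) : ∃ Y ∈ MaxE e V, X ⊆ Y := by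
  obtain ⟨Y, hY, hXY⟩ := exists_max_irr (P := fun X => Irr X ∧ X ⊆ V ∧ rk X < td F X + e)
    (fun X hX => hX.1) ⟨hX, hXV, hd⟩
  exact ⟨Y, mem_maxE.mpr hY, hXY⟩

omit [IsAlgClosed F] [Fintype κ] in
theorem MaxE.irr {e : ℕ} {V X : Set (κ → F)} (h : X ∈ MaxE e V) : Irr X := (mem_maxE.mp h).prop.1

omit [IsAlgClosed F] [Fintype κ] in
theorem MaxE.subset {e : ℕ} {V X : Set (κ → F)} (h : X ∈ MaxE e V) : X ⊆ V :=
  (mem_maxE.mp h).prop.2.1

omit [IsAlgClosed F] [Fintype κ] in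
theorem MaxE.lt {e : ℕ} {V X : Set (κ → F)} (h : X ∈ MaxE e V) :
    rk X < td F X + e := (mem_maxE.mp h).prop.2.2

omit [IsAlgClosed F] [Fintype κ] in
theorem MaxE.eq {e : ℕ} {V X Y : Set (κ → F)} (h : X ∈ MaxE e V) (hY : Irr Y) (hYV : Y ⊆ V)
    (hd : rk Y < td F Y + e) (hXY : X ⊆ Y) : X = Y :=
  Maximal.eq_of_subset (mem_maxE.mp h) ⟨hY, hYV, hd⟩ hXY

omit [IsAlgClosed F] [Fintype κ] in
theorem MaxE.of_subset {e : ℕ} {V W X : Set (κ → F)} (h : X ∈ MaxE e V) (hXW : X ⊆ W)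
    (hWV : W ⊆ V) : X ∈ MaxE e W := by
  rw [mem_maxE]
  refine ⟨⟨MaxE.irr h, hXW, MaxE.lt h⟩, ?_⟩
  rintro Y ⟨hY, hYW, hd⟩ hXY
  exact (MaxE.eq h hY (hYW.trans hWV) hd hXY).ge

/-- The elements of `MaxE e V` which are not contained in any of the sets in `C`. -/
def MaxF (C : Set (Set (κ → F))) (e : ℕ) (V : Set (κ → F)) : Set (Set (κ → F)) :=
  {X | X ∈ MaxE e V ∧ ∀ c ∈ C, ¬ X ⊆ c}

omit [IsAlgClosed F] [Fintype κ] in
theorem mem_maxF {C : Set (Set (κ → F))} {e : ℕ} {V X : Set (κ → F)} :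
    X ∈ MaxF C e V ↔ X ∈ MaxE e V ∧ ∀ c ∈ C, ¬ X ⊆ c := by
  unfold MaxF
  rw [Set.mem_ofPred_eq]

/-- Intersection with special sets. -/
theorem finite_maxE_inter {e : ℕ} {V : Set (κ → F)} (S : Finset (Set (κ → F)))
    (hS : ∀ G ∈ S, G ∈ Gs F κ) (hfin : (MaxE e V).Finite) :
    (MaxE e (V ∩ ⋂ G ∈ S, G)).Finite := by
  have hcl : ZClosed (⋂ G ∈ S, G) :=
    ZClosed.iInter fun G => ZClosed.iInter fun hG => zclosed_Gs (hS G hG)
  have h1 : (⋃ Z ∈ MaxE e V, {Y | Comp (Z ∩ ⋂ G ∈ S, G) Y}).Finite := by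
    apply hfin.biUnion
    intro Z hZ
    exact finite_comp ((MaxE.irr hZ).closed.inter hcl)
  apply h1.subset
  intro X hX
  have hXV := MaxE.subset hX
  obtain ⟨Z, hZ, hXZ⟩ := exists_maxE (MaxE.irr hX) (hXV.trans Set.inter_subset_left) (MaxE.lt hX)
  obtain ⟨Y, hY, hXY⟩ := exists_comp ((MaxE.irr hZ).closed.inter hcl) (MaxE.irr hX)
    (Set.subset_inter hXZ (hXV.trans Set.inter_subset_right))
  have h2 := cut_finset S hS (MaxE.irr hZ) hY
  have h3 := MaxE.lt hZ
  have h4 : X = Y := by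
    apply MaxE.eq hX hY.irr
    · exact hY.subset.trans (Set.inter_subset_inter_left _ (MaxE.subset hZ))
    · omega
    · exact hXY
  rw [Set.mem_iUnion₂]
  exact ⟨Z, hZ, h4 ▸ hY⟩

/-- The abstract extension lemma. -/
theorem finite_maxF_of_ext {e e' D : ℕ} {V : Set (κ → F)} (hV : ZClosed V) {V' : Set (κ' → F)}
    {C : Set (Set (κ → F))} {C' : Set (Set (κ' → F))}
    (j : κ → κ') (hj : Function.Injective j) (B : Finset κ') (he : e' + D = e + B.card)
    (hfin : (MaxF C' e' V').Finite)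
    (H : ∀ X ∈ MaxF C e V, ∃ X' : Set (κ' → F), Irr X' ∧ X' ⊆ V' ∧ X ⊆ cl F (pull j '' X') ∧
      rk X' ≤ rk X + B.card ∧ td F X + D ≤ td F X' ∧ (∀ c ∈ C', ¬ X' ⊆ c) ∧
      (∀ b ∈ B, b ∉ Set.range j ∧ ¬ Sp X' b ∧ (∀ i, ¬ Rl X' b (j i)) ∧
        ∀ b' ∈ B, b ≠ b' → ¬ Rl X' b b') ∧
      ∀ Y : Set (κ' → F), Irr Y → Y ⊆ V' → X' ⊆ Y → rk Y < td F Y + e' →
        pull j '' Y ⊆ V ∧ td F Y ≤ td F (pull j '' Y) + D) :
    (MaxF C e V).Finite := by
  apply (hfin.image fun Y => cl F (pull j '' Y)).subset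
  intro X hX
  obtain ⟨X', h1, h2, h3, h4, h5, h6, h6', h7⟩ := H X hX
  have hXE := (mem_maxF.mp hX).1
  have h8 := MaxE.lt hXE
  obtain ⟨Y, hY, hXY⟩ := exists_maxE (e := e') h1 h2 (by omega)
  obtain ⟨h9, h10⟩ := h7 Y (MaxE.irr hY) (MaxE.subset hY) hXY (MaxE.lt hY)
  refine ⟨Y, mem_maxF.mpr ⟨hY, fun c hc hYc => h6 c hc (hXY.trans hYc)⟩, ?_⟩
  symm
  apply MaxE.eq hXE ((MaxE.irr hY).pirr.pull j).cl (cl_subset h9 hV)
  · have h11 : rk (pull j '' Y) + B.card ≤ rk Y := by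
      apply rk_pull_add_le hj
      intro b hb
      obtain ⟨h12, h13, h14, h15⟩ := h6' b hb
      exact ⟨h12, fun h => h13 (h.anti hXY), fun i h => h14 i (h.anti hXY),
        fun b' hb' hne h => h15 b' hb' hne (h.anti hXY)⟩
    have h12 := MaxE.lt hY
    rw [rk_cl, td_cl]
    omega
  · exact h3.trans (cl_mono (Set.image_mono hXY))

end Max

end Pool.Agent.MP_dd1803_nt.Aff
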