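import Mathlib
import Pool.Agent.MP_dd1803_nt.Aff.Cut

open MvPolynomial

namespace Pool.Agent.MP_dd1803_nt.Aff

section Tools

variable {F : Type} [Field F] {κ κ' : Type}

theorem co_eq (x : κ → F) : co x = x := rfl

theorem td_pull_le {k : Type} [Field k] [Algebra k F] [Finite κ] [Finite κ'] {X : Set (κ → F)}
    (hX : PIrr X) (e : κ' → κ) : td k (pull e '' X) ≤ td k X := by
  obtain ⟨s, hs, hc⟩ := exists_basis' (k := k) (hX.pull e)
  rw [← hc]
  rw [ind_iff_indF] at hs
  have h1 : IndF k X (fun i : s => e i) := by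
    intro p hp
    apply hs
    rintro _ ⟨x, hx, rfl⟩
    exact hp x hx
  have h2 := h1.card_le hX
  rwa [Nat.card_coe_set_eq] at h2

theorem gen_mem_of_poly {Y : Set (κ → F)} {i : κ} {s0 : Set κ} {ι : Type} (f : ι → κ)
    (hf : ∀ v, f v ∈ s0) (q : MvPolynomial ι F)
    (h : ∀ y ∈ Y, y i = aeval (fun v => y (f v)) q) :
    gen F Y i ∈ Algebra.adjoin F (gen F Y '' s0) := by
  have h1 : gen F Y i = aeval (fun v => gen F Y (f v)) q := by
    have h2 : (MvPolynomial.X i - rename f q : MvPolynomial κ F) ∈ vI F Y := by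
      rw [mem_vI]
      intro y hy
      rw [map_sub, aeval_X, aeval_rename, sub_eq_zero]
      exact h y hy
    have h3 := Ideal.Quotient.eq_zero_iff_mem.mpr h2
    rw [map_sub, sub_eq_zero] at h3
    have h4 : Ideal.Quotient.mk (vI F Y) (rename f q) = aeval (fun v => gen F Y (f v)) q := by
      clear h h2 h3
      induction q using MvPolynomial.induction_on with
      | C c =>
        rw [aeval_C, rename_C]
        rfl
      | add p q hp hq => simp only [map_add, hp, hq]
      | mul_X p l hp =>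
        simp only [map_mul, hp, aeval_X, rename_X]
        rfl
    rw [← h4]
    exact h3
  rw [h1]
  clear h h1
  induction q using MvPolynomial.induction_on with
  | C c =>
    rw [aeval_C]
    exact Subalgebra.algebraMap_mem _ c
  | add p q hp hq =>
    rw [map_add]
    exact Subalgebra.add_mem _ hp hq
  | mul_X p l hp =>
    rw [map_mul, aeval_X]
    exact Subalgebra.mul_mem _ hp (Algebra.subset_adjoin ⟨f l, hf l, rfl⟩)

theorem isAlgebraic_of_mem_adjoin {Y : Set (κ → F)} (hY : PIrr Y) {i : κ} {s0 : Set κ}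
    (h : gen F Y i ∈ Algebra.adjoin F (gen F Y '' s0)) :
    IsAlgebraic (Algebra.adjoin F (gen F Y '' s0)) (gen F Y i) := by
  have hP := vI_isPrime (k := F) hY
  have hne : Nontrivial (MvPolynomial κ F ⧸ vI F Y) := inferInstance
  exact isAlgebraic_algebraMap (⟨_, h⟩ : Algebra.adjoin F (gen F Y '' s0))

theorem td_univ [IsAlgClosed F] [Fintype κ] : td F (Set.univ : Set (κ → F)) = Fintype.card κ := by
  have hX : Irr (Set.univ : Set (κ → F)) := irr_univ
  apply le_antisymm
  · rw [← Nat.card_eq_fintype_card]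
    exact td_le_card hX.pirr
  · have h1 : Ind F (Set.univ : Set (κ → F)) Set.univ := by
      intro p hp
      have h2 : rename Subtype.val p ∈ vI F (Set.univ : Set (κ → F)) := by
        rw [mem_vI]
        intro x hx
        rw [aeval_rename]
        exact hp x hx
      rw [vI_univ] at h2
      exact rename_injective _ Subtype.val_injective (by rw [map_zero]; exact h2)
    have h2 := h1.ncard_le hX.pirr
    rwa [Set.ncard_univ, Nat.card_eq_fintype_card] at h2

end Tools

section Graph

variable {F : Type} [Field F] {κ P M : Type}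

/-- The coordinate functions of a graph. -/
noncomputable def fn (φ : M → MvPolynomial (κ ⊕ P) F) : κ ⊕ (P ⊕ M) → MvPolynomial (κ ⊕ P) F :=
  Sum.elim (fun i => MvPolynomial.X (Sum.inl i))
    (Sum.elim (fun q => MvPolynomial.X (Sum.inr q)) φ)

/-- The graph over `V` with free parameters `P` and dependent coordinates `M`. -/
def graphSet (φ : M → MvPolynomial (κ ⊕ P) F) (V : Set (κ → F)) : Set (κ ⊕ (P ⊕ M) → F) :=
  {z | z ∘ Sum.inl ∈ V ∧ ∀ b, z (Sum.inr (Sum.inr b)) =
    aeval (Sum.elim (z ∘ Sum.inl) (z ∘ Sum.inr ∘ Sum.inl)) (φ b)}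

/-- The graph map. -/
noncomputable def gmap (φ : M → MvPolynomial (κ ⊕ P) F) (z : κ ⊕ P → F) : κ ⊕ (P ⊕ M) → F :=
  fun i => aeval z (fn φ i)

theorem gmap_inl (φ : M → MvPolynomial (κ ⊕ P) F) (z : κ ⊕ P → F) (i : κ) :
    gmap φ z (Sum.inl i) = z (Sum.inl i) := by
  simp [gmap, fn]

theorem gmap_par (φ : M → MvPolynomial (κ ⊕ P) F) (z : κ ⊕ P → F) (q : P) :
    gmap φ z (Sum.inr (Sum.inl q)) = z (Sum.inr q) := by
  simp [gmap, fn]

theorem gmap_nod (φ : M → MvPolynomial (κ ⊕ P) F) (z : κ ⊕ P → F) (b : M) :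
    gmap φ z (Sum.inr (Sum.inr b)) = aeval z (φ b) := by
  simp [gmap, fn]

theorem graphSet_eq (φ : M → MvPolynomial (κ ⊕ P) F) (V : Set (κ → F)) :
    graphSet φ V = gmap φ '' (prodSet V Set.univ) := by
  ext z
  constructor
  · rintro ⟨h1, h2⟩
    refine ⟨Sum.elim (z ∘ Sum.inl) (z ∘ Sum.inr ∘ Sum.inl), elim_mem_prodSet.mpr ⟨h1, trivial⟩, ?_⟩
    funext i
    rcases i with i | i | i
    · rw [gmap_inl]; rfl
    · rw [gmap_par]; rfl
    · rw [gmap_nod, h2]
  · rintro ⟨y, hy, rfl⟩
    refine ⟨?_, ?_⟩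
    · have : gmap φ y ∘ Sum.inl = y ∘ Sum.inl := by
        funext i
        exact gmap_inl φ y i
      rw [this]
      exact hy.1
    · intro b
      rw [gmap_nod]
      have : Sum.elim (gmap φ y ∘ Sum.inl) (gmap φ y ∘ Sum.inr ∘ Sum.inl) = y := by
        funext i
        rcases i with i | i
        · exact gmap_inl φ y i
        · exact gmap_par φ y i
      rw [this]

theorem ratMap_gmap (φ : M → MvPolynomial (κ ⊕ P) F) (S : Set (κ ⊕ P → F)) :
    RatMap S (gmap φ) := fun i => ratOn_poly S (fn φ i)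

theorem zclosed_graphSet (φ : M → MvPolynomial (κ ⊕ P) F) {V : Set (κ → F)} (hV : ZClosed V) :
    ZClosed (graphSet φ V) := by
  have h : graphSet φ V = (pull (Sum.inl : κ → κ ⊕ (P ⊕ M))) ⁻¹' V ∩
      ⋂ b : M, zp (MvPolynomial.X (Sum.inr (Sum.inr b)) -
        rename (Sum.elim Sum.inl (Sum.inr ∘ Sum.inl)) (φ b)) := by
    ext z
    rw [Set.mem_inter_iff, Set.mem_iInter]
    apply and_congr Iff.rfl
    apply forall_congr'
    intro b
    rw [mem_zp, map_sub, aeval_X, aeval_rename, sub_eq_zero]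
    have : co z ∘ (Sum.elim Sum.inl (Sum.inr ∘ Sum.inl) : κ ⊕ P → κ ⊕ (P ⊕ M)) =
        Sum.elim (z ∘ Sum.inl) (z ∘ Sum.inr ∘ Sum.inl) := by
      funext i
      rcases i with i | i <;> rfl
    rw [this]
    rfl
  rw [h]
  exact ((ratMap_pull Set.univ _).preimage_closed hV).inter
    (ZClosed.iInter fun b => zclosed_zp _)

theorem pull_graphSet (φ : M → MvPolynomial (κ ⊕ P) F) (V : Set (κ → F)) :
    pull (Sum.elim Sum.inl (Sum.inr ∘ Sum.inl) : κ ⊕ P → κ ⊕ (P ⊕ M)) '' graphSet φ V =
      prodSet V Set.univ := by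
  rw [graphSet_eq, Set.image_image]
  have : ∀ z : κ ⊕ P → F, pull (Sum.elim Sum.inl (Sum.inr ∘ Sum.inl) : κ ⊕ P → κ ⊕ (P ⊕ M))
      (gmap φ z) = z := by
    intro z
    funext i
    rcases i with i | i
    · exact gmap_inl φ z i
    · exact gmap_par φ z i
  simp only [this, Set.image_id']

theorem pull_inl_graphSet (φ : M → MvPolynomial (κ ⊕ P) F) (V : Set (κ → F)) :
    pull (Sum.inl : κ → κ ⊕ (P ⊕ M)) '' graphSet φ V = V := by
  ext x
  constructor
  · rintro ⟨z, hz, rfl⟩
    exact hz.1
  · intro hx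
    refine ⟨gmap φ (Sum.elim x 0), ?_, ?_⟩
    · rw [graphSet_eq]
      exact ⟨_, elim_mem_prodSet.mpr ⟨hx, trivial⟩, rfl⟩
    · funext i
      exact gmap_inl φ _ i

theorem irr_graphSet [IsAlgClosed F] [Finite P] (φ : M → MvPolynomial (κ ⊕ P) F) {X : Set (κ → F)}
    (hX : Irr X) : Irr (graphSet φ X) := by
  refine ⟨zclosed_graphSet φ hX.closed, ?_⟩
  rw [graphSet_eq]
  exact (hX.pirr.prodSet irr_univ.pirr).image (ratMap_gmap φ _)

end Graph

section Rel

variable {F : Type} [Field F] [IsAlgClosed F] [CharZero F] [SpStr F] {κ P M : Type}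
  [DecidableEq (κ ⊕ P)]

open SpStr

/-- A coordinate with a unit slope in some parameter is related to another one only if they
coincide. -/
theorem eq_of_rl_graph (φ : M → MvPolynomial (κ ⊕ P) F) {X : Set (κ → F)} (β j : κ ⊕ (P ⊕ M))
    (q : P) (hq : ∀ (z : κ ⊕ P → F) (s : F),
      aeval (Function.update z (Sum.inr q) (z (Sum.inr q) + s)) (fn φ β) = aeval z (fn φ β) + s)
    (h : Rl (graphSet φ X) β j) :
    ∀ z ∈ prodSet X (Set.univ : Set (P → F)), aeval z (fn φ β) = aeval z (fn φ j) := by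
  obtain ⟨N, hN, h⟩ := h
  intro z hz
  let c := aeval z (fn φ β)
  -- the value of coordinate `j` as a polynomial in the value `u` of coordinate `β`
  let p : Polynomial F := aeval (fun v => if v = Sum.inr q then
    Polynomial.X - Polynomial.C (c - z (Sum.inr q)) else Polynomial.C (z v)) (fn φ j)
  have hp : ∀ u : F, p.eval u =
      aeval (Function.update z (Sum.inr q) (z (Sum.inr q) + (u - c))) (fn φ j) := by
    intro u
    have h1 : (Polynomial.aeval u : Polynomial F →ₐ[F] F).comp
        (aeval (fun v => if v = Sum.inr q then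
          Polynomial.X - Polynomial.C (c - z (Sum.inr q)) else Polynomial.C (z v))) =
        (aeval (Function.update z (Sum.inr q) (z (Sum.inr q) + (u - c))) :
          MvPolynomial (κ ⊕ P) F →ₐ[F] F) := by
      apply MvPolynomial.algHom_ext
      intro v
      by_cases hv : v = Sum.inr q
      · subst hv
        simp
        ring
      · simp [hv]
    have h2 := DFunLike.congr_fun h1 (fn φ j)
    rw [← h2]
    simp only [AlgHom.comp_apply, Polynomial.coe_aeval_eq_eval]
    rfl
  have hrel : ∀ u, rel N u (p.eval u) := by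
    intro u
    rw [hp]
    have h1 : gmap φ (Function.update z (Sum.inr q) (z (Sum.inr q) + (u - c))) ∈ graphSet φ X := by
      rw [graphSet_eq]
      refine ⟨_, ⟨?_, trivial⟩, rfl⟩
      have : Function.update z (Sum.inr q) (z (Sum.inr q) + (u - c)) ∘ Sum.inl = z ∘ Sum.inl := by
        funext i
        simp
      rw [this]
      exact hz.1
    have h2 := h h1
    rw [mem_RS] at h2
    have h3 : gmap φ (Function.update z (Sum.inr q) (z (Sum.inr q) + (u - c))) β = u := by
      change aeval _ (fn φ β) = u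
      rw [hq]
      simp [c]
    rw [h3] at h2
    exact h2
  have h1 := SpStr.graph N hN p hrel
  subst h1
  have h2 := (one (F := F) _ _).mp (hrel c)
  rw [hp] at h2
  simp only [sub_self, add_zero, Function.update_eq_self] at h2
  exact h2

theorem not_sp_graph (φ : M → MvPolynomial (κ ⊕ P) F) {X : Set (κ → F)} (hX : X.Nonempty)
    (β : κ ⊕ (P ⊕ M))
    (q : P) (hq : ∀ (z : κ ⊕ P → F) (s : F),
      aeval (Function.update z (Sum.inr q) (z (Sum.inr q) + s)) (fn φ β) = aeval z (fn φ β) + s) :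
    ¬ Sp (graphSet φ X) β := by
  rintro ⟨N, hN, h⟩
  obtain ⟨x, hx⟩ := hX
  have hfin := fin_diag (F := F) N hN
  have h1 : {x : F | rel N x x} = Set.univ := by
    ext u
    simp only [Set.mem_ofPred_eq, Set.mem_univ, iff_true]
    let z : κ ⊕ P → F := Sum.elim x 0
    have h2 : gmap φ (Function.update z (Sum.inr q) (z (Sum.inr q) + (u - aeval z (fn φ β)))) ∈
        graphSet φ X := by
      rw [graphSet_eq]
      refine ⟨_, ⟨?_, trivial⟩, rfl⟩
      have : Function.update z (Sum.inr q) (z (Sum.inr q) + (u - aeval z (fn φ β))) ∘ Sum.inl =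
          x := by
        funext i
        simp [z]
      rw [this]
      exact hx
    have h3 := h h2
    rw [mem_RS] at h3
    have h4 : gmap φ (Function.update z (Sum.inr q) (z (Sum.inr q) + (u - aeval z (fn φ β)))) β
        = u := by
      change aeval _ (fn φ β) = u
      rw [hq]
      simp
    rwa [h4] at h3
  rw [h1] at hfin
  exact Set.infinite_univ hfin

variable [Fintype κ] [Fintype P] [Fintype M]

/-- The graph lemma. -/
theorem finite_maxF_graph {e : ℕ} {V : Set (κ → F)} (hV : ZClosed V) {C : Set (Set (κ → F))}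
    {C' : Set (Set (κ ⊕ (P ⊕ M) → F))} (φ : M → MvPolynomial (κ ⊕ P) F) (lam : M → P)
    (hlam : ∀ b (z : κ ⊕ P → F) (s : F),
      aeval (Function.update z (Sum.inr (lam b)) (z (Sum.inr (lam b)) + s)) (φ b) =
        aeval z (φ b) + s)
    (hne : ∀ X ∈ MaxF C e V, ∀ β β' : P ⊕ M, β ≠ β' →
      ∃ z ∈ prodSet X (Set.univ : Set (P → F)),
        aeval z (fn φ (Sum.inr β)) ≠ aeval z (fn φ (Sum.inr β')))
    (hC' : ∀ X ∈ MaxF C e V, ∀ c ∈ C', ¬ graphSet φ X ⊆ c)
    (hfin : (MaxF C' (e + Fintype.card M) (graphSet φ V)).Finite) : (MaxF C e V).Finite := by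
  classical
  have hslope : ∀ β : P ⊕ M, ∃ q : P, ∀ (z : κ ⊕ P → F) (s : F),
      aeval (Function.update z (Sum.inr q) (z (Sum.inr q) + s)) (fn φ (Sum.inr β)) =
        aeval z (fn φ (Sum.inr β)) + s := by
    rintro (q | b)
    · refine ⟨q, fun z s => ?_⟩
      simp [fn]
    · exact ⟨lam b, fun z s => hlam b z s⟩
  refine finite_maxF_of_ext hV (V' := graphSet φ V) (e' := e + Fintype.card M)
    (D := Fintype.card P) (Sum.inl : κ → κ ⊕ (P ⊕ M)) Sum.inl_injective
    (Finset.univ.map Function.Embedding.inr) ?_ hfin ?_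
  · rw [Finset.card_map, Finset.card_univ, Fintype.card_sum]
    omega
  · intro X hX
    have hXE := (mem_maxF.mp hX).1
    have hXi := MaxE.irr hXE
    have hG := irr_graphSet φ hXi
    refine ⟨graphSet φ X, hG, ?_, ?_, ?_, ?_, hC' X hX, ?_, ?_⟩
    · rintro z ⟨h1, h2⟩
      exact ⟨MaxE.subset hXE h1, h2⟩
    · rw [pull_inl_graphSet]
      exact subset_cl X
    · have h1 := rk_le_pull_add hG.pirr (e := (Sum.inl : κ → κ ⊕ (P ⊕ M))) Sum.inl_injective
        (Finset.univ.map Function.Embedding.inr) (by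
        intro i hi hiB
        rcases i with i | i
        · exact absurd ⟨i, rfl⟩ hi
        · exact absurd (Finset.mem_map_of_mem Function.Embedding.inr (Finset.mem_univ i)) hiB)
      rwa [pull_inl_graphSet] at h1
    · have h1 := td_prod_ge (k := F) hXi.pirr (irr_univ : Irr (Set.univ : Set (P → F))).pirr
      rw [td_univ] at h1
      have h2 := td_pull_le (k := F) hG.pirr
        (Sum.elim Sum.inl (Sum.inr ∘ Sum.inl) : κ ⊕ P → κ ⊕ (P ⊕ M))
      rw [pull_graphSet] at h2
      omega
    · intro b hb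
      obtain ⟨β, _, rfl⟩ := Finset.mem_map.mp hb
      obtain ⟨q, hq⟩ := hslope β
      refine ⟨?_, ?_, ?_, ?_⟩
      · rintro ⟨i, hi⟩
        simp at hi
      · exact not_sp_graph φ hXi.nonempty (Sum.inr β) q hq
      · intro i hr
        have h1 := eq_of_rl_graph φ (Sum.inr β) (Sum.inl i) q hq hr
        obtain ⟨x, hx⟩ := hXi.nonempty
        have h2 := h1 (Sum.elim x 0) (elim_mem_prodSet.mpr ⟨hx, trivial⟩)
        have h3 := h1 (Function.update (Sum.elim x 0) (Sum.inr q)
          ((Sum.elim x (0 : P → F)) (Sum.inr q) + 1)) (by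
          refine ⟨?_, trivial⟩
          have : Function.update (Sum.elim x (0 : P → F)) (Sum.inr q)
              ((Sum.elim x (0 : P → F)) (Sum.inr q) + 1) ∘ Sum.inl = x := by
            funext i
            rw [Function.comp_apply, Function.update_of_ne (by simp)]
            rfl
          rw [this]
          exact hx)
        rw [hq] at h3
        have h4 : ∀ z : κ ⊕ P → F, aeval z (fn φ (Sum.inl i)) = z (Sum.inl i) := by
          intro z
          simp [fn]
        rw [h4] at h2 h3
        rw [Function.update_of_ne (by simp), ← h2] at h3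
        simp at h3
      · intro b' hb' hbb hr
        obtain ⟨β', _, rfl⟩ := Finset.mem_map.mp hb'
        have h1 := eq_of_rl_graph φ (Sum.inr β) (Sum.inr β') q hq hr
        obtain ⟨z, hz, hz'⟩ := hne X hX β β' (fun h => hbb (by rw [h]))
        exact hz' (h1 z hz)
    · intro Y hY hYV _ _
      refine ⟨?_, ?_⟩
      · rintro _ ⟨y, hy, rfl⟩
        exact (hYV hy).1
      · have h1 := td_le_pull (k := F) hY.pirr (e := (Sum.inl : κ → κ ⊕ (P ⊕ M)))
          Sum.inl_injective (Set.range (Sum.elim Sum.inl (Sum.inr ∘ Sum.inl) : κ ⊕ P → κ ⊕ (P ⊕ M)))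
          (by
          intro i
          apply isAlgebraic_of_mem_adjoin hY.pirr
          rcases i with i | i | i
          · exact Algebra.subset_adjoin ⟨Sum.inl i, ⟨Sum.inl i, rfl⟩, rfl⟩
          · exact Algebra.subset_adjoin ⟨Sum.inr (Sum.inl i), ⟨Sum.inr i, rfl⟩, rfl⟩
          · apply gen_mem_of_poly (Sum.elim Sum.inl (Sum.inr ∘ Sum.inl) : κ ⊕ P → κ ⊕ (P ⊕ M))
              (fun v => Set.mem_range_self v) (φ i)
            intro y hy
            rw [(hYV hy).2 i]
            congr 2
            funext v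
            rcases v with v | v <;> rfl)
        have h2 : (Set.range (Sum.elim Sum.inl (Sum.inr ∘ Sum.inl) : κ ⊕ P → κ ⊕ (P ⊕ M)) \
            Set.range (Sum.inl : κ → κ ⊕ (P ⊕ M))).ncard ≤ Fintype.card P := by
          have h3 : Set.range (Sum.elim Sum.inl (Sum.inr ∘ Sum.inl) : κ ⊕ P → κ ⊕ (P ⊕ M)) \
              Set.range (Sum.inl : κ → κ ⊕ (P ⊕ M)) ⊆
              (fun q : P => (Sum.inr (Sum.inl q) : κ ⊕ (P ⊕ M))) '' Set.univ := by
            rintro i ⟨⟨v, rfl⟩, hi⟩
            rcases v with v | v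
            · exact absurd ⟨v, rfl⟩ hi
            · exact ⟨v, trivial, rfl⟩
          refine (Set.ncard_le_ncard h3 (Set.toFinite _)).trans ?_
          refine (Set.ncard_image_le (Set.toFinite _)).trans ?_
          rw [Set.ncard_univ, Nat.card_eq_fintype_card]
        omega

end Rel

end Pool.Agent.MP_dd1803_nt.Aff
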