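import Mathlib
import Pool.Agent.MP_dd1803_nt.Aff.Graph

open MvPolynomial

namespace Pool.Agent.MP_dd1803_nt.Aff

section Dup

variable {F : Type} [Field F] [IsAlgClosed F] [CharZero F] [SpStr F] {κ κ' : Type} [Fintype κ]
  [Fintype κ']

open SpStr

/-- `MaxE` as a special case of `MaxF`. -/
theorem maxF_empty {e : ℕ} {V : Set (κ → F)} : MaxF ∅ e V = MaxE e V := by
  ext X
  rw [mem_maxF]
  simp

/-- Products with an affine space. -/
theorem finite_maxE_prod_univ {e : ℕ} {W : Set (κ' → F)} (hW : ZClosed W)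
    (h : (MaxE e W).Finite) : (MaxE e (prodSet (Set.univ : Set (κ → F)) W)).Finite := by
  apply (h.image fun Z => prodSet (Set.univ : Set (κ → F)) Z).subset
  intro X hX
  have hXi := MaxE.irr hX
  have h1 := defect_pull hXi.pirr (e := (Sum.inr : κ' → κ ⊕ κ')) Sum.inr_injective
  have h2 := MaxE.lt hX
  obtain ⟨Z, hZ, hXZ⟩ := exists_maxE (V := W) (e := e)
    (hXi.pirr.pull (Sum.inr : κ' → κ ⊕ κ')).cl (cl_subset (by
      rintro _ ⟨x, hx, rfl⟩
      exact (MaxE.subset hX hx).2) hW) (by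
      rw [rk_cl, td_cl]
      omega)
  refine ⟨Z, hZ, ?_⟩
  symm
  have hZi := MaxE.irr hZ
  apply MaxE.eq hX ((irr_univ : Irr (Set.univ : Set (κ → F))).prodSet hZi)
  · intro z hz
    exact ⟨trivial, MaxE.subset hZ hz.2⟩
  · have h3 := rk_prod_le (Set.univ : Set (κ → F)) Z
    have h4 := td_prod_ge (k := F) (irr_univ : Irr (Set.univ : Set (κ → F))).pirr hZi.pirr
    have h5 := rk_le_card (Set.univ : Set (κ → F))
    have h6 := MaxE.lt hZ
    rw [td_univ] at h4
    omega
  · intro x hx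
    exact ⟨trivial, hXZ (subset_cl _ ⟨x, hx, rfl⟩)⟩

omit [IsAlgClosed F] [CharZero F] [SpStr F] [Fintype κ] [Fintype κ'] in
theorem pull_dup (j0 : κ' → κ) (X : Set (κ → F)) :
    pull (Sum.inl : κ → κ ⊕ κ') '' ((fun x => Sum.elim x (x ∘ j0)) '' X) = X := by
  rw [Set.image_image]
  have : ∀ x : κ → F, pull (Sum.inl : κ → κ ⊕ κ') (Sum.elim x (x ∘ j0)) = x := fun x => rfl
  simp only [this, Set.image_id']

/-- Preimages under coordinate maps. -/
theorem finite_maxE_dup {e : ℕ} {W : Set (κ' → F)} (hW : ZClosed W) (j0 : κ' → κ)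
    (h : (MaxE e W).Finite) : (MaxE e (pull j0 ⁻¹' W)).Finite := by
  classical
  have h1 := finite_maxE_prod_univ (κ := κ) hW h
  let S : Finset (Set (κ ⊕ κ' → F)) := Finset.univ.image fun p : κ' =>
    RS 1 (Sum.inr p) (Sum.inl (j0 p))
  have hS : ∀ G ∈ S, G ∈ Gs F (κ ⊕ κ') := by
    intro G hG
    obtain ⟨p, _, rfl⟩ := Finset.mem_image.mp hG
    exact Or.inl ⟨1, _, _, one_pos, rfl⟩
  have hmem : ∀ z : κ ⊕ κ' → F, z ∈ ⋂ G ∈ S, G ↔ ∀ p, z (Sum.inr p) = z (Sum.inl (j0 p)) := by
    intro z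
    simp only [S, Finset.mem_image, Finset.mem_univ, true_and, Set.iInter_exists,
      Set.iInter_iInter_eq', Set.mem_iInter, mem_RS]
    apply forall_congr'
    intro p
    exact one _ _
  have h2 := finite_maxE_inter S hS h1
  rw [← maxF_empty] at h2 ⊢
  refine finite_maxF_of_ext ((ratMap_pull Set.univ j0).preimage_closed hW)
    (V' := prodSet (Set.univ : Set (κ → F)) W ∩ ⋂ G ∈ S, G) (e' := e) (D := 0)
    (Sum.inl : κ → κ ⊕ κ') Sum.inl_injective ∅ (by simp) h2 ?_
  intro X hX
  have hXE := (mem_maxF.mp hX).1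
  have hXi := MaxE.irr hXE
  let X' : Set (κ ⊕ κ' → F) := (fun x => Sum.elim x (x ∘ j0)) '' X
  have hX'eq : X' = prodSet X Set.univ ∩ ⋂ G ∈ S, G := by
    ext z
    rw [Set.mem_inter_iff, hmem]
    constructor
    · rintro ⟨x, hx, rfl⟩
      exact ⟨elim_mem_prodSet.mpr ⟨hx, trivial⟩, fun p => rfl⟩
    · rintro ⟨h3, h4⟩
      refine ⟨z ∘ Sum.inl, h3.1, ?_⟩
      funext i
      rcases i with i | i
      · rfl
      · exact (h4 i).symm
  have hX'i : Irr X' := by
    refine ⟨?_, ?_⟩
    · rw [hX'eq]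
      exact (hXi.closed.prodSet zclosed_univ).inter
        (ZClosed.iInter fun G => ZClosed.iInter fun hG => zclosed_Gs (hS G hG))
    · apply hXi.pirr.image
      rintro (i | i)
      · exact ratOn_coord X i
      · exact ratOn_coord X (j0 i)
  refine ⟨X', hX'i, ?_, ?_, ?_, ?_, ?_, ?_, ?_⟩
  · rintro _ ⟨x, hx, rfl⟩
    refine ⟨⟨trivial, ?_⟩, ?_⟩
    · exact MaxE.subset hXE hx
    · rw [hmem]
      exact fun p => rfl
  · rw [pull_dup]
    exact subset_cl X
  · have h3 := rk_le_pull_add hX'i.pirr (e := (Sum.inl : κ → κ ⊕ κ')) Sum.inl_injective ∅ (by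
      intro i hi _
      rcases i with i | i
      · exact absurd ⟨i, rfl⟩ hi
      · right
        right
        refine ⟨j0 i, 1, one_pos, ?_⟩
        rintro _ ⟨x, hx, rfl⟩
        exact (one _ _).mpr rfl)
    rwa [pull_dup] at h3
  · have h3 := td_pull_le (k := F) hX'i.pirr (Sum.inl : κ → κ ⊕ κ')
    rw [pull_dup] at h3
    omega
  · intro c hc
    exact absurd hc (Set.notMem_empty c)
  · intro b hb
    exact absurd hb (Finset.notMem_empty b)
  · intro Y hY hYV _ _
    refine ⟨?_, ?_⟩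
    · rintro _ ⟨y, hy, rfl⟩
      have h3 := hYV hy
      have h4 := (hmem y).mp h3.2
      have h5 : pull j0 (pull Sum.inl y) = y ∘ Sum.inr := by
        funext p
        exact (h4 p).symm
      change pull j0 (pull Sum.inl y) ∈ W
      rw [h5]
      exact h3.1.2
    · have h3 := td_le_pull (k := F) hY.pirr (e := (Sum.inl : κ → κ ⊕ κ')) Sum.inl_injective
        (Set.range (Sum.inl : κ → κ ⊕ κ')) (by
        intro i
        apply isAlgebraic_of_mem_adjoin hY.pirr
        rcases i with i | i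
        · exact Algebra.subset_adjoin ⟨Sum.inl i, ⟨i, rfl⟩, rfl⟩
        · apply gen_mem_of_poly (Sum.inl : κ → κ ⊕ κ') (fun v => Set.mem_range_self v)
            (MvPolynomial.X (j0 i))
          intro y hy
          rw [aeval_X]
          exact (hmem y).mp (hYV hy).2 i)
      rw [sdiff_self, Set.bot_eq_empty, Set.ncard_empty] at h3
      exact h3

end Dup

section Add

variable (F : Type) [Field F]

/-- The `k`-th power of the plane `x + y = z`, in affine space of dimension `3k`. -/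
def AA (k : ℕ) : Set (Fin k × Fin 3 → F) :=
  {x | ∀ i, x (i, 0) + x (i, 1) = x (i, 2)}

end Add

section Gates

variable {F : Type} [Field F]

theorem zclosed_AA (k : ℕ) : ZClosed (AA F k) := by
  have h : AA F k = ⋂ i : Fin k, zp (MvPolynomial.X (i, 0) + MvPolynomial.X (i, 1) -
      MvPolynomial.X (i, 2)) := by
    ext x
    rw [Set.mem_iInter]
    apply forall_congr'
    intro i
    rw [mem_zp, map_sub, map_add, aeval_X, aeval_X, aeval_X, sub_eq_zero]
    rfl
  rw [h]
  exact ZClosed.iInter fun i => zclosed_zp _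

/-- Systems of additive gates. -/
def ga {ι μ : Type} (A B C : ι → μ) : Set (μ → F) := {y | ∀ r, y (A r) + y (B r) = y (C r)}

theorem zclosed_ga {ι μ : Type} (A B C : ι → μ) : ZClosed (ga A B C : Set (μ → F)) := by
  have h : (ga A B C : Set (μ → F)) = ⋂ r, zp (MvPolynomial.X (A r) + MvPolynomial.X (B r) -
      MvPolynomial.X (C r)) := by
    ext x
    rw [Set.mem_iInter]
    apply forall_congr'
    intro i
    rw [mem_zp, map_sub, map_add, aeval_X, aeval_X, aeval_X, sub_eq_zero]
    rfl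
  rw [h]
  exact ZClosed.iInter fun i => zclosed_zp _

theorem finite_maxE_ga [IsAlgClosed F] [CharZero F] [SpStr F]
    (hA : ∀ k, (MaxE k (AA F k)).Finite) {ι μ : Type} [Fintype ι] [Fintype μ] (A B C : ι → μ) :
    (MaxE (Fintype.card ι) (ga A B C : Set (μ → F))).Finite := by
  let ε := Fintype.equivFin ι
  let j0 : Fin (Fintype.card ι) × Fin 3 → μ := fun p => ![A (ε.symm p.1), B (ε.symm p.1),
    C (ε.symm p.1)] p.2
  have h1 : (ga A B C : Set (μ → F)) = pull j0 ⁻¹' (AA F (Fintype.card ι)) := by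
    ext y
    constructor
    · intro h i
      exact h (ε.symm i)
    · intro h r
      have := h (ε r)
      simp only [pull, j0, Function.comp_apply] at this
      simpa using this
  rw [h1]
  exact finite_maxE_dup (zclosed_AA _) j0 (hA _)

end Gates

end Pool.Agent.MP_dd1803_nt.Aff
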