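import Mathlib
import Pool.Agent.MP_dd1803_nt.Aff.Dup

open MvPolynomial

namespace Pool.Agent.MP_dd1803_nt.Aff

section SpC

variable {F : Type} [Field F] [CharZero F] [SpStr F] {κ κ' : Type}

open SpStr

/-- Finite intersections of special sets. -/
def SpC (S : Set (κ → F)) : Prop :=
  ∃ T : Finset (Set (κ → F)), (∀ G ∈ T, G ∈ Gs F κ) ∧ S = ⋂ G ∈ T, G

theorem SpC.univ : SpC (Set.univ : Set (κ → F)) := ⟨∅, by simp, by simp⟩

theorem spC_of_Gs {G : Set (κ → F)} (h : G ∈ Gs F κ) : SpC G := ⟨{G}, by simpa using h, by simp⟩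

theorem SpC.inter {S S' : Set (κ → F)} (h : SpC S) (h' : SpC S') : SpC (S ∩ S') := by
  classical
  obtain ⟨T, hT, rfl⟩ := h
  obtain ⟨T', hT', rfl⟩ := h'
  refine ⟨T ∪ T', ?_, ?_⟩
  · intro G hG
    rcases Finset.mem_union.mp hG with h | h
    · exact hT G h
    · exact hT' G h
  · ext x
    simp only [Set.mem_inter_iff, Set.mem_iInter, Finset.mem_union]
    constructor
    · rintro ⟨h1, h2⟩ G (h | h)
      · exact h1 G h
      · exact h2 G h
    · intro h
      exact ⟨fun G hG => h G (Or.inl hG), fun G hG => h G (Or.inr hG)⟩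

theorem SpC.iInter {ι : Type} [Finite ι] {S : ι → Set (κ → F)} (h : ∀ i, SpC (S i)) :
    SpC (⋂ i, S i) := by
  classical
  have := Fintype.ofFinite ι
  have key : ∀ s : Finset ι, SpC (⋂ i ∈ s, S i) := by
    intro s
    induction s using Finset.induction_on with
    | empty => simpa using SpC.univ
    | insert a s _ ih =>
      rw [Finset.set_biInter_insert]
      exact (h a).inter ih
  have := key Finset.univ
  simpa using this

theorem SpC.closed {S : Set (κ → F)} (h : SpC S) : ZClosed S := by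
  obtain ⟨T, hT, rfl⟩ := h
  exact ZClosed.iInter fun G => ZClosed.iInter fun hG => zclosed_Gs (hT G hG)

theorem spC_RS {N : ℕ} (hN : 0 < N) (i k : κ) : SpC (RS N i k : Set (κ → F)) :=
  spC_of_Gs (Or.inl ⟨N, i, k, hN, rfl⟩)

theorem spC_coord (i : κ) {a : F} (ha : ∃ M, 1 < M ∧ rel M a a) : SpC {x : κ → F | x i = a} :=
  spC_of_Gs (Or.inr ⟨i, a, ha, rfl⟩)

theorem Gs_pull {G : Set (κ → F)} (h : G ∈ Gs F κ) (j : κ → κ') : pull j ⁻¹' G ∈ Gs F κ' := by
  rcases h with ⟨N, i, k, hN, rfl⟩ | ⟨i, a, ha, rfl⟩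
  · exact Or.inl ⟨N, j i, j k, hN, rfl⟩
  · exact Or.inr ⟨j i, a, ha, rfl⟩

theorem SpC.pull {S : Set (κ → F)} (h : SpC S) (j : κ → κ') : SpC (Aff.pull j ⁻¹' S) := by
  classical
  obtain ⟨T, hT, rfl⟩ := h
  refine ⟨T.image fun G => Aff.pull j ⁻¹' G, ?_, ?_⟩
  · intro G hG
    obtain ⟨G', hG', rfl⟩ := Finset.mem_image.mp hG
    exact Gs_pull (hT G' hG') j
  · ext x
    simp only [Set.mem_preimage, Set.mem_iInter, Finset.mem_image, forall_exists_index, and_imp,
      forall_apply_eq_imp_iff₂]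

theorem finite_maxE_inter' [IsAlgClosed F] [Fintype κ] {e : ℕ} {V S : Set (κ → F)} (hS : SpC S)
    (hfin : (MaxE e V).Finite) : (MaxE e (V ∩ S)).Finite := by
  obtain ⟨T, hT, rfl⟩ := hS
  exact finite_maxE_inter T hT hfin

end SpC

section Forms

variable {F : Type} [Field F] {κ : Type} [Fintype κ]

/-- The common zeros in `S` of a family of functions. -/
def zs {J : Type} (g : J → (κ → F) → F) (S : Set (κ → F)) : Set (κ → F) :=
  {z | z ∈ S ∧ ∀ j, g j z = 0}

/-- integral linear forms -/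
def IsL (g : (κ → F) → F) : Prop := ∃ L : κ → ℤ, ∀ z, g z = ∑ i, (L i : F) * z i

/-- integral quadratic forms without constant term -/
def IsQ (g : (κ → F) → F) : Prop :=
  ∃ (L : κ → ℤ) (A : κ × κ → ℤ), ∀ z, g z = ∑ i, (L i : F) * z i + ∑ p, (A p : F) * (z p.1 * z p.2)

/-- integral linear combinations of coordinates and of values of a function at some coordinates -/
def IsH {τ : Type} [Fintype τ] (P : F → F) (t : τ → κ) (g : (κ → F) → F) : Prop :=
  ∃ (L : κ → ℤ) (A : τ → ℤ), ∀ z, g z = ∑ i, (L i : F) * z i + ∑ i, (A i : F) * P (z (t i))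

theorem IsL.coord (i : κ) : IsL (fun z : κ → F => z i) := by
  classical
  refine ⟨Pi.single i 1, fun z => ?_⟩
  rw [Finset.sum_eq_single i]
  · simp
  · intro b _ hb
    rw [Pi.single_eq_of_ne hb]
    simp
  · intro h
    exact absurd (Finset.mem_univ i) h

theorem IsL.zero : IsL (fun _ : κ → F => 0) := ⟨0, fun z => by simp⟩

theorem IsL.add {f g : (κ → F) → F} (hf : IsL f) (hg : IsL g) : IsL (fun z => f z + g z) := by
  obtain ⟨L, hL⟩ := hf
  obtain ⟨L', hL'⟩ := hg
  refine ⟨L + L', fun z => ?_⟩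
  beta_reduce
  rw [hL, hL', ← Finset.sum_add_distrib]
  apply Finset.sum_congr rfl
  intro i _
  push_cast [Pi.add_apply]
  ring

theorem IsL.smul {f : (κ → F) → F} (hf : IsL f) (n : ℤ) : IsL (fun z => (n : F) * f z) := by
  obtain ⟨L, hL⟩ := hf
  refine ⟨n • L, fun z => ?_⟩
  beta_reduce
  rw [hL, Finset.mul_sum]
  apply Finset.sum_congr rfl
  intro i _
  push_cast [Pi.smul_apply, smul_eq_mul]
  ring

theorem IsL.neg {f : (κ → F) → F} (hf : IsL f) : IsL (fun z => - f z) := by
  have := hf.smul (-1)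
  simpa using this

theorem IsL.sub {f g : (κ → F) → F} (hf : IsL f) (hg : IsL g) : IsL (fun z => f z - g z) := by
  have := hf.add hg.neg
  simpa [sub_eq_add_neg] using this

theorem IsL.sum {ι : Type} (s : Finset ι) {f : ι → (κ → F) → F} (hf : ∀ i ∈ s, IsL (f i)) :
    IsL (fun z => ∑ i ∈ s, f i z) := by
  classical
  induction s using Finset.induction_on with
  | empty => simpa using IsL.zero
  | insert a s ha ih =>
    simp only [Finset.sum_insert ha]
    exact (hf a (Finset.mem_insert_self _ _)).add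
      (ih fun i hi => hf i (Finset.mem_insert_of_mem hi))

theorem IsL.isQ {f : (κ → F) → F} (hf : IsL f) : IsQ f := by
  obtain ⟨L, hL⟩ := hf
  exact ⟨L, 0, fun z => by rw [hL]; simp⟩

theorem IsL.isH {τ : Type} [Fintype τ] {f : (κ → F) → F} (hf : IsL f) (P : F → F) (t : τ → κ) :
    IsH P t f := by
  obtain ⟨L, hL⟩ := hf
  exact ⟨L, 0, fun z => by rw [hL]; simp⟩

theorem IsQ.mul_coord (i k : κ) : IsQ (fun z : κ → F => z i * z k) := by
  classical
  refine ⟨0, Pi.single (i, k) 1, fun z => ?_⟩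
  rw [Finset.sum_eq_single (i, k) (f := fun p : κ × κ =>
    ((Pi.single (i, k) (1 : ℤ) : κ × κ → ℤ) p : F) * (z p.1 * z p.2))]
  · simp
  · intro b _ hb
    rw [Pi.single_eq_of_ne hb]
    simp
  · intro h
    exact absurd (Finset.mem_univ _) h

theorem IsQ.add {f g : (κ → F) → F} (hf : IsQ f) (hg : IsQ g) : IsQ (fun z => f z + g z) := by
  obtain ⟨L, A, hL⟩ := hf
  obtain ⟨L', A', hL'⟩ := hg
  refine ⟨L + L', A + A', fun z => ?_⟩
  beta_reduce
  rw [hL, hL']
  have h1 : ∑ i, ((L + L') i : F) * z i = ∑ i, (L i : F) * z i + ∑ i, (L' i : F) * z i := by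
    rw [← Finset.sum_add_distrib]
    apply Finset.sum_congr rfl
    intro i _
    push_cast [Pi.add_apply]
    ring
  have h2 : ∑ p, ((A + A') p : F) * (z p.1 * z p.2) =
      ∑ p, (A p : F) * (z p.1 * z p.2) + ∑ p, (A' p : F) * (z p.1 * z p.2) := by
    rw [← Finset.sum_add_distrib]
    apply Finset.sum_congr rfl
    intro i _
    push_cast [Pi.add_apply]
    ring
  rw [h1, h2]
  ring

theorem IsQ.smul {f : (κ → F) → F} (hf : IsQ f) (n : ℤ) : IsQ (fun z => (n : F) * f z) := by
  obtain ⟨L, A, hL⟩ := hf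
  refine ⟨n • L, n • A, fun z => ?_⟩
  beta_reduce
  rw [hL, mul_add, Finset.mul_sum, Finset.mul_sum]
  congr 1
  · apply Finset.sum_congr rfl
    intro i _
    push_cast [Pi.smul_apply, smul_eq_mul]
    ring
  · apply Finset.sum_congr rfl
    intro i _
    push_cast [Pi.smul_apply, smul_eq_mul]
    ring

theorem IsQ.neg {f : (κ → F) → F} (hf : IsQ f) : IsQ (fun z => - f z) := by
  have := hf.smul (-1)
  simpa using this

theorem IsQ.sub {f g : (κ → F) → F} (hf : IsQ f) (hg : IsQ g) : IsQ (fun z => f z - g z) := by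
  have := hf.add hg.neg
  simpa [sub_eq_add_neg] using this

variable {τ : Type} [Fintype τ] {t : τ → κ}

theorem IsH.zero (P : F → F) (t : τ → κ) : IsH P t (fun _ : κ → F => 0) := IsL.zero.isH P t

theorem IsH.val (P : F → F) (t : τ → κ) (i : τ) : IsH P t (fun z : κ → F => P (z (t i))) := by
  classical
  refine ⟨0, Pi.single i 1, fun z => ?_⟩
  rw [Finset.sum_eq_single i (f := fun p : τ =>
    ((Pi.single i (1 : ℤ) : τ → ℤ) p : F) * P (z (t p)))]
  · simp
  · intro b _ hb
    rw [Pi.single_eq_of_ne hb]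
    simp
  · intro h
    exact absurd (Finset.mem_univ _) h

theorem IsH.add {P : F → F} {f g : (κ → F) → F} (hf : IsH P t f) (hg : IsH P t g) :
    IsH P t (fun z => f z + g z) := by
  obtain ⟨L, A, hL⟩ := hf
  obtain ⟨L', A', hL'⟩ := hg
  refine ⟨L + L', A + A', fun z => ?_⟩
  beta_reduce
  rw [hL, hL']
  have h1 : ∑ i, ((L + L') i : F) * z i = ∑ i, (L i : F) * z i + ∑ i, (L' i : F) * z i := by
    rw [← Finset.sum_add_distrib]
    apply Finset.sum_congr rfl
    intro i _
    push_cast [Pi.add_apply]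
    ring
  have h2 : ∑ p, ((A + A') p : F) * P (z (t p)) =
      ∑ p, (A p : F) * P (z (t p)) + ∑ p, (A' p : F) * P (z (t p)) := by
    rw [← Finset.sum_add_distrib]
    apply Finset.sum_congr rfl
    intro i _
    push_cast [Pi.add_apply]
    ring
  rw [h1, h2]
  ring

theorem IsH.smul {P : F → F} {f : (κ → F) → F} (hf : IsH P t f) (n : ℤ) :
    IsH P t (fun z => (n : F) * f z) := by
  obtain ⟨L, A, hL⟩ := hf
  refine ⟨n • L, n • A, fun z => ?_⟩
  beta_reduce
  rw [hL, mul_add, Finset.mul_sum, Finset.mul_sum]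
  congr 1
  · apply Finset.sum_congr rfl
    intro i _
    push_cast [Pi.smul_apply, smul_eq_mul]
    ring
  · apply Finset.sum_congr rfl
    intro i _
    push_cast [Pi.smul_apply, smul_eq_mul]
    ring

theorem IsH.sum {P : F → F} {ι : Type} (s : Finset ι) {f : ι → (κ → F) → F}
    (hf : ∀ i ∈ s, IsH P t (f i)) : IsH P t (fun z => ∑ i ∈ s, f i z) := by
  classical
  induction s using Finset.induction_on with
  | empty => simpa using IsH.zero P t
  | insert a s ha ih =>
    simp only [Finset.sum_insert ha]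
    exact (hf a (Finset.mem_insert_self _ _)).add
      (ih fun i hi => hf i (Finset.mem_insert_of_mem hi))

end Forms

end Pool.Agent.MP_dd1803_nt.Aff
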