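import Mathlib
import Pool.Agent.MP_dd1803_nt.Aff.Forms

open MvPolynomial

namespace Pool.Agent.MP_dd1803_nt.Aff

section Sums

variable {R : Type} [CommRing R] {n : ℕ}

/-- sum of the terms with index less than `k` -/
def psum (k : ℕ) (a : Fin n → R) : R := ∑ l : Fin n, if (l : ℕ) < k then a l else 0

/-- sum of the terms with index at least `k` -/
def ssum (k : ℕ) (a : Fin n → R) : R := ∑ l : Fin n, if k ≤ (l : ℕ) then a l else 0

theorem psum_zero (a : Fin n → R) : psum 0 a = 0 := by simp [psum]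

theorem psum_top (a : Fin n → R) : psum n a = ∑ l, a l := by
  unfold psum
  apply Finset.sum_congr rfl
  intro l _
  rw [if_pos l.isLt]

theorem psum_succ (a : Fin n → R) (l : Fin n) : psum (l + 1) a = psum l a + a l := by
  unfold psum
  have h : a l = ∑ l', if l' = l then a l' else 0 := by simp
  conv_rhs => enter [2]; rw [h]
  rw [← Finset.sum_add_distrib]
  apply Finset.sum_congr rfl
  intro l' _
  by_cases h1 : l' = l
  · subst h1
    simp
  · have h2 : (l' : ℕ) ≠ l := fun h => h1 (Fin.ext h)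
    by_cases h3 : (l' : ℕ) < l
    · rw [if_pos (by omega), if_pos h3, if_neg h1, add_zero]
    · rw [if_neg (by omega), if_neg h3, if_neg h1, add_zero]

theorem ssum_top (a : Fin n → R) : ssum n a = 0 := by
  unfold ssum
  apply Finset.sum_eq_zero
  intro l _
  rw [if_neg (by omega)]

theorem ssum_zero (a : Fin n → R) : ssum 0 a = ∑ l, a l := by simp [ssum]

theorem ssum_eq (a : Fin n → R) (l : Fin n) : ssum l a = a l + ssum (l + 1) a := by
  unfold ssum
  have h : a l = ∑ l', if l' = l then a l' else 0 := by simp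
  conv_rhs => enter [1]; rw [h]
  rw [← Finset.sum_add_distrib]
  apply Finset.sum_congr rfl
  intro l' _
  by_cases h1 : l' = l
  · subst h1
    simp
  · have h2 : (l' : ℕ) ≠ l := fun h => h1 (Fin.ext h)
    by_cases h3 : (l : ℕ) ≤ l'
    · rw [if_pos h3, if_neg h1, zero_add, if_pos (by omega)]
    · rw [if_neg h3, if_neg h1, zero_add, if_neg (by omega)]

end Sums

section Rep

/-- Uniform representation of linear forms as signed sums of coordinates. -/
theorem exists_signs {F : Type} [Field F] [CharZero F] {I κ : Type} [Fintype I] [Fintype κ]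
    [Nonempty κ] (L : I → κ → ℤ) :
    ∃ (m : ℕ) (f : Fin (m + 1) → κ) (sg : I → Fin (m + 1) → Bool),
      ∀ i (z : κ → F), 2 * ∑ k, (L i k : F) * z k =
        ∑ l, (((if sg i l then 1 else -1 : ℤ) : ℤ) : F) * z (f l) := by
  classical
  obtain ⟨B, hB1, hB⟩ : ∃ B : ℕ, 1 ≤ B ∧ ∀ i k, (L i k).natAbs ≤ B := by
    refine ⟨1 + ∑ i, ∑ k, (L i k).natAbs, by omega, ?_⟩
    intro i k
    have h1 : (L i k).natAbs ≤ ∑ k, (L i k).natAbs :=
      Finset.single_le_sum (f := fun k => (L i k).natAbs) (fun _ _ => Nat.zero_le _)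
        (Finset.mem_univ k)
    have h2 : ∑ k, (L i k).natAbs ≤ ∑ i, ∑ k, (L i k).natAbs :=
      Finset.single_le_sum (f := fun i => ∑ k, (L i k).natAbs) (fun _ _ => Nat.zero_le _)
        (Finset.mem_univ i)
    omega
  have hcard : Fintype.card (κ × Fin (2 * B)) ≠ 0 := by
    rw [Fintype.card_prod, Fintype.card_fin]
    have := Fintype.card_pos (α := κ)
    positivity
  obtain ⟨m, hm⟩ := Nat.exists_eq_succ_of_ne_zero hcard
  let ε : Fin (m + 1) ≃ κ × Fin (2 * B) := (Fintype.equivFinOfCardEq hm).symm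
  refine ⟨m, fun l => (ε l).1, fun i l => decide (((ε l).2 : ℤ) < B + L i (ε l).1), ?_⟩
  intro i z
  rw [Equiv.sum_comp ε (fun p : κ × Fin (2 * B) =>
    (((if decide ((p.2 : ℤ) < B + L i p.1) then 1 else -1 : ℤ) : ℤ) : F) * z p.1)]
  rw [Fintype.sum_prod_type, Finset.mul_sum]
  apply Finset.sum_congr rfl
  intro k _
  change _ = ∑ y : Fin (2 * B), (((if decide ((y : ℤ) < B + L i k) then 1 else -1 : ℤ) : ℤ) : F) * z k
  rw [← Finset.sum_mul]
  rw [← mul_assoc]
  congr 1
  have h1 := hB i k
  have key : ∀ c : ℕ, c ≤ 2 * B → (∑ l : Fin (2 * B), (if (l : ℕ) < c then (1 : ℤ) else -1)) =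
      2 * c - 2 * B := by
    intro c hc
    rw [Fin.sum_univ_eq_sum_range (fun l => if l < c then (1 : ℤ) else -1)]
    rw [Finset.sum_ite, Finset.sum_const, Finset.sum_const]
    have h2 : (Finset.range (2 * B)).filter (· < c) = Finset.range c := by
      ext l
      simp only [Finset.mem_filter, Finset.mem_range]
      omega
    have h3 : ((Finset.range (2 * B)).filter (fun l => ¬ l < c)).card = 2 * B - c := by
      have h4 := Finset.card_filter_add_card_filter_not (s := Finset.range (2 * B)) (· < c)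
      rw [h2, Finset.card_range, Finset.card_range] at h4
      omega
    rw [h2, h3, Finset.card_range]
    simp only [nsmul_eq_mul, mul_one, mul_neg]
    push_cast [hc]
    ring
  have h2 := key (B + L i k).toNat (by omega)
  have h3 : ((B + L i k).toNat : ℤ) = B + L i k := by omega
  rw [h3] at h2
  have h4 : (∑ l : Fin (2 * B), (((if decide ((l : ℤ) < B + L i k) then 1 else -1 : ℤ) : ℤ) : F)) =
      (((∑ l : Fin (2 * B), (if (l : ℕ) < (B + L i k).toNat then (1 : ℤ) else -1)) : ℤ) : F) := by
    push_cast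
    apply Finset.sum_congr rfl
    intro l _
    have h5 : ((l : ℤ) < B + L i k) ↔ (l : ℕ) < (B + L i k).toNat := by omega
    simp only [h5, decide_eq_true_eq]
  rw [h4, h2]
  push_cast
  ring

end Rep

end Pool.Agent.MP_dd1803_nt.Aff
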