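import Mathlib
import Pool.Agent.MP_dd1803_nt.Aff.StepLin

open MvPolynomial

namespace Pool.Agent.MP_dd1803_nt.Aff

section Net

variable {F : Type} [Field F] {I κ : Type} {m : ℕ}

theorem map_psum {R S : Type} [CommRing R] [CommRing S] (g : R →+* S) {n : ℕ} (k : ℕ)
    (a : Fin n → R) : g (psum k a) = psum k (fun l => g (a l)) := by
  unfold psum
  rw [map_sum]
  apply Finset.sum_congr rfl
  intro l _
  split_ifs <;> simp

theorem map_ssum {R S : Type} [CommRing R] [CommRing S] (g : R →+* S) {n : ℕ} (k : ℕ)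
    (a : Fin n → R) : g (ssum k a) = ssum k (fun l => g (a l)) := by
  unfold ssum
  rw [map_sum]
  apply Finset.sum_congr rfl
  intro l _
  split_ifs <;> simp

/-- parameters -/
abbrev PL (I : Type) (m : ℕ) : Type := I × Option (Fin (m + 1))
/-- nodes -/
abbrev ML (I : Type) (m : ℕ) : Type := (I × Fin (m + 1)) ⊕ ((I × Fin (m + 1)) ⊕ (I × Fin m))
/-- all coordinates -/
abbrev NL (κ I : Type) (m : ℕ) : Type := κ ⊕ (PL I m ⊕ ML I m)

def nr (i : I) : NL κ I m := Sum.inr (Sum.inl (i, none))
def nd (i : I) (l : Fin (m + 1)) : NL κ I m := Sum.inr (Sum.inl (i, some l))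
def nE (i : I) (l : Fin (m + 1)) : NL κ I m := Sum.inr (Sum.inr (Sum.inl (i, l)))
def nc (i : I) (l : Fin (m + 1)) : NL κ I m := Sum.inr (Sum.inr (Sum.inr (Sum.inl (i, l))))
def ng (i : I) (j : Fin m) : NL κ I m := Sum.inr (Sum.inr (Sum.inr (Sum.inr (i, j))))

def cPrev (i : I) (l : Fin (m + 1)) : NL κ I m :=
  Fin.cases (nr i) (fun j => nc i j.castSucc) l
def gNext (i : I) (l : Fin (m + 1)) : NL κ I m :=
  Fin.lastCases (nr i) (fun j => ng i j) l
def gSelf (i : I) (l : Fin (m + 1)) : NL κ I m :=
  Fin.cases (nc i (Fin.last m)) (fun j => ng i j) l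

/-- the sign -/
def sv (b : Bool) : ℤ := if b then 1 else -1

variable (f : Fin (m + 1) → κ) (sg : I → Fin (m + 1) → Bool)

def gA : (I × Fin (m + 1)) × Fin 3 → NL κ I m := fun p =>
  ![if sg p.1.1 p.1.2 then nd p.1.1 p.1.2 else nE p.1.1 p.1.2, cPrev p.1.1 p.1.2,
    nd p.1.1 p.1.2] p.2
def gB : (I × Fin (m + 1)) × Fin 3 → NL κ I m := fun p =>
  ![Sum.inl (f p.1.2), nE p.1.1 p.1.2, gNext p.1.1 p.1.2] p.2
def gC : (I × Fin (m + 1)) × Fin 3 → NL κ I m := fun p =>
  ![if sg p.1.1 p.1.2 then nE p.1.1 p.1.2 else nd p.1.1 p.1.2, nc p.1.1 p.1.2,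
    gSelf p.1.1 p.1.2] p.2

/-- the polynomial of the first kind of nodes -/
noncomputable def pE (i : I) (l : Fin (m + 1)) : MvPolynomial (κ ⊕ PL I m) F :=
  X (Sum.inr (i, some l)) + C (sv (sg i l) : F) * X (Sum.inl (f l))

noncomputable def phL : ML I m → MvPolynomial (κ ⊕ PL I m) F :=
  Sum.elim (fun p => pE (F := F) f sg p.1 p.2) (Sum.elim
    (fun p => X (Sum.inr (p.1, none)) + psum (p.2 + 1) (fun l => pE (F := F) f sg p.1 l))
    (fun p => X (Sum.inr (p.1, none)) + ssum (p.2 + 1) (fun l => X (Sum.inr (p.1, some l)))))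

def lamL : ML I m → PL I m :=
  Sum.elim (fun p => (p.1, some p.2)) (Sum.elim (fun p => (p.1, none)) (fun p => (p.1, none)))

theorem aeval_pE (z : κ ⊕ PL I m → F) (i : I) (l : Fin (m + 1)) :
    aeval z (pE (F := F) f sg i l) = z (Sum.inr (i, some l)) + (sv (sg i l) : F) * z (Sum.inl (f l)) := by
  simp [pE]

/-- The equations of the graph are equivalent to the gates. -/
theorem graph_eq_gates (S : Set (κ → F)) :
    graphSet (phL (F := F) f sg) (zs (fun (i : I) (z : κ → F) => ∑ l, (sv (sg i l) : F) * z (f l)) S) =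
      ga (gA sg) (gB f) (gC sg) ∩ pull (Sum.inl : κ → NL κ I m) ⁻¹' S := by
  ext z
  have hval : ∀ b : ML I m, aeval (Sum.elim (z ∘ Sum.inl) (z ∘ Sum.inr ∘ Sum.inl)) (phL (F := F) f sg b) =
      Sum.elim (fun p : I × Fin (m + 1) => z (nd p.1 p.2) + (sv (sg p.1 p.2) : F) * z (Sum.inl (f p.2)))
        (Sum.elim
          (fun p : I × Fin (m + 1) => z (nr p.1) + psum (p.2 + 1)
            (fun l => z (nd p.1 l) + (sv (sg p.1 l) : F) * z (Sum.inl (f l))))
          (fun p : I × Fin m => z (nr p.1) + ssum (p.2 + 1) (fun l => z (nd p.1 l)))) b := by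
    intro b
    rcases b with p | p | p
    · simp only [phL, Sum.elim_inl, aeval_pE]
      rfl
    · simp only [phL, Sum.elim_inr, Sum.elim_inl, map_add, aeval_X]
      have h := map_psum (aeval (Sum.elim (z ∘ Sum.inl) (z ∘ Sum.inr ∘ Sum.inl)) :
        MvPolynomial (κ ⊕ PL I m) F →ₐ[F] F).toRingHom (p.2 + 1) (fun l => pE (F := F) f sg p.1 l)
      have h' : (aeval (Sum.elim (z ∘ Sum.inl) (z ∘ Sum.inr ∘ Sum.inl)) :
        MvPolynomial (κ ⊕ PL I m) F →ₐ[F] F) (psum (p.2 + 1) (fun l => pE (F := F) f sg p.1 l)) =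
        psum (p.2 + 1) (fun l => z (nd p.1 l) + (sv (sg p.1 l) : F) * z (Sum.inl (f l))) := by
        refine h.trans ?_
        congr 1
        funext l
        exact aeval_pE (F := F) f sg _ p.1 l
      rw [h']
      rfl
    · simp only [phL, Sum.elim_inr, map_add, aeval_X]
      have h := map_ssum (aeval (Sum.elim (z ∘ Sum.inl) (z ∘ Sum.inr ∘ Sum.inl)) :
        MvPolynomial (κ ⊕ PL I m) F →ₐ[F] F).toRingHom (p.2 + 1)
        (fun l => (X (Sum.inr (p.1, some l)) : MvPolynomial (κ ⊕ PL I m) F))
      have h' : (aeval (Sum.elim (z ∘ Sum.inl) (z ∘ Sum.inr ∘ Sum.inl)) :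
        MvPolynomial (κ ⊕ PL I m) F →ₐ[F] F)
        (ssum (p.2 + 1) (fun l => (X (Sum.inr (p.1, some l)) : MvPolynomial (κ ⊕ PL I m) F))) =
        ssum (p.2 + 1) (fun l => z (nd p.1 l)) := by
        refine h.trans ?_
        congr 1
        funext l
        simp [nd]
      rw [h']
      rfl
  constructor
  · rintro ⟨⟨hS, h0⟩, h⟩
    have hE : ∀ i l, z (nE i l) = z (nd i l) + (sv (sg i l) : F) * z (Sum.inl (f l)) := by
      intro i l
      exact (h (Sum.inl (i, l))).trans (hval (Sum.inl (i, l)))
    have hc : ∀ i l, z (nc i l) = z (nr i) + psum (l + 1)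
        (fun l => z (nd i l) + (sv (sg i l) : F) * z (Sum.inl (f l))) := by
      intro i l
      exact (h (Sum.inr (Sum.inl (i, l)))).trans (hval (Sum.inr (Sum.inl (i, l))))
    have hg : ∀ i j, z (ng i j) = z (nr i) + ssum (j + 1) (fun l => z (nd i l)) := by
      intro i j
      exact (h (Sum.inr (Sum.inr (i, j)))).trans (hval (Sum.inr (Sum.inr (i, j))))
    have hcp : ∀ i l, z (cPrev i l) = z (nr i) + psum l
        (fun l => z (nd i l) + (sv (sg i l) : F) * z (Sum.inl (f l))) := by
      intro i l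
      refine Fin.cases ?_ (fun j => ?_) l
      · simp [cPrev, psum_zero]
      · simp only [cPrev, Fin.cases_succ, Fin.val_succ]
        exact hc i j.castSucc
    have hgn : ∀ i (l : Fin (m + 1)), z (gNext i l) = z (nr i) + ssum (l + 1)
        (fun l => z (nd i l)) := by
      intro i l
      refine Fin.lastCases ?_ (fun j => ?_) l
      · simp [gNext, ssum_top]
      · simp only [gNext, Fin.lastCases_castSucc, Fin.val_castSucc]
        exact hg i j
    have hgs : ∀ i (l : Fin (m + 1)), z (gSelf i l) = z (nr i) + ssum l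
        (fun l => z (nd i l)) := by
      intro i l
      refine Fin.cases ?_ (fun j => ?_) l
      · simp only [gSelf, Fin.cases_zero, Fin.val_zero]
        rw [hc, Fin.val_last, psum_top, Finset.sum_add_distrib, ssum_zero]
        have := h0 i
        simp only [Function.comp_apply] at this
        rw [this, add_zero]
      · simp only [gSelf, Fin.cases_succ, Fin.val_succ]
        exact hg i j
    refine ⟨?_, hS⟩
    rintro ⟨⟨i, l⟩, a⟩
    fin_cases a
    · simp only [gA, gB, gC]
      by_cases hs : sg i l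
      · simp only [hs, if_true, Fin.zero_eta, Matrix.cons_val_zero]
        rw [hE, hs]
        simp [sv]
      · simp only [hs, Fin.zero_eta, Matrix.cons_val_zero]
        simp only [Bool.false_eq_true, if_false]
        rw [hE]
        simp [sv, hs]
    · simp only [gA, gB, gC, Fin.mk_one, Matrix.cons_val_one, Matrix.cons_val_zero]
      rw [hcp, hc, hE, psum_succ]
      ring
    · simp only [gA, gB, gC, Fin.reduceFinMk, Matrix.cons_val]
      rw [hgn, hgs, ssum_eq]
      ring
  · rintro ⟨hga, hS⟩
    have hE : ∀ i l, z (nE i l) = z (nd i l) + (sv (sg i l) : F) * z (Sum.inl (f l)) := by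
      intro i l
      have h := hga ((i, l), 0)
      simp only [gA, gB, gC, Matrix.cons_val_zero] at h
      by_cases hs : sg i l
      · simp only [hs, if_true] at h
        rw [hs, ← h]
        simp [sv]
      · simp only [hs] at h
        simp only [Bool.false_eq_true, if_false] at h
        rw [← h]
        simp [sv, hs]
    have hc : ∀ i (l : Fin (m + 1)), z (nc i l) = z (nr i) + psum (l + 1)
        (fun l => z (nd i l) + (sv (sg i l) : F) * z (Sum.inl (f l))) := by
      intro i l
      induction l using Fin.induction with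
      | zero =>
        have h := hga ((i, 0), 1)
        simp only [gA, gB, gC, Matrix.cons_val_one, Matrix.cons_val_zero, cPrev, Fin.cases_zero] at h
        rw [psum_succ, ← h, hE]
        simp [psum_zero]
      | succ j ih =>
        have h := hga ((i, j.succ), 1)
        simp only [gA, gB, gC, Matrix.cons_val_one, Matrix.cons_val_zero, cPrev, Fin.cases_succ] at h
        rw [psum_succ, ← h, hE, ih]
        simp only [Fin.val_castSucc, Fin.val_succ]
        ring
    have hgn : ∀ i (l : Fin (m + 1)), z (gNext i l) = z (nr i) + ssum (l + 1)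
        (fun l => z (nd i l)) := by
      intro i l
      induction l using Fin.reverseInduction with
      | last => simp [gNext, ssum_top]
      | cast j ih =>
        have h := hga ((i, j.succ), 2)
        simp only [gA, gB, gC, Matrix.cons_val, gSelf, Fin.cases_succ] at h
        have h2 : z (gNext i j.castSucc) = z (ng i j) := by simp [gNext]
        rw [h2, ← h, ih, Fin.val_castSucc]
        have h3 := ssum_eq (fun l => z (nd i l)) j.succ
        rw [Fin.val_succ] at h3
        rw [h3, Fin.val_succ]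
        ring
    have h0 : ∀ i, ∑ l, (sv (sg i l) : F) * z (Sum.inl (f l)) = 0 := by
      intro i
      have h := hga ((i, 0), 2)
      simp only [gA, gB, gC, Matrix.cons_val, gSelf, Fin.cases_zero] at h
      rw [hgn, hc, Fin.val_last, psum_top, Finset.sum_add_distrib] at h
      have h3 := ssum_eq (fun l => z (nd i l)) (0 : Fin (m + 1))
      rw [Fin.val_zero, ssum_zero] at h3
      rw [Fin.val_zero] at h
      have h4 : z (nd i 0) + (z (nr i) + ssum (0 + 1) fun l => z (nd i l)) =
          z (nr i) + ∑ l, z (nd i l) := by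
        rw [h3]
        ring
      rw [h4] at h
      have h5 : z (nr i) + ∑ l, z (nd i l) + 0 = z (nr i) + ∑ l, z (nd i l) +
          ∑ l, (sv (sg i l) : F) * z (Sum.inl (f l)) := by
        rw [add_zero, add_assoc]
        exact h
      exact (add_left_cancel h5).symm
    refine ⟨⟨hS, h0⟩, ?_⟩
    intro b
    rw [hval]
    rcases b with ⟨i, l⟩ | ⟨i, l⟩ | ⟨i, j⟩
    · exact hE i l
    · exact hc i l
    · have h2 : z (gNext i j.castSucc) = z (ng i j) := by simp [gNext]
      have h3 := hgn i j.castSucc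
      rw [h2, Fin.val_castSucc] at h3
      exact h3

end Net

end Pool.Agent.MP_dd1803_nt.Aff
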