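import Mathlib
import Pool.Agent.MP_dd1803_nt.Aff.StepLinB

open MvPolynomial

namespace Pool.Agent.MP_dd1803_nt.Aff

section NetB

variable {F : Type} [Field F] {I κ : Type} {m : ℕ}

variable (f : Fin (m + 1) → κ) (sg : I → Fin (m + 1) → Bool)

theorem aeval_phL (z : κ ⊕ PL I m → F) (b : ML I m) : aeval z (phL (F := F) f sg b) =
    Sum.elim (fun p : I × Fin (m + 1) => z (Sum.inr (p.1, some p.2)) +
        (sv (sg p.1 p.2) : F) * z (Sum.inl (f p.2)))
      (Sum.elim
        (fun p : I × Fin (m + 1) => z (Sum.inr (p.1, none)) + psum (p.2 + 1)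
          (fun l => z (Sum.inr (p.1, some l)) + (sv (sg p.1 l) : F) * z (Sum.inl (f l))))
        (fun p : I × Fin m => z (Sum.inr (p.1, none)) + ssum (p.2 + 1)
          (fun l => z (Sum.inr (p.1, some l))))) b := by
  rcases b with p | p | p
  · simp only [phL, Sum.elim_inl, aeval_pE]
  · simp only [phL, Sum.elim_inr, Sum.elim_inl, map_add, aeval_X]
    have h := map_psum (aeval z :
      MvPolynomial (κ ⊕ PL I m) F →ₐ[F] F).toRingHom (p.2 + 1) (fun l => pE (F := F) f sg p.1 l)
    congr 1
    refine h.trans ?_
    congr 1
    funext l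
    exact aeval_pE (F := F) f sg _ p.1 l
  · simp only [phL, Sum.elim_inr, map_add, aeval_X]
    have h := map_ssum (aeval z :
      MvPolynomial (κ ⊕ PL I m) F →ₐ[F] F).toRingHom (p.2 + 1)
      (fun l => (X (Sum.inr (p.1, some l)) : MvPolynomial (κ ⊕ PL I m) F))
    congr 1
    refine h.trans ?_
    congr 1
    funext l
    simp

variable [DecidableEq κ] [DecidableEq I]

theorem hlam_L (b : ML I m) (z : κ ⊕ PL I m → F) (s : F) :
    aeval (Function.update z (Sum.inr (lamL b)) (z (Sum.inr (lamL b)) + s)) (phL (F := F) f sg b) =
      aeval z (phL (F := F) f sg b) + s := by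
  rw [aeval_phL, aeval_phL]
  rcases b with p | p | p
  · simp only [Sum.elim_inl, lamL, Function.update_self]
    rw [Function.update_of_ne (by simp)]
    ring
  · simp only [Sum.elim_inl, Sum.elim_inr, lamL, Function.update_self]
    have h : ∀ l, Function.update z (Sum.inr (p.1, none)) (z (Sum.inr (p.1, none)) + s)
        (Sum.inr (p.1, some l)) = z (Sum.inr (p.1, some l)) := by
      intro l
      rw [Function.update_of_ne (by simp)]
    have h' : ∀ l, Function.update z (Sum.inr (p.1, none)) (z (Sum.inr (p.1, none)) + s)
        (Sum.inl (f l)) = z (Sum.inl (f l)) := by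
      intro l
      rw [Function.update_of_ne (by simp)]
    simp only [h, h']
    ring
  · simp only [Sum.elim_inr, lamL, Function.update_self]
    have h : ∀ l, Function.update z (Sum.inr (p.1, none)) (z (Sum.inr (p.1, none)) + s)
        (Sum.inr (p.1, some l)) = z (Sum.inr (p.1, some l)) := by
      intro l
      rw [Function.update_of_ne (by simp)]
    simp only [h]
    ring

/-- The coefficient of a parameter in a coordinate. -/
def cfL (β : PL I m ⊕ ML I m) (q : PL I m) : ℕ :=
  match β, q with
  | Sum.inl p, q => if q = p then 1 else 0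
  | Sum.inr (Sum.inl p), q => if q = (p.1, some p.2) then 1 else 0
  | Sum.inr (Sum.inr (Sum.inl p)), (i, none) => if i = p.1 then 1 else 0
  | Sum.inr (Sum.inr (Sum.inl p)), (i, some l) => if i = p.1 ∧ (l : ℕ) < p.2 + 1 then 1 else 0
  | Sum.inr (Sum.inr (Sum.inr p)), (i, none) => if i = p.1 then 1 else 0
  | Sum.inr (Sum.inr (Sum.inr p)), (i, some l) => if i = p.1 ∧ (p.2 : ℕ) + 1 ≤ l then 1 else 0

theorem cfL_spec (x : κ → F) (β : PL I m ⊕ ML I m) (q : PL I m) :
    aeval (Sum.elim x (Pi.single q (1 : F))) (fn (phL (F := F) f sg) (Sum.inr β)) -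
      aeval (Sum.elim x 0) (fn (phL (F := F) f sg) (Sum.inr β)) = cfL β q := by
  rcases β with p | b
  · simp only [fn, Sum.elim_inr, Sum.elim_inl, aeval_X, cfL, Pi.zero_apply, sub_zero]
    by_cases h : q = p
    · subst h; simp
    · rw [if_neg h, Pi.single_eq_of_ne (Ne.symm h)]; simp
  · simp only [fn, Sum.elim_inr, aeval_phL]
    rcases b with p | p | p
    · simp only [Sum.elim_inl, cfL, Pi.zero_apply, zero_add, add_sub_cancel_right]
      by_cases h : q = (p.1, some p.2)
      · subst h; simp
      · rw [if_neg h, Pi.single_eq_of_ne (Ne.symm h)]; simp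
    · simp only [Sum.elim_inl, Sum.elim_inr, Pi.zero_apply, zero_add]
      rcases q with ⟨i, q | l⟩
      · simp only [cfL]
        have h : ∀ l, (Pi.single (i, none) (1 : F) : PL I m → F) (p.1, some l) = 0 := by
          intro l
          rw [Pi.single_eq_of_ne (by simp)]
        simp only [h, zero_add]
        by_cases h : i = p.1
        · subst h; simp
        · rw [if_neg h, Pi.single_eq_of_ne (by simpa using Ne.symm h)]; simp
      · simp only [cfL]
        have h : (Pi.single (i, some l) (1 : F) : PL I m → F) (p.1, none) = 0 := by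
          rw [Pi.single_eq_of_ne (by simp)]
        rw [h, zero_add]
        unfold psum
        rw [← Finset.sum_sub_distrib]
        beta_reduce
        rw [Finset.sum_eq_single l]
        · by_cases h1 : (l : ℕ) < p.2 + 1
          · rw [if_pos h1, if_pos h1]
            by_cases h2 : i = p.1
            · subst h2; simp [h1]
            · rw [if_neg (fun h => h2 h.1), Pi.single_eq_of_ne (by
                intro h3
                exact h2 (Prod.mk.inj h3).1.symm)]
              simp
          · rw [if_neg h1, if_neg h1, if_neg (fun h => h1 h.2)]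
            simp
        · intro l' _ hl
          rw [Pi.single_eq_of_ne (by
            intro h3
            simp only [Prod.mk.injEq, Option.some.injEq] at h3
            exact hl h3.2)]
          simp
        · intro h
          exact absurd (Finset.mem_univ l) h
    · simp only [Sum.elim_inr, Pi.zero_apply, zero_add]
      rcases q with ⟨i, q | l⟩
      · simp only [cfL]
        have h : ∀ l, (Pi.single (i, none) (1 : F) : PL I m → F) (p.1, some l) = 0 := by
          intro l
          rw [Pi.single_eq_of_ne (by simp)]
        simp only [h]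
        by_cases h : i = p.1
        · subst h; simp
        · rw [if_neg h, Pi.single_eq_of_ne (by simpa using Ne.symm h)]; simp
      · simp only [cfL]
        have h : (Pi.single (i, some l) (1 : F) : PL I m → F) (p.1, none) = 0 := by
          rw [Pi.single_eq_of_ne (by simp)]
        rw [h, zero_add]
        unfold ssum
        rw [← Finset.sum_sub_distrib]
        beta_reduce
        rw [Finset.sum_eq_single l]
        · by_cases h1 : (p.2 : ℕ) + 1 ≤ l
          · rw [if_pos h1, if_pos h1]
            by_cases h2 : i = p.1
            · subst h2; simp [h1]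
            · rw [if_neg (fun h => h2 h.1), Pi.single_eq_of_ne (by
                intro h3
                exact h2 (Prod.mk.inj h3).1.symm)]
              simp
          · rw [if_neg h1, if_neg h1, if_neg (fun h => h1 h.2)]
            simp
        · intro l' _ hl
          rw [Pi.single_eq_of_ne (by
            intro h3
            simp only [Prod.mk.injEq, Option.some.injEq] at h3
            exact hl h3.2)]
          simp
        · intro h
          exact absurd (Finset.mem_univ l) h

/-- Only the parameters `d` and the nodes `E` share their coefficients. -/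
theorem cfL_inj {β β' : PL I m ⊕ ML I m} (h : ∀ q, cfL β q = cfL β' q) : β = β' ∨
    ∃ p : I × Fin (m + 1), (β = Sum.inl (p.1, some p.2) ∧ β' = Sum.inr (Sum.inl p)) ∨
      (β' = Sum.inl (p.1, some p.2) ∧ β = Sum.inr (Sum.inl p)) := by
  rcases β with ⟨i, _ | l⟩ | ⟨i, l⟩ | ⟨i, l⟩ | ⟨i, j⟩ <;>
    rcases β' with ⟨i', _ | l'⟩ | ⟨i', l'⟩ | ⟨i', l'⟩ | ⟨i', j'⟩ <;>
    have h1 := h (i, none) <;> have h2 := h (i', none) <;> have h3 := h (i, some 0) <;>
    have h4 := h (i', some 0) <;> have h5 := h (i, some (Fin.last m)) <;>
    have h6 := h (i', some (Fin.last m))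
  case inl.none.inl.none => left; simpa [cfL] using h1
  case inl.none.inl.some => simp [cfL] at h1
  case inl.none.inr.inl => simp [cfL] at h1
  case inl.none.inr.inr.inl => simp [cfL] at h4
  case inl.none.inr.inr.inr => have := j'.isLt; simp [cfL] at h6
  case inl.some.inl.none => simp [cfL] at h2
  case inl.some.inl.some => left; have := h (i, some l); simpa [cfL] using this
  case inl.some.inr.inl => right; refine ⟨(i, l), Or.inl ?_⟩; have := h (i, some l); simpa [cfL, eq_comm] using this
  case inl.some.inr.inr.inl => simp [cfL] at h2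
  case inl.some.inr.inr.inr => simp [cfL] at h2
  case inr.inl.inl.none => simp [cfL] at h2
  case inr.inl.inl.some => right; refine ⟨(i, l), Or.inr ?_⟩; have := h (i, some l); simpa [cfL, eq_comm] using this
  case inr.inl.inr.inl => left; have := h (i, some l); simpa [cfL] using this
  case inr.inl.inr.inr.inl => simp [cfL] at h2
  case inr.inl.inr.inr.inr => simp [cfL] at h2
  case inr.inr.inl.inl.none => simp [cfL] at h3
  case inr.inr.inl.inl.some => simp [cfL] at h1
  case inr.inr.inl.inr.inl => simp [cfL] at h1
  case inr.inr.inl.inr.inr.inl => 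
    simp only [cfL, if_true] at h1
    have hi : i = i' := by
      by_contra hc
      rw [if_neg hc] at h1
      exact one_ne_zero h1
    subst hi
    have h7 := h (i, some l)
    have h8 := h (i, some l')
    simp [cfL] at h7 h8
    left
    rw [Fin.ext (show (l : ℕ) = l' by omega)]
  case inr.inr.inl.inr.inr.inr => 
    simp only [cfL, if_true] at h1
    have hi : i = i' := by
      by_contra hc
      rw [if_neg hc] at h1
      exact one_ne_zero h1
    subst hi
    simp [cfL] at h3
  case inr.inr.inr.inl.none => have := j.isLt; simp [cfL] at h5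
  case inr.inr.inr.inl.some => simp [cfL] at h1
  case inr.inr.inr.inr.inl => simp [cfL] at h1
  case inr.inr.inr.inr.inr.inl => 
    simp only [cfL, if_true] at h1
    have hi : i = i' := by
      by_contra hc
      rw [if_neg hc] at h1
      exact one_ne_zero h1
    subst hi
    simp [cfL] at h3
  case inr.inr.inr.inr.inr.inr => 
    simp only [cfL, if_true] at h1
    have hi : i = i' := by
      by_contra hc
      rw [if_neg hc] at h1
      exact one_ne_zero h1
    subst hi
    have h7 := h (i, some j.succ)
    have h8 := h (i, some j'.succ)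
    simp [cfL] at h7 h8
    left
    rw [Fin.ext (show (j : ℕ) = j' by omega)]

end NetB

section Final

variable {F : Type} [Field F] [IsAlgClosed F] [CharZero F] [SpStr F] {κ I : Type} [Fintype κ]
  [Fintype I]

open SpStr

/-- The sets of points with one coordinate equal to `c`. -/
def Cz (κ : Type) (c : F) : Set (Set (κ → F)) := {G | ∃ k, G = {z : κ → F | z k = c}}

theorem finite_maxF_lin (hA : ∀ k, (MaxE k (AA F k)).Finite) (g : I → (κ → F) → F)
    (hg : ∀ i, IsL (g i)) {S : Set (κ → F)} (hS : SpC S) :
    (MaxF (Cz κ (0 : F)) (Fintype.card I) (zs g S)).Finite := by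
  classical
  rcases isEmpty_or_nonempty κ with hκ | hκ
  · exact Set.toFinite _
  choose L hL using hg
  obtain ⟨m, f, sg, hrep⟩ := exists_signs (F := F) L
  have hV : zs g S = zs (fun (i : I) (z : κ → F) => ∑ l, (sv (sg i l) : F) * z (f l)) S := by
    ext z
    apply and_congr Iff.rfl
    apply forall_congr'
    intro i
    have h1 := hrep i z
    rw [← hL] at h1
    change _ ↔ ∑ l, (((if sg i l then 1 else -1 : ℤ) : ℤ) : F) * z (f l) = 0
    rw [← h1]
    constructor
    · intro h
      rw [h, mul_zero]
    · intro h
      exact (mul_eq_zero.mp h).resolve_left two_ne_zero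
  have hVc : ZClosed (zs g S) := by
    have h : zs g S = S ∩ ⋂ i, zp (∑ k, C ((L i k : ℤ) : F) * MvPolynomial.X k) := by
      ext z
      rw [Set.mem_inter_iff, Set.mem_iInter]
      apply and_congr Iff.rfl
      apply forall_congr'
      intro i
      rw [mem_zp, hL]
      simp [co]
    rw [h]
    exact hS.closed.inter (ZClosed.iInter fun i => zclosed_zp _)
  have hcard : Fintype.card ((I × Fin (m + 1)) × Fin 3) = Fintype.card I +
      Fintype.card (ML I m) := by
    simp only [ML, Fintype.card_prod, Fintype.card_sum, Fintype.card_fin]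
    ring
  refine finite_maxF_graph hVc (C' := ∅) (phL (F := F) f sg) lamL (fun b z s => hlam_L f sg b z s)
    ?_ ?_ ?_
  · intro X hX β β' hβ
    by_contra hcon
    push Not at hcon
    obtain ⟨hXE, hXC⟩ := mem_maxF.mp hX
    have hXi := MaxE.irr hXE
    obtain ⟨x, hx⟩ := hXi.nonempty
    have h1 : ∀ q, cfL β q = cfL β' q := by
      intro q
      have h2 := cfL_spec (F := F) f sg x β q
      have h3 := cfL_spec (F := F) f sg x β' q
      rw [hcon _ (elim_mem_prodSet.mpr ⟨hx, trivial⟩),
        hcon (Sum.elim x 0) (elim_mem_prodSet.mpr ⟨hx, trivial⟩), h3] at h2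
      exact_mod_cast h2.symm
    rcases cfL_inj h1 with h2 | ⟨p, h2⟩
    · exact hβ h2
    · have h3 : ∀ x ∈ X, x (f p.2) = 0 := by
        intro x hx
        have h4 := hcon (Sum.elim x 0) (elim_mem_prodSet.mpr ⟨hx, trivial⟩)
        have h5 : aeval (Sum.elim x (0 : PL I m → F)) (fn (phL (F := F) f sg)
            (Sum.inr (Sum.inl (p.1, some p.2)))) = 0 := by
          simp [fn]
        have h6 : aeval (Sum.elim x (0 : PL I m → F)) (fn (phL (F := F) f sg)
            (Sum.inr (Sum.inr (Sum.inl p)))) = (sv (sg p.1 p.2) : F) * x (f p.2) := by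
          simp only [fn, Sum.elim_inr, aeval_phL, Sum.elim_inl, Pi.zero_apply, zero_add]
        have h7 : (sv (sg p.1 p.2) : F) * x (f p.2) = 0 := by
          rcases h2 with ⟨rfl, rfl⟩ | ⟨rfl, rfl⟩
          · rw [← h6, ← h4, h5]
          · rw [← h6, h4, h5]
        refine (mul_eq_zero.mp h7).resolve_left ?_
        unfold sv
        split_ifs <;> simp
      exact hXC _ ⟨f p.2, rfl⟩ h3
  · intro X hX c hc
    exact absurd hc (Set.notMem_empty c)
  · rw [maxF_empty, ← hcard, hV, graph_eq_gates]
    exact finite_maxE_inter' (hS.pull _) (finite_maxE_ga hA _ _ _)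

end Final

end Pool.Agent.MP_dd1803_nt.Aff
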