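import Mathlib
import Pool.Agent.MP_dd1803_nt.Aff.StepLinC

open MvPolynomial

namespace Pool.Agent.MP_dd1803_nt.Aff

section Sat

variable {F : Type} [Field F] [IsAlgClosed F] [CharZero F] [SpStr F] {κ τ I : Type} [Fintype κ]
  [Fintype τ] [Fintype I]

open SpStr

omit [IsAlgClosed F] [CharZero F] [SpStr F] [Fintype κ] [Fintype τ] [Fintype I] in
theorem zclosed_of_poly {f : (κ → F) → F} {p : MvPolynomial κ F} (h : ∀ z, f z = aeval (co z) p) :
    ZClosed {z | f z = 0} := by
  have h1 : {z | f z = 0} = zp p := by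
    ext z
    rw [mem_zp, ← h]
    rfl
  rw [h1]
  exact zclosed_zp _

omit [IsAlgClosed F] [SpStr F] [Fintype I] in
theorem IsH.closed {P : F → F} {pP : Polynomial F} (hP : ∀ x, P x = pP.eval x) {t : τ → κ}
    {g : (κ → F) → F} (hg : IsH P t g) : ZClosed {z | g z = 0} := by
  obtain ⟨L, A, h⟩ := hg
  apply zclosed_of_poly (p := ∑ i, C ((L i : ℤ) : F) * MvPolynomial.X i +
    ∑ s, C ((A s : ℤ) : F) * Polynomial.aeval (MvPolynomial.X (t s)) pP)
  intro z
  rw [h, map_add, map_sum, map_sum]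
  congr 1
  · apply Finset.sum_congr rfl
    intro i _
    simp [co]
  · apply Finset.sum_congr rfl
    intro s _
    rw [map_mul, aeval_C, hP]
    congr 1
    rw [← Polynomial.aeval_algHom_apply, aeval_X]
    rfl

/-- Values of the quadratic polynomial are replaced by sums of neighbours. -/
theorem finite_maxF_sat (hA : ∀ k, (MaxE k (AA F k)).Finite) {α β : F}
    (h2s : ∀ x y1 y2 y3 : F, rel 2 x y1 → rel 2 x y2 → rel 2 x y3 →
      y1 ≠ y2 → y1 ≠ y3 → y2 ≠ y3 → y1 + y2 + y3 = x ^ 2 + α * x + β)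
    (t : τ → κ) (g : I → (κ → F) → F) (hg : ∀ i, IsH (fun x => x ^ 2 + α * x + β) t (g i))
    {S : Set (κ → F)} (hS : SpC S) {C : Set (Set (κ → F))} (hC0 : Cz κ (0 : F) ⊆ C)
    (hCt : ∀ s c, {z : κ → F | z (t s) = c} ∈ C) :
    (MaxF C (Fintype.card I) (zs g S)).Finite := by
  classical
  have hg' := hg
  choose L A hLA using hg
  let g' : I → (κ ⊕ (τ × Fin 3) → F) → F := fun i y =>
    ∑ k, (L i k : F) * y (Sum.inl k) + ∑ s, (A i s : F) * ∑ l, y (Sum.inr (s, l))
  have hg'L : ∀ i, IsL (g' i) := by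
    intro i
    apply IsL.add
    · apply IsL.sum
      intro k _
      exact (IsL.coord (Sum.inl k)).smul _
    · apply IsL.sum
      intro s _
      apply IsL.smul
      apply IsL.sum
      intro l _
      exact IsL.coord (Sum.inr (s, l))
  let S' : Set (κ ⊕ (τ × Fin 3) → F) := pull Sum.inl ⁻¹' S ∩
    ⋂ p : τ × Fin 3, RS 2 (Sum.inl (t p.1)) (Sum.inr p)
  have hS' : SpC S' := (hS.pull Sum.inl).inter (SpC.iInter fun p => spC_RS (by norm_num) _ _)
  have hmemS' : ∀ y : κ ⊕ (τ × Fin 3) → F, y ∈ S' ↔ y ∘ Sum.inl ∈ S ∧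
      ∀ p : τ × Fin 3, rel 2 (y (Sum.inl (t p.1))) (y (Sum.inr p)) := by
    intro y
    simp only [S', Set.mem_inter_iff, Set.mem_iInter, mem_RS]
    rfl
  have hfin := finite_maxF_lin hA g' hg'L hS'
  have hVc : ZClosed (zs g S) := by
    have h : zs g S = S ∩ ⋂ i, {z | g i z = 0} := by
      ext z
      rw [Set.mem_inter_iff, Set.mem_iInter]
      rfl
    rw [h]
    exact hS.closed.inter (ZClosed.iInter fun i => (hg' i).closed
      (pP := Polynomial.X ^ 2 + Polynomial.C α * Polynomial.X + Polynomial.C β) (by intro x; simp))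
  have hV'c : ZClosed (zs g' S') := by
    have h : zs g' S' = S' ∩ ⋂ i, {z | g' i z = 0} := by
      ext z
      rw [Set.mem_inter_iff, Set.mem_iInter]
      rfl
    rw [h]
    refine hS'.closed.inter (ZClosed.iInter fun i => ?_)
    have h2 := (hg'L i).isH (τ := Empty) (fun _ => 0) Empty.elim
    exact h2.closed (pP := 0) (by intro x; simp)
  refine finite_maxF_of_ext hVc (D := 0) (Sum.inl : κ → κ ⊕ (τ × Fin 3)) Sum.inl_injective ∅
    (by simp) hfin ?_
  intro X hX
  obtain ⟨hXE, hXC⟩ := mem_maxF.mp hX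
  have hXi := MaxE.irr hXE
  have hXV := MaxE.subset hXE
  let E : Set F := {x | ¬ ∃ y1 y2 y3, rel 2 x y1 ∧ rel 2 x y2 ∧ rel 2 x y3 ∧
    y1 ≠ y2 ∧ y1 ≠ y3 ∧ y2 ≠ y3}
  have hE : E.Finite := two_three (F := F)
  let W : Set (κ ⊕ (τ × Fin 3) → F) := zs g' S' ∩ pull Sum.inl ⁻¹' X
  have hWc : ZClosed W := hV'c.inter ((ratMap_pull Set.univ _).preimage_closed hXi.closed)
  let good : Set (κ ⊕ (τ × Fin 3) → F) → Prop := fun Y => ∀ s : τ, ∀ l l' : Fin 3, l ≠ l' →
    ∃ y ∈ Y, y (Sum.inr (s, l)) ≠ y (Sum.inr (s, l'))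
  let T : Finset (Set (κ → F)) :=
    ((Finset.univ ×ˢ hE.toFinset).image fun p : τ × F => {z : κ → F | z (t p.1) = p.2}) ∪
    (((finite_comp hWc).toFinset.filter good).image fun Y => cl F (pull Sum.inl '' Y))
  obtain ⟨Z, hZ, hXZ⟩ := hXi.pirr.subset_of_finset T (by
    intro Z hZ
    rcases Finset.mem_union.mp hZ with h | h
    · obtain ⟨p, _, rfl⟩ := Finset.mem_image.mp h
      exact zclosed_coord _ _
    · obtain ⟨Y, _, rfl⟩ := Finset.mem_image.mp h
      exact zclosed_cl _) (by
    intro x hx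
    by_cases hxE : ∃ s, x (t s) ∈ E
    · obtain ⟨s, hs⟩ := hxE
      refine Set.mem_biUnion (x := {z : κ → F | z (t s) = x (t s)}) ?_ rfl
      apply Finset.mem_union_left
      apply Finset.mem_image.mpr
      exact ⟨(s, x (t s)), by simp [hs], rfl⟩
    · push Not at hxE
      have h1 : ∀ s, ∃ y : Fin 3 → F, (∀ l, rel 2 (x (t s)) (y l)) ∧ Function.Injective y := by
        intro s
        have h2 := hxE s
        simp only [E, Set.mem_ofPred_eq, not_not] at h2
        obtain ⟨y1, y2, y3, h3, h4, h5, h6, h7, h8⟩ := h2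
        refine ⟨![y1, y2, y3], ?_, ?_⟩
        · intro l
          fin_cases l
          · exact h3
          · exact h4
          · exact h5
        · intro l l' h
          fin_cases l <;> fin_cases l' <;> simp_all
      choose y hy hyi using h1
      let w : κ ⊕ (τ × Fin 3) → F := Sum.elim x (fun p => y p.1 p.2)
      have hw : w ∈ W := by
        refine ⟨⟨?_, ?_⟩, hx⟩
        · rw [hmemS']
          exact ⟨(hXV hx).1, fun p => hy p.1 p.2⟩
        · intro i
          have h2 := (hXV hx).2 i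
          rw [hLA] at h2
          simp only [g', w, Sum.elim_inl, Sum.elim_inr]
          rw [← h2]
          congr 1
          apply Finset.sum_congr rfl
          intro s _
          congr 1
          rw [Fin.sum_univ_three]
          exact h2s _ _ _ _ (hy s 0) (hy s 1) (hy s 2) (fun h => by simpa using hyi s h)
            (fun h => by simpa using hyi s h) (fun h => by simpa using hyi s h)
      obtain ⟨Y, hY, hwY⟩ := exists_comp_mem hWc hw
      refine Set.mem_biUnion (x := cl F (pull Sum.inl '' Y)) ?_ (subset_cl _ ⟨w, hwY, rfl⟩)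
      apply Finset.mem_union_right
      apply Finset.mem_image_of_mem
      rw [Finset.mem_filter]
      refine ⟨by simpa using hY, ?_⟩
      intro s l l' hl
      exact ⟨w, hwY, fun h => hl (hyi s h)⟩)
  rcases Finset.mem_union.mp hZ with h | h
  · obtain ⟨p, _, rfl⟩ := Finset.mem_image.mp h
    exact absurd hXZ (hXC _ (hCt _ _))
  obtain ⟨X', hX', rfl⟩ := Finset.mem_image.mp h
  obtain ⟨hX'1, hgood⟩ := Finset.mem_filter.mp hX'
  have hcomp : Comp W X' := by simpa using hX'1
  have hX'i := hcomp.irr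
  have hX'W := hcomp.subset
  have hpX : pull Sum.inl '' X' ⊆ X := by
    rintro _ ⟨y, hy, rfl⟩
    exact (hX'W hy).2
  refine ⟨X', hX'i, hX'W.trans Set.inter_subset_left, hXZ, ?_, ?_, ?_, ?_, ?_⟩
  · have h1 := rk_le_pull_add hX'i.pirr (e := (Sum.inl : κ → κ ⊕ (τ × Fin 3))) Sum.inl_injective ∅
      (by
      intro i hi _
      rcases i with i | p
      · exact absurd ⟨i, rfl⟩ hi
      · right
        right
        refine ⟨t p.1, Rl.symm ⟨2, by norm_num, ?_⟩⟩
        intro y hy
        exact ((hmemS' y).mp (hX'W hy).1.1).2 p)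
    exact h1.trans (add_le_add_left (rk_mono hpX) _)
  · have h1 := td_mono (k := F) hXi.pirr (hX'i.pirr.pull (Sum.inl : κ → κ ⊕ (τ × Fin 3))).cl.pirr hXZ
    rw [td_cl] at h1
    have h2 := td_pull_le (k := F) hX'i.pirr (Sum.inl : κ → κ ⊕ (τ × Fin 3))
    omega
  · rintro c ⟨i, rfl⟩ hc
    rcases i with i | p
    · apply hXC _ (hC0 ⟨i, rfl⟩)
      refine hXZ.trans (cl_subset ?_ (zclosed_coord _ _))
      rintro _ ⟨y, hy, rfl⟩
      exact hc hy
    · obtain ⟨a, _, ha⟩ := const_of_finite' hX'i.pirr (fin_left (F := F) 2 (by norm_num) 0)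
        (i := (Sum.inl (t p.1) : κ ⊕ (τ × Fin 3))) (by
        intro y hy
        have h1 := ((hmemS' y).mp (hX'W hy).1.1).2 p
        have h2 : y (Sum.inr p) = 0 := hc hy
        rw [h2] at h1
        exact SpStr.symm 2 (by norm_num) _ _ h1)
      apply hXC _ (hCt p.1 a)
      refine hXZ.trans (cl_subset ?_ (zclosed_coord _ _))
      rintro _ ⟨y, hy, rfl⟩
      exact ha y hy
  · intro b hb
    exact absurd hb (Finset.notMem_empty b)
  · intro Y hY hYV hXY _
    refine ⟨?_, ?_⟩
    · -- the three neighbours are generically different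
      let D : Set (κ ⊕ (τ × Fin 3) → F) := ⋃ p ∈ (Finset.univ : Finset (τ × Fin 3 × Fin 3)).filter
        (fun p => p.2.1 ≠ p.2.2), {y | y (Sum.inr (p.1, p.2.1)) = y (Sum.inr (p.1, p.2.2))}
      have hcl2 : ∀ p : τ × Fin 3 × Fin 3, ZClosed {y : κ ⊕ (τ × Fin 3) → F |
          y (Sum.inr (p.1, p.2.1)) = y (Sum.inr (p.1, p.2.2))} := by
        intro p
        have h1 : {y : κ ⊕ (τ × Fin 3) → F | y (Sum.inr (p.1, p.2.1)) = y (Sum.inr (p.1, p.2.2))} =
            zp (MvPolynomial.X (Sum.inr (p.1, p.2.1)) - MvPolynomial.X (Sum.inr (p.1, p.2.2))) := by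
          ext y
          rw [mem_zp, map_sub, aeval_X, aeval_X, sub_eq_zero]
          rfl
        rw [h1]
        exact zclosed_zp _
      have hD : ZClosed D := ZClosed.finset_biUnion _ (fun p _ => hcl2 p)
      have hYD : ¬ Y ⊆ D := by
        intro hYD
        obtain ⟨Z, hZ, hYZ⟩ := hY.pirr.subset_of_finset
          (((Finset.univ : Finset (τ × Fin 3 × Fin 3)).filter (fun p => p.2.1 ≠ p.2.2)).image
            fun p => {y : κ ⊕ (τ × Fin 3) → F | y (Sum.inr (p.1, p.2.1)) = y (Sum.inr (p.1, p.2.2))})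
          (by
          intro Z hZ
          obtain ⟨p, _, rfl⟩ := Finset.mem_image.mp hZ
          exact hcl2 p) (by
          intro y hy
          have h1 := hYD hy
          simp only [D, Set.mem_iUnion] at h1
          obtain ⟨p, hp, hyp⟩ := h1
          exact Set.mem_biUnion (Finset.mem_image_of_mem _ hp) hyp)
        obtain ⟨p, hp, rfl⟩ := Finset.mem_image.mp hZ
        obtain ⟨y, hy, hne⟩ := hgood p.1 p.2.1 p.2.2 (Finset.mem_filter.mp hp).2
        exact hne (hYZ (hXY hy))
      have key : Y ⊆ pull Sum.inl ⁻¹' (zs g S) := by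
        apply hY.pirr.subset_of_diff hD hYD ((ratMap_pull Set.univ _).preimage_closed hVc)
        rintro y ⟨hy, hyD⟩
        have hyV := hYV hy
        have h1 := (hmemS' y).mp hyV.1
        refine ⟨h1.1, fun i => ?_⟩
        rw [hLA]
        have h2 := hyV.2 i
        simp only [g'] at h2
        rw [← h2]
        congr 1
        apply Finset.sum_congr rfl
        intro s _
        congr 1
        rw [Fin.sum_univ_three]
        symm
        have hne : ∀ l l' : Fin 3, l ≠ l' → y (Sum.inr (s, l)) ≠ y (Sum.inr (s, l')) := by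
          intro l l' hl h
          apply hyD
          simp only [D, Set.mem_iUnion]
          exact ⟨(s, l, l'), Finset.mem_filter.mpr ⟨Finset.mem_univ _, hl⟩, h⟩
        exact h2s _ _ _ _ (h1.2 (s, 0)) (h1.2 (s, 1)) (h1.2 (s, 2)) (hne 0 1 (by simp))
          (hne 0 2 (by simp)) (hne 1 2 (by simp))
      rintro _ ⟨y, hy, rfl⟩
      exact key hy
    · have h1 := td_le_pull (k := F) hY.pirr (e := (Sum.inl : κ → κ ⊕ (τ × Fin 3)))
        Sum.inl_injective (Set.range (Sum.inl : κ → κ ⊕ (τ × Fin 3))) (by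
        intro i
        rcases i with i | p
        · apply isAlgebraic_of_mem_adjoin hY.pirr
          exact Algebra.subset_adjoin ⟨Sum.inl i, ⟨i, rfl⟩, rfl⟩
        · refine isAlgebraic_gen_of_rl hY.pirr (a := Sum.inl (t p.1)) (Set.range Sum.inl)
            ⟨t p.1, rfl⟩ ?_
          apply Rl.symm
          refine ⟨2, by norm_num, ?_⟩
          intro y hy
          exact ((hmemS' y).mp (hYV hy).1).2 p)
      rw [sdiff_self, Set.bot_eq_empty, Set.ncard_empty] at h1
      exact h1

end Sat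

end Pool.Agent.MP_dd1803_nt.Aff
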