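import Mathlib
import Pool.Agent.MP_dd1803_nt.Aff.Sat

open MvPolynomial

namespace Pool.Agent.MP_dd1803_nt.Aff

section NotConst

variable {F : Type} [Field F] {κ P M : Type} [DecidableEq (κ ⊕ P)]

/-- Parameters and nodes are not constant on a graph. -/
theorem not_const_graph (φ : M → MvPolynomial (κ ⊕ P) F) {X : Set (κ → F)} (hX : X.Nonempty)
    (lam : M → P)
    (hlam : ∀ b (z : κ ⊕ P → F) (s : F),
      aeval (Function.update z (Sum.inr (lam b)) (z (Sum.inr (lam b)) + s)) (φ b) =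
        aeval z (φ b) + s) (β : P ⊕ M) (c : F) :
    ¬ graphSet φ X ⊆ {z | z (Sum.inr β) = c} := by
  intro h
  obtain ⟨x, hx⟩ := hX
  obtain ⟨q, hq⟩ : ∃ q : P, ∀ (z : κ ⊕ P → F) (s : F),
      aeval (Function.update z (Sum.inr q) (z (Sum.inr q) + s)) (fn φ (Sum.inr β)) =
        aeval z (fn φ (Sum.inr β)) + s := by
    rcases β with q | b
    · refine ⟨q, fun z s => ?_⟩
      simp [fn]
    · exact ⟨lam b, fun z s => hlam b z s⟩
  have h1 := h (a := gmap φ (Sum.elim x 0)) (by
    rw [graphSet_eq]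
    exact ⟨_, elim_mem_prodSet.mpr ⟨hx, trivial⟩, rfl⟩)
  have h2 := h (a := gmap φ (Function.update (Sum.elim x 0) (Sum.inr q)
      ((Sum.elim x (0 : P → F)) (Sum.inr q) + 1))) (by
    rw [graphSet_eq]
    refine ⟨_, ⟨?_, trivial⟩, rfl⟩
    have : Function.update (Sum.elim x (0 : P → F)) (Sum.inr q)
        ((Sum.elim x (0 : P → F)) (Sum.inr q) + 1) ∘ Sum.inl = x := by
      funext i
      rw [Function.comp_apply, Function.update_of_ne (by simp)]
      rfl
    rw [this]
    exact hx)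
  have h3 : aeval (Sum.elim x (0 : P → F)) (fn φ (Sum.inr β)) = c := h1
  have h4 : aeval (Function.update (Sum.elim x (0 : P → F)) (Sum.inr q)
      ((Sum.elim x (0 : P → F)) (Sum.inr q) + 1)) (fn φ (Sum.inr β)) = c := h2
  rw [hq, h3] at h4
  simp at h4

end NotConst

section Quad

variable {F : Type} [Field F] {κ : Type}

def qA : Fin 3 → ℤ := ![1, 0, -1]
def qB : Fin 3 → ℤ := ![0, 1, 2]
def qC : Fin 3 → ℤ := ![0, 0, -1]
def qL : Fin 3 → ℤ := ![-1, 2, -1]

/-- parameters and nodes -/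
abbrev PQ (κ : Type) : Type := (κ × κ) × Fin 5
abbrev MQ (κ : Type) : Type := (κ × κ) × (Fin 3 × Fin 3)

def qco (c d : Fin 3) : Fin 5 → ℤ := ![1, qA c, qB c, qA d, qB d]

noncomputable def phQ (b : MQ κ) : MvPolynomial (κ ⊕ PQ κ) F :=
  ∑ j, C (qco b.2.1 b.2.2 j : F) * X (Sum.inr (b.1, j)) + C (qC b.2.1 : F) * X (Sum.inl b.1.1) +
    C (qC b.2.2 : F) * X (Sum.inl b.1.2)

theorem aeval_phQ (z : κ ⊕ PQ κ → F) (b : MQ κ) : aeval z (phQ (F := F) b) =
    ∑ j, (qco b.2.1 b.2.2 j : F) * z (Sum.inr (b.1, j)) + (qC b.2.1 : F) * z (Sum.inl b.1.1) +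
    (qC b.2.2 : F) * z (Sum.inl b.1.2) := by
  unfold phQ
  simp only [map_add, map_sum, map_mul, aeval_C, aeval_X, map_intCast]

theorem quad_identity (z : κ ⊕ PQ κ → F) (α β : F) (p : κ × κ) :
    ∑ cd : Fin 3 × Fin 3, ((qL cd.1 * qL cd.2 : ℤ) : F) *
      ((aeval z (phQ (F := F) (p, cd))) ^ 2 + α * aeval z (phQ (F := F) (p, cd)) + β) =
      2 * (z (Sum.inl p.1) * z (Sum.inl p.2)) := by
  simp only [aeval_phQ]
  rw [Fintype.sum_prod_type]
  simp only [Fin.sum_univ_three, Fin.sum_univ_five, qco, qA, qB, qC, qL]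
  simp
  ring

variable [DecidableEq κ]

theorem hlam_Q (b : MQ κ) (z : κ ⊕ PQ κ → F) (s : F) :
    aeval (Function.update z (Sum.inr (b.1, 0)) (z (Sum.inr (b.1, 0)) + s)) (phQ (F := F) b) =
      aeval z (phQ (F := F) b) + s := by
  rw [aeval_phQ, aeval_phQ]
  have h1 : ∀ k : κ, Function.update z (Sum.inr (b.1, (0 : Fin 5)))
      (z (Sum.inr (b.1, (0 : Fin 5))) + s) (Sum.inl k) = z (Sum.inl k) := by
    intro k
    rw [Function.update_of_ne (by simp)]
  have h2 : ∀ j : Fin 5, j ≠ 0 → Function.update z (Sum.inr (b.1, (0 : Fin 5)))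
      (z (Sum.inr (b.1, (0 : Fin 5))) + s) (Sum.inr (b.1, j)) = z (Sum.inr (b.1, j)) := by
    intro j hj
    rw [Function.update_of_ne (by simpa using hj)]
  rw [Fin.sum_univ_five, Fin.sum_univ_five]
  rw [Function.update_self, h1, h1, h2 1 (by simp), h2 2 (by simp), h2 3 (by simp), h2 4 (by simp)]
  have h3 : (qco b.2.1 b.2.2 0 : F) = 1 := by simp [qco]
  rw [h3]
  ring

/-- The coefficient of a parameter in a coordinate. -/
def cfQ (β : PQ κ ⊕ MQ κ) (q : PQ κ) : ℤ :=
  match β with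
  | Sum.inl p => if q = p then 1 else 0
  | Sum.inr b => if q.1 = b.1 then qco b.2.1 b.2.2 q.2 else 0

theorem cfQ_spec (x : κ → F) (β : PQ κ ⊕ MQ κ) (q : PQ κ) :
    aeval (Sum.elim x (Pi.single q (1 : F))) (fn (phQ (F := F)) (Sum.inr β)) -
      aeval (Sum.elim x 0) (fn (phQ (F := F)) (Sum.inr β)) = cfQ β q := by
  rcases β with p | b
  · simp only [fn, Sum.elim_inr, Sum.elim_inl, aeval_X, cfQ, Pi.zero_apply, sub_zero]
    by_cases h : q = p
    · subst h; simp
    · rw [if_neg h, Pi.single_eq_of_ne (Ne.symm h)]; simp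
  · simp only [fn, Sum.elim_inr, aeval_phQ, Sum.elim_inl, Pi.zero_apply, mul_zero,
      Finset.sum_const_zero, zero_add, cfQ]
    rw [add_assoc, add_sub_assoc, sub_self, add_zero]
    rcases q with ⟨q, j⟩
    by_cases h : q = b.1
    · subst h
      rw [Finset.sum_eq_single j]
      · simp
      · intro j' _ hj
        rw [Pi.single_eq_of_ne (by simpa using hj)]
        simp
      · intro h
        exact absurd (Finset.mem_univ j) h
    · rw [if_neg h]
      rw [Finset.sum_eq_zero]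
      · simp
      · intro j' _
        rw [Pi.single_eq_of_ne (by
          intro h1
          exact h (Prod.mk.inj h1).1.symm)]
        simp

theorem qAB_inj {c c' : Fin 3} (h1 : qA c = qA c') (h2 : qB c = qB c') : c = c' := by
  revert h1 h2
  revert c c'
  decide

theorem qAB_ne (c : Fin 3) : ¬ (qA c = 0 ∧ qB c = 0) := by
  revert c
  decide

theorem cfQ_inj {β β' : PQ κ ⊕ MQ κ} (h : ∀ q, cfQ β q = cfQ β' q) : β = β' := by
  have key : ∀ (p : PQ κ) (b : MQ κ), ¬ ∀ q, cfQ (Sum.inl p) q = cfQ (Sum.inr b) q := by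
    intro p b h
    have h0 := h (b.1, 0)
    have h1 := h (b.1, 1)
    have h2 := h (b.1, 2)
    simp only [cfQ, qco] at h0 h1 h2
    simp at h0
    rw [← h0] at h1 h2
    simp at h1 h2
    exact qAB_ne _ ⟨h1.symm, h2.symm⟩
  rcases β with p | b <;> rcases β' with p' | b'
  · have h1 := h p
    simp only [cfQ, if_true] at h1
    by_cases h2 : p = p'
    · rw [h2]
    · rw [if_neg h2] at h1
      exact absurd h1 one_ne_zero
  · exact absurd h (key p b')
  · exact absurd (fun q => (h q).symm) (key p' b)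
  · have h0 := h (b.1, 0)
    simp only [cfQ, qco, if_true] at h0
    have hb : b.1 = b'.1 := by
      by_contra hne
      rw [if_neg hne] at h0
      simp at h0
    have h1 := h (b.1, 1)
    have h2 := h (b.1, 2)
    have h3 := h (b.1, 3)
    have h4 := h (b.1, 4)
    simp only [cfQ, qco, if_true, if_pos hb] at h1 h2 h3 h4
    simp at h1 h2 h3 h4
    have h5 := qAB_inj h1 h2
    have h6 := qAB_inj h3 h4
    obtain ⟨b1, b2, b3⟩ := b
    obtain ⟨b1', b2', b3'⟩ := b'
    simp only at hb h5 h6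
    rw [hb, h5, h6]

end Quad

section StepQ

variable {F : Type} [Field F] [IsAlgClosed F] [CharZero F] [SpStr F] {κ I : Type} [Fintype κ]
  [Fintype I]

open SpStr

omit [IsAlgClosed F] [SpStr F] [Fintype I] in
theorem IsQ.closed {g : (κ → F) → F} (hg : IsQ g) : ZClosed {z | g z = 0} := by
  obtain ⟨L, A, h⟩ := hg
  apply zclosed_of_poly (p := ∑ i, C ((L i : ℤ) : F) * MvPolynomial.X i +
    ∑ p, C ((A p : ℤ) : F) * (MvPolynomial.X p.1 * MvPolynomial.X p.2))
  intro z
  rw [h, map_add, map_sum, map_sum]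
  congr 1
  · apply Finset.sum_congr rfl
    intro i _
    simp [co]
  · apply Finset.sum_congr rfl
    intro s _
    simp [co]

/-- Quadratic equations. -/
theorem finite_maxF_quad (hA : ∀ k, (MaxE k (AA F k)).Finite) (g : I → (κ → F) → F)
    (hg : ∀ i, IsQ (g i)) {S : Set (κ → F)} (hS : SpC S) :
    (MaxF (Cz κ (0 : F)) (Fintype.card I) (zs g S)).Finite := by
  classical
  obtain ⟨α, β, h2s⟩ := two_sum (F := F)
  have hg' := hg
  choose L A hLA using hg
  let N : Type := κ ⊕ (PQ κ ⊕ MQ κ)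
  let t : MQ κ → N := fun b => Sum.inr (Sum.inr b)
  let pa : κ ⊕ PQ κ → N := Sum.elim Sum.inl (Sum.inr ∘ Sum.inl)
  let fb : MQ κ → (N → F) → F := fun b z => z (t b) -
    (∑ j, (qco b.2.1 b.2.2 j : F) * z (pa (Sum.inr (b.1, j))) + (qC b.2.1 : F) * z (pa (Sum.inl b.1.1)) +
    (qC b.2.2 : F) * z (pa (Sum.inl b.1.2)))
  let g' : I ⊕ MQ κ → (N → F) → F := Sum.elim
    (fun i z => 2 * ∑ k, (L i k : F) * z (Sum.inl k) + ∑ p, (A i p : F) *
      ∑ cd : Fin 3 × Fin 3, ((qL cd.1 * qL cd.2 : ℤ) : F) *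
        ((z (t (p, cd))) ^ 2 + α * z (t (p, cd)) + β)) fb
  have hg'H : ∀ i, IsH (fun x => x ^ 2 + α * x + β) t (g' i) := by
    rintro (i | b)
    · apply IsH.add
      · have h1 : IsL (fun z : N → F => ((2 : ℤ) : F) * ∑ k, (L i k : F) * z (Sum.inl k)) := by
          apply IsL.smul
          apply IsL.sum
          intro k _
          exact (IsL.coord _).smul _
        have h2 := h1.isH (fun x => x ^ 2 + α * x + β) t
        simpa using h2
      · apply IsH.sum
        intro p _
        apply IsH.smul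
        apply IsH.sum
        intro cd _
        apply IsH.smul
        exact IsH.val (fun x => x ^ 2 + α * x + β) t (p, cd)
    · apply IsL.isH
      apply (IsL.coord _).sub
      apply IsL.add
      · apply IsL.add
        · apply IsL.sum
          intro j _
          exact (IsL.coord _).smul _
        · exact (IsL.coord _).smul _
      · exact (IsL.coord _).smul _
  have hV : graphSet (phQ (F := F)) (zs g S) = zs g' (pull (Sum.inl : κ → N) ⁻¹' S) := by
    ext z
    have hz : (Sum.elim (z ∘ Sum.inl) (z ∘ Sum.inr ∘ Sum.inl) : κ ⊕ PQ κ → F) = z ∘ pa := by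
      funext i
      rcases i with i | i <;> rfl
    have hb : (∀ b, z (Sum.inr (Sum.inr b)) =
        aeval (Sum.elim (z ∘ Sum.inl) (z ∘ Sum.inr ∘ Sum.inl)) (phQ (F := F) b)) ↔
        ∀ b, fb b z = 0 := by
      apply forall_congr'
      intro b
      rw [hz, aeval_phQ]
      simp only [fb, sub_eq_zero]
      rfl
    have hi : (∀ b, z (t b) = aeval (z ∘ pa) (phQ (F := F) b)) →
        ∀ i, g' (Sum.inl i) z = 2 * g i (z ∘ Sum.inl) := by
      intro hzb i
      simp only [g', Sum.elim_inl]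
      rw [hLA, mul_add]
      congr 1
      rw [Finset.mul_sum]
      apply Finset.sum_congr rfl
      intro p _
      have h1 := quad_identity (z ∘ pa) α β p
      simp only [← hzb] at h1
      rw [h1]
      simp only [Function.comp_apply, pa, Sum.elim_inl]
      ring
    constructor
    · rintro ⟨⟨h1, h2⟩, h3⟩
      refine ⟨h1, ?_⟩
      have h4 : ∀ b, z (t b) = aeval (z ∘ pa) (phQ (F := F) b) := by
        intro b
        rw [← hz]
        exact h3 b
      rintro (i | b)
      · rw [hi h4, h2, mul_zero]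
      · exact hb.mp h3 b
    · rintro ⟨h1, h2⟩
      have h3 := hb.mpr (fun b => h2 (Sum.inr b))
      have h4 : ∀ b, z (t b) = aeval (z ∘ pa) (phQ (F := F) b) := by
        intro b
        rw [← hz]
        exact h3 b
      refine ⟨⟨h1, fun i => ?_⟩, h3⟩
      have h5 := h2 (Sum.inl i)
      rw [hi h4] at h5
      exact (mul_eq_zero.mp h5).resolve_left two_ne_zero
  have hVc : ZClosed (zs g S) := by
    have h : zs g S = S ∩ ⋂ i, {z | g i z = 0} := by
      ext z
      rw [Set.mem_inter_iff, Set.mem_iInter]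
      rfl
    rw [h]
    exact hS.closed.inter (ZClosed.iInter fun i => (hg' i).closed)
  refine finite_maxF_graph hVc (C' := Cz N (0 : F) ∪ {G | ∃ b c, G = {z : N → F | z (t b) = c}})
    (phQ (F := F)) (fun b => (b.1, 0)) hlam_Q ?_ ?_ ?_
  · intro X hX β β' hβ
    by_contra hcon
    push Not at hcon
    obtain ⟨hXE, hXC⟩ := mem_maxF.mp hX
    have hXi := MaxE.irr hXE
    obtain ⟨x, hx⟩ := hXi.nonempty
    apply hβ
    apply cfQ_inj
    intro q
    have h2 := cfQ_spec (F := F) x β q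
    have h3 := cfQ_spec (F := F) x β' q
    rw [hcon _ (elim_mem_prodSet.mpr ⟨hx, trivial⟩),
      hcon (Sum.elim x 0) (elim_mem_prodSet.mpr ⟨hx, trivial⟩), h3] at h2
    exact_mod_cast h2.symm
  · intro X hX c hc
    obtain ⟨hXE, hXC⟩ := mem_maxF.mp hX
    have hXi := MaxE.irr hXE
    rcases hc with ⟨i, rfl⟩ | ⟨b, c, rfl⟩
    · rcases i with i | i
      · intro h
        apply hXC _ ⟨i, rfl⟩
        intro x hx
        obtain ⟨z, hz, rfl⟩ := (pull_inl_graphSet (phQ (F := F)) X).ge hx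
        exact h hz
      · exact not_const_graph (phQ (F := F)) hXi.nonempty _ hlam_Q i 0
    · exact not_const_graph (phQ (F := F)) hXi.nonempty _ hlam_Q (Sum.inr b) c
  · rw [hV, ← Fintype.card_sum]
    apply finite_maxF_sat hA h2s t g' hg'H (hS.pull _) Set.subset_union_left
    intro s c
    exact Set.mem_union_right _ ⟨s, c, rfl⟩

end StepQ

end Pool.Agent.MP_dd1803_nt.Aff
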