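import Mathlib
import Pool.Agent.MP_dd1803_nt.Aff.StepQ

open MvPolynomial

namespace Pool.Agent.MP_dd1803_nt.Aff

section Mon

variable {R : Type} [CommRing R] {κ : Type} [Fintype κ]

/-- the value of a monomial -/
def mon (z : κ → R) (m : κ →₀ ℕ) : R := ∏ k, z k ^ m k

theorem mon_zero (z : κ → R) : mon z 0 = 1 := by simp [mon]

theorem mon_add (z : κ → R) (m m' : κ →₀ ℕ) : mon z (m + m') = mon z m * mon z m' := by
  unfold mon
  rw [← Finset.prod_mul_distrib]
  apply Finset.prod_congr rfl
  intro k _
  rw [Finsupp.add_apply, pow_add]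

theorem mon_single [DecidableEq κ] (z : κ → R) (k : κ) : mon z (Finsupp.single k 1) = z k := by
  unfold mon
  rw [Finset.prod_eq_single k]
  · simp
  · intro l _ hl
    rw [Finsupp.single_eq_of_ne hl, pow_zero]
  · intro h
    exact absurd (Finset.mem_univ k) h

theorem aeval_eq_mon (z : κ → R) (f : MvPolynomial κ ℤ) (A : Finset (κ →₀ ℕ))
    (hA : ∀ m ∈ f.support, m ∈ A) : aeval z f = ∑ m : A, ((coeff m.1 f : ℤ) : R) * mon z m.1 := by
  rw [Finset.sum_coe_sort A (fun m => ((coeff m f : ℤ) : R) * mon z m)]
  rw [aeval_def, eval₂_eq']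
  apply Finset.sum_subset hA
  intro m _ hm
  rw [notMem_support_iff.mp hm]
  simp

end Mon

section Pred

variable {κ : Type} [Fintype κ]

/-- removing one variable from a monomial -/
theorem exists_pred (m : κ →₀ ℕ) (hm : m ≠ 0) : ∃ (k : κ) (m' : κ →₀ ℕ),
    m = m' + Finsupp.single k 1 := by
  obtain ⟨k, hk⟩ : ∃ k, m k ≠ 0 := by
    by_contra hcon
    push Not at hcon
    exact hm (Finsupp.ext hcon)
  refine ⟨k, m - Finsupp.single k 1, ?_⟩
  rw [tsub_add_cancel_of_le]
  rw [Finsupp.single_le_iff]
  omega

end Pred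

section StepP

variable {F : Type} [Field F] [IsAlgClosed F] [CharZero F] [SpStr F] {κ I : Type} [Fintype κ]
  [Fintype I]

open SpStr

omit [IsAlgClosed F] [SpStr F] [Fintype I] [CharZero F] in
theorem zclosed_aeval (f : MvPolynomial κ ℤ) : ZClosed {z : κ → F | aeval z f = 0} := by
  apply zclosed_of_poly (p := MvPolynomial.map (algebraMap ℤ F) f)
  intro z
  rw [aeval_map_algebraMap]
  rfl

/-- Polynomial equations without constant term. -/
theorem finite_maxF_poly0 (hA : ∀ k, (MaxE k (AA F k)).Finite) (f : I → MvPolynomial κ ℤ)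
    (hf : ∀ i, coeff 0 (f i) = 0) {S : Set (κ → F)} (hS : SpC S) :
    (MaxF (Cz κ (0 : F)) (Fintype.card I) (zs (fun i z => aeval z (f i)) S)).Finite := by
  classical
  -- exponents
  let b : κ →₀ ℕ := ∑ i, ∑ m ∈ (f i).support, m
  let A : Finset (κ →₀ ℕ) := (Finset.Iic b).erase 0
  have hmA : ∀ m, m ∈ A ↔ m ≠ 0 ∧ m ≤ b := by
    intro m
    simp [A]
  have hsupp : ∀ i, ∀ m ∈ (f i).support, m ∈ A := by
    intro i m hm
    rw [hmA]
    refine ⟨?_, ?_⟩
    · rintro rfl
      rw [mem_support_iff] at hm
      exact hm (hf i)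
    · have h1 : m ≤ ∑ m ∈ (f i).support, m :=
        Finset.single_le_sum (f := fun m => m) (fun _ _ => zero_le) hm
      have h2 : ∑ m ∈ (f i).support, m ≤ b :=
        Finset.single_le_sum (f := fun i => ∑ m ∈ (f i).support, m) (fun _ _ => zero_le)
          (Finset.mem_univ i)
      exact h1.trans h2
  have hpred : ∀ a : A, ∃ (k : κ) (a' : Option A), a.1 = (a'.elim 0 Subtype.val) +
      Finsupp.single k 1 := by
    intro a
    obtain ⟨h1, h2⟩ := (hmA a.1).mp a.2
    obtain ⟨k, m', hm'⟩ := exists_pred a.1 h1
    by_cases h3 : m' = 0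
    · exact ⟨k, none, by simpa [h3] using hm'⟩
    · refine ⟨k, some ⟨m', (hmA m').mpr ⟨h3, ?_⟩⟩, hm'⟩
      refine le_trans ?_ h2
      rw [hm']
      exact le_self_add
  choose pk pa hpa using hpred
  let N : Type := κ ⊕ (A ⊕ A)
  let df : A → (N → F) → F := fun a z => z (Sum.inr (Sum.inr a)) - z (Sum.inr (Sum.inl a))
  let φ : A → MvPolynomial (κ ⊕ A) F := fun a => X (Sum.inr a) +
    ∏ k, (X (Sum.inl k)) ^ (a.1 k)
  have hφ : ∀ (z : κ ⊕ A → F) (a : A), aeval z (φ a) = z (Sum.inr a) + mon (z ∘ Sum.inl) a.1 := by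
    intro z a
    simp only [φ, map_add, aeval_X, map_prod, map_pow]
    rfl
  let g' : I ⊕ A → (N → F) → F := Sum.elim
    (fun i z => ∑ a : A, ((coeff a.1 (f i) : ℤ) : F) * df a z)
    (fun a z => df a z - (pa a).elim (z (Sum.inl (pk a))) (fun a' => z (Sum.inl (pk a)) * df a' z))
  have hdL : ∀ a, IsL (df a) := fun a => (IsL.coord _).sub (IsL.coord _)
  have hg'Q : ∀ i, IsQ (g' i) := by
    rintro (i | a)
    · apply IsL.isQ
      apply IsL.sum
      intro a _
      exact (hdL a).smul _
    · apply (hdL a).isQ.sub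
      rcases pa a with _ | a'
      · exact (IsL.coord _).isQ
      · simp only [Option.elim_some, df, mul_sub]
        exact (IsQ.mul_coord _ _).sub (IsQ.mul_coord _ _)
  have hV : graphSet φ (zs (fun i z => aeval z (f i)) S) =
      zs g' (pull (Sum.inl : κ → N) ⁻¹' S) := by
    ext z
    have hb : (∀ a, z (Sum.inr (Sum.inr a)) =
        aeval (Sum.elim (z ∘ Sum.inl) (z ∘ Sum.inr ∘ Sum.inl)) (φ a)) ↔
        ∀ a, df a z = mon (z ∘ Sum.inl) a.1 := by
      apply forall_congr'
      intro a
      rw [hφ, Sum.elim_comp_inl, Sum.elim_inr]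
      simp only [df, sub_eq_iff_eq_add, Function.comp_apply]
      rw [add_comm]
    have hi : (∀ a, df a z = mon (z ∘ Sum.inl) a.1) → ∀ i, g' (Sum.inl i) z =
        aeval (z ∘ Sum.inl) (f i) := by
      intro h i
      simp only [g', Sum.elim_inl, h]
      exact (aeval_eq_mon (z ∘ Sum.inl) (f i) A (hsupp i)).symm
    have ha : (∀ a, df a z = mon (z ∘ Sum.inl) a.1) ↔ ∀ a, g' (Sum.inr a) z = 0 := by
      have hmon : ∀ a : A, mon (z ∘ Sum.inl) a.1 = (pa a).elim (z (Sum.inl (pk a)))
          (fun a' => z (Sum.inl (pk a)) * mon (z ∘ Sum.inl) a'.1) := by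
        intro a
        rw [hpa a, mon_add, mon_single]
        rcases pa a with _ | a'
        · simp [mon_zero]
        · simp only [Option.elim_some]
          rw [mul_comm]
          rfl
      constructor
      · intro h a
        simp only [g', Sum.elim_inr, h]
        rw [sub_eq_zero]
        exact hmon a
      · intro h
        have key : ∀ n : ℕ, ∀ a : A, ∑ k, a.1 k ≤ n → df a z = mon (z ∘ Sum.inl) a.1 := by
          intro n
          induction n with
          | zero =>
            intro a ha
            exfalso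
            apply ((hmA a.1).mp a.2).1
            ext k
            have h1 := Finset.single_le_sum (f := fun k => a.1 k) (fun _ _ => Nat.zero_le _)
              (Finset.mem_univ k)
            simp only [Finsupp.coe_zero, Pi.zero_apply]
            omega
          | succ n ih =>
            intro a ha
            have h1 := h a
            simp only [g', Sum.elim_inr, sub_eq_zero] at h1
            rw [h1, hmon a]
            have h2 := hpa a
            generalize pa a = o at h2 ⊢
            rcases o with _ | a'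
            · rfl
            · simp only [Option.elim_some] at h2 ⊢
              rw [ih a']
              rw [h2] at ha
              simp only [Finsupp.add_apply, Finset.sum_add_distrib] at ha
              have h3 : ∑ k', (Finsupp.single (pk a) 1 : κ →₀ ℕ) k' = 1 := by
                rw [Finset.sum_eq_single (pk a)]
                · simp
                · intro l _ hl
                  rw [Finsupp.single_eq_of_ne hl]
                · intro h
                  exact absurd (Finset.mem_univ _) h
              omega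
        intro a
        exact key _ a le_rfl
    constructor
    · rintro ⟨⟨h1, h2⟩, h3⟩
      refine ⟨h1, ?_⟩
      have h4 := hb.mp h3
      rintro (i | a)
      · rw [hi h4]
        exact h2 i
      · exact ha.mp h4 a
    · rintro ⟨h1, h2⟩
      have h4 := ha.mpr (fun a => h2 (Sum.inr a))
      refine ⟨⟨h1, fun i => ?_⟩, hb.mpr h4⟩
      have h5 := h2 (Sum.inl i)
      rw [hi h4] at h5
      exact h5
  have hVc : ZClosed (zs (fun i (z : κ → F) => aeval z (f i)) S) := by
    have h : zs (fun i (z : κ → F) => aeval z (f i)) S = S ∩ ⋂ i, {z | aeval z (f i) = 0} := by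
      ext z
      rw [Set.mem_inter_iff, Set.mem_iInter]
      rfl
    rw [h]
    exact hS.closed.inter (ZClosed.iInter fun i => zclosed_aeval _)
  have hlam : ∀ (a : A) (z : κ ⊕ A → F) (s : F),
      aeval (Function.update z (Sum.inr a) (z (Sum.inr a) + s)) (φ a) = aeval z (φ a) + s := by
    intro a z s
    rw [hφ, hφ, Function.update_self]
    have h1 : Function.update z (Sum.inr a) (z (Sum.inr a) + s) ∘ Sum.inl = z ∘ Sum.inl := by
      funext k
      rw [Function.comp_apply, Function.update_of_ne (by simp)]
      rfl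
    rw [h1]
    ring
  refine finite_maxF_graph hVc (C' := Cz N (0 : F)) φ id hlam ?_ ?_ ?_
  · intro X hX β β' hβ
    by_contra hcon
    push Not at hcon
    obtain ⟨hXE, hXC⟩ := mem_maxF.mp hX
    have hXi := MaxE.irr hXE
    obtain ⟨x, hx⟩ := hXi.nonempty
    -- values
    have hv : ∀ (β : A ⊕ A) (x : κ → F) (y : A → F), aeval (Sum.elim x y) (fn φ (Sum.inr β)) =
        y (Sum.elim id id β) + Sum.elim (fun _ => 0) (fun a : A => mon x a.1) β := by
      intro β x y
      rcases β with a | a
      · simp [fn]
      · simp only [fn, Sum.elim_inr, hφ, id]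
        rfl
    have h1 : ∀ x ∈ X, ∀ y : A → F, y (Sum.elim id id β) +
        Sum.elim (fun _ => 0) (fun a : A => mon x a.1) β =
        y (Sum.elim id id β') + Sum.elim (fun _ => 0) (fun a : A => mon x a.1) β' := by
      intro x hx y
      have := hcon (Sum.elim x y) (elim_mem_prodSet.mpr ⟨hx, trivial⟩)
      rwa [hv, hv] at this
    have h2 : (Sum.elim id id β : A) = Sum.elim id id β' := by
      by_contra hne
      have h3 := h1 x hx 0
      have h4 := h1 x hx (Pi.single (Sum.elim id id β) 1)
      rw [Pi.single_eq_same, Pi.single_eq_of_ne (Ne.symm hne)] at h4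
      simp only [Pi.zero_apply, zero_add] at h3
      rw [h3, zero_add] at h4
      simp at h4
    -- a monomial vanishes on `X`
    have h3 : ∃ a : A, ∀ x ∈ X, mon x a.1 = 0 := by
      rcases β with a | a <;> rcases β' with a' | a'
      · exact absurd (congrArg Sum.inl h2) hβ
      · refine ⟨a', fun x hx => ?_⟩
        have := h1 x hx 0
        simpa using this.symm
      · refine ⟨a, fun x hx => ?_⟩
        have := h1 x hx 0
        simpa using this
      · exact absurd (congrArg Sum.inr h2) hβ
    obtain ⟨a, ha⟩ := h3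
    obtain ⟨Z, hZ, hXZ⟩ := hXi.pirr.subset_of_finset
      (Finset.univ.image fun k => {z : κ → F | z k = 0}) (by
      intro Z hZ
      obtain ⟨k, _, rfl⟩ := Finset.mem_image.mp hZ
      exact zclosed_coord _ _) (by
      intro x hx
      have h4 := ha x hx
      unfold mon at h4
      rw [Finset.prod_eq_zero_iff] at h4
      obtain ⟨k, _, hk⟩ := h4
      exact Set.mem_biUnion (x := {z : κ → F | z k = 0})
        (Finset.mem_image_of_mem _ (Finset.mem_univ k)) (eq_zero_of_pow_eq_zero hk))
    obtain ⟨k, _, rfl⟩ := Finset.mem_image.mp hZ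
    exact hXC _ ⟨k, rfl⟩ hXZ
  · intro X hX c hc
    obtain ⟨hXE, hXC⟩ := mem_maxF.mp hX
    have hXi := MaxE.irr hXE
    obtain ⟨i, rfl⟩ := hc
    rcases i with i | i
    · intro h
      apply hXC _ ⟨i, rfl⟩
      intro x hx
      obtain ⟨z, hz, rfl⟩ := (pull_inl_graphSet φ X).ge hx
      exact h hz
    · exact not_const_graph φ hXi.nonempty id hlam i 0
  · rw [hV, ← Fintype.card_sum]
    exact finite_maxF_quad hA g' hg'Q (hS.pull _)

end StepP

end Pool.Agent.MP_dd1803_nt.Aff
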