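import Mathlib
import Pool.Agent.MP_dd1803_nt.Aff.StepP

open MvPolynomial

namespace Pool.Agent.MP_dd1803_nt.Aff

section Sub

variable {F : Type} [Field F] {κ κ' : Type}

/-- substitution of coordinates and constants -/
def subst (ρ : κ' → κ ⊕ F) (x : κ → F) : κ' → F := fun i => Sum.elim x id (ρ i)

theorem ratMap_subst (S : Set (κ → F)) (ρ : κ' → κ ⊕ F) : RatMap S (subst ρ) := by
  intro i
  rcases h : ρ i with k | c
  · have := ratOn_coord S k
    simpa [subst, h] using this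
  · have := ratOn_const S c
    simpa [subst, h] using this

theorem td_subst_le [Finite κ] [Finite κ'] {X : Set (κ → F)} (hX : PIrr X) (ρ : κ' → κ ⊕ F) :
    td F (subst ρ '' X) ≤ td F X := by
  obtain ⟨s, hs, hc⟩ := exists_basis' (k := F) (hX.image (ratMap_subst X ρ))
  rw [← hc]
  have h1 : ∀ i : s, ∃ k, ρ i.1 = Sum.inl k := by
    rintro ⟨i, hi⟩
    rcases h : ρ i with k | c
    · exact ⟨k, rfl⟩
    · exfalso
      have h2 := hs (MvPolynomial.X ⟨i, hi⟩ - C c) (by
        rintro _ ⟨x, _, rfl⟩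
        rw [map_sub, aeval_X, aeval_C]
        simp [subst, h, co])
      have h3 := congrArg (aeval (fun _ => c + 1)) h2
      rw [map_sub, aeval_X, aeval_C, map_zero] at h3
      simp at h3
  choose f hf using h1
  have h2 : IndF F X f := by
    intro p hp
    rw [ind_iff_indF] at hs
    apply hs
    rintro _ ⟨x, hx, rfl⟩
    rw [← hp x hx]
    congr 2
    funext i
    simp [subst, hf, co]
  have h3 := h2.card_le hX
  rwa [Nat.card_coe_set_eq] at h3

variable [CharZero F] [SpStr F] [Fintype κ] [Fintype κ']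

open SpStr

theorem rk_subst_le {X : Set (κ → F)} (ρ : κ' → κ ⊕ F)
    (hρ : ∀ i c, ρ i = Sum.inr c → ∃ N, 1 < N ∧ rel N c c) : rk (subst ρ '' X) ≤ rk X := by
  classical
  obtain ⟨s, hs, hc⟩ := exists_fr (subst ρ '' X)
  rw [← hc]
  rcases s.eq_empty_or_nonempty with h0 | h0
  · rw [h0, Finset.card_empty]
    exact Nat.zero_le _
  have h1 : ∀ i ∈ s, ∃ k, ρ i = Sum.inl k := by
    intro i hi
    rcases h : ρ i with k | c
    · exact ⟨k, rfl⟩
    · exfalso
      apply hs.1 i hi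
      apply sp_of_const (hρ i c h)
      rintro _ ⟨x, _, rfl⟩
      simp [subst, h]
  have hne : Nonempty κ := by
    obtain ⟨i, hi⟩ := h0
    obtain ⟨k, _⟩ := h1 i hi
    exact ⟨k⟩
  choose! f hf using h1
  have h2 : ∀ i ∈ s, ∀ x, subst ρ x i = x (f i) := by
    intro i hi x
    simp [subst, hf i hi]
  have hinj : Set.InjOn f (s : Set κ') := by
    intro i hi j hj hij
    by_contra hne
    apply hs.2 i hi j hj hne
    refine ⟨1, one_pos, ?_⟩
    rintro _ ⟨x, _, rfl⟩
    rw [mem_RS, one, h2 i hi, h2 j hj, hij]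
  have h3 : Fr X (s.image f) := by
    constructor
    · intro k hk
      obtain ⟨i, hi, rfl⟩ := Finset.mem_image.mp hk
      rintro ⟨N, hN, h⟩
      apply hs.1 i hi
      refine ⟨N, hN, ?_⟩
      rintro _ ⟨x, hx, rfl⟩
      rw [mem_RS, h2 i hi]
      exact h hx
    · intro k hk k' hk' hne
      obtain ⟨i, hi, rfl⟩ := Finset.mem_image.mp hk
      obtain ⟨j, hj, rfl⟩ := Finset.mem_image.mp hk'
      rintro ⟨N, hN, h⟩
      apply hs.2 i hi j hj (fun h => hne (by rw [h]))
      refine ⟨N, hN, ?_⟩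
      rintro _ ⟨x, hx, rfl⟩
      rw [mem_RS, h2 i hi, h2 j hj]
      exact h hx
  have h4 := h3.card_le
  rwa [Finset.card_image_of_injOn hinj] at h4

end Sub

section StepI

variable {F : Type} [Field F] [IsAlgClosed F] [CharZero F] [SpStr F] {κ I : Type} [Fintype κ]
  [Fintype I]

open SpStr

/-- Integral polynomial equations. -/
theorem finite_maxE_int (hA : ∀ k, (MaxE k (AA F k)).Finite) (f : I → MvPolynomial κ ℤ) :
    (MaxE (Fintype.card I) (zs (fun i (z : κ → F) => aeval z (f i)) Set.univ)).Finite := by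
  classical
  obtain ⟨c, hcF, hcs⟩ := sp_ne (F := F)
  let fJ : ∀ J : Finset κ, I → MvPolynomial ({k // k ∈ J} ⊕ Unit) ℤ := fun J i =>
    X (Sum.inr ()) * aeval (fun k => if h : k ∈ J then X (Sum.inl ⟨k, h⟩) else 0) (f i)
  have hfJ0 : ∀ J i, coeff 0 (fJ J i) = 0 := by
    intro J i
    rw [← constantCoeff_eq]
    simp [fJ]
  let V : Set (κ → F) := zs (fun i (z : κ → F) => aeval z (f i)) Set.univ
  let SJ : ∀ J : Finset κ, Set ({k // k ∈ J} ⊕ Unit → F) := fun J => {z | z (Sum.inr ()) = c}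
  let VJ : ∀ J : Finset κ, Set ({k // k ∈ J} ⊕ Unit → F) := fun J =>
    zs (fun i z => aeval z (fJ J i)) (SJ J)
  have hfin : ∀ J, (MaxF (Cz ({k // k ∈ J} ⊕ Unit) (0 : F)) (Fintype.card I) (VJ J)).Finite :=
    fun J => finite_maxF_poly0 hA (fJ J) (hfJ0 J) (spC_coord _ hcs)
  let σ : ∀ J : Finset κ, ({k // k ∈ J} ⊕ Unit) → κ ⊕ F := fun J =>
    Sum.elim (fun k => Sum.inl k.1) (fun _ => Sum.inr c)
  let ρ : ∀ J : Finset κ, κ → ({k // k ∈ J} ⊕ Unit) ⊕ F := fun J k =>
    if h : k ∈ J then Sum.inl (Sum.inl ⟨k, h⟩) else Sum.inr 0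
  have hσs : ∀ J i a, σ J i = Sum.inr a → ∃ N, 1 < N ∧ rel (F := F) N a a := by
    intro J i a h
    rcases i with i | i
    · simp [σ] at h
    · simp only [σ, Sum.elim_inr, Sum.inr.injEq] at h
      rw [← h]
      exact hcs
  have hρs : ∀ J i a, ρ J i = Sum.inr a → ∃ N, 1 < N ∧ rel (F := F) N a a := by
    intro J i a h
    simp only [ρ] at h
    split_ifs at h
    rw [Sum.inr.injEq] at h
    rw [← h]
    exact sp_zero
  -- values of the equations
  have hval : ∀ J i (y : {k // k ∈ J} ⊕ Unit → F), aeval y (fJ J i) =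
      y (Sum.inr ()) * aeval (subst (ρ J) y) (f i) := by
    intro J i y
    simp only [fJ, map_mul, aeval_X]
    congr 1
    rw [← AlgHom.comp_apply]
    congr 1
    apply MvPolynomial.algHom_ext
    intro k
    simp only [AlgHom.comp_apply, aeval_X, subst, ρ]
    split_ifs with h
    · simp
    · simp
  have hVJ : ∀ J (y : {k // k ∈ J} ⊕ Unit → F), y ∈ VJ J ↔ y (Sum.inr ()) = c ∧
      subst (ρ J) y ∈ V := by
    intro J y
    constructor
    · rintro ⟨h1, h2⟩
      refine ⟨h1, trivial, fun i => ?_⟩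
      have h3 := h2 i
      simp only [hval] at h3
      have h4 : y (Sum.inr ()) = c := h1
      rw [h4] at h3
      exact (mul_eq_zero.mp h3).resolve_left hcF
    · rintro ⟨h1, h2⟩
      refine ⟨h1, fun i => ?_⟩
      simp only [hval]
      have h3 : aeval (subst (ρ J) y) (f i) = 0 := h2.2 i
      rw [h3, mul_zero]
  have hVc : ZClosed V := by
    have h : V = ⋂ i, {z | aeval z (f i) = 0} := by
      ext z
      rw [Set.mem_iInter]
      exact ⟨fun h => h.2, fun h => ⟨trivial, h⟩⟩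
    rw [h]
    exact ZClosed.iInter fun i => zclosed_aeval _
  have hVJc : ∀ J, ZClosed (VJ J) := by
    intro J
    have h : VJ J = {y | y (Sum.inr ()) = c} ∩ subst (ρ J) ⁻¹' V := by
      ext y
      rw [hVJ]
      rfl
    rw [h]
    exact (zclosed_coord _ _).inter ((ratMap_subst Set.univ _).preimage_closed hVc)
  have hσρ : ∀ J, ∀ y ∈ VJ J, subst (σ J) (subst (ρ J) y) = y := by
    intro J y hy
    funext i
    rcases i with i | i
    · simp [subst, σ, ρ]
    · simp only [subst, σ, Sum.elim_inr, id]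
      exact ((hVJ J y).mp hy).1.symm
  have h1 : (⋃ J : Finset κ, (fun Y => subst (ρ J) '' Y) ''
      (MaxF (Cz ({k // k ∈ J} ⊕ Unit) (0 : F)) (Fintype.card I) (VJ J))).Finite :=
    Set.finite_iUnion fun J => (hfin J).image _
  apply h1.subset
  intro X hX
  have hXi := MaxE.irr hX
  have hXV := MaxE.subset hX
  rw [Set.mem_iUnion]
  let J : Finset κ := Finset.univ.filter fun k => ∃ x ∈ X, x k ≠ 0
  have hJ : ∀ k, k ∉ J → ∀ x ∈ X, x k = 0 := by
    intro k hk x hx
    by_contra hne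
    exact hk (Finset.mem_filter.mpr ⟨Finset.mem_univ k, x, hx, hne⟩)
  have hρσ : ∀ x : κ → F, (∀ k, k ∉ J → x k = 0) → subst (ρ J) (subst (σ J) x) = x := by
    intro x hx
    funext k
    by_cases hk : k ∈ J
    · simp [subst, σ, ρ, hk]
    · simp [subst, ρ, hk, hx k hk]
  have hρ0 : ∀ (y : {k // k ∈ J} ⊕ Unit → F) k, k ∉ J → subst (ρ J) y k = 0 := by
    intro y k hk
    simp [subst, ρ, hk]
  have hσV : ∀ x ∈ V, (∀ k, k ∉ J → x k = 0) → subst (σ J) x ∈ VJ J := by
    intro x hx h0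
    rw [hVJ, hρσ x h0]
    exact ⟨rfl, hx⟩
  let Y := subst (σ J) '' X
  have hρY : subst (ρ J) '' Y = X := by
    ext x
    constructor
    · rintro ⟨_, ⟨x', hx', rfl⟩, rfl⟩
      rw [hρσ x' (fun k hk => hJ k hk x' hx')]
      exact hx'
    · intro hx
      exact ⟨_, ⟨x, hx, rfl⟩, hρσ x (fun k hk => hJ k hk x hx)⟩
  have hYV : Y ⊆ VJ J := by
    rintro _ ⟨x, hx, rfl⟩
    exact hσV x (hXV hx) (fun k hk => hJ k hk x hx)
  have hYc : ZClosed Y := by
    have h : Y = VJ J ∩ subst (ρ J) ⁻¹' X := by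
      ext y
      constructor
      · intro hy
        refine ⟨hYV hy, ?_⟩
        obtain ⟨x, hx, rfl⟩ := hy
        rw [Set.mem_preimage, hρσ x (fun k hk => hJ k hk x hx)]
        exact hx
      · rintro ⟨h2, h3⟩
        exact ⟨_, h3, hσρ J y h2⟩
    rw [h]
    exact (hVJc J).inter ((ratMap_subst Set.univ _).preimage_closed hXi.closed)
  have hYi : Irr Y := ⟨hYc, hXi.pirr.image (ratMap_subst _ _)⟩
  have hlt := MaxE.lt hX
  refine ⟨J, Y, mem_maxF.mpr ⟨mem_maxE.mpr ⟨⟨hYi, hYV, ?_⟩, ?_⟩, ?_⟩, hρY⟩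
  · have h2 := rk_subst_le (X := X) (σ J) (hσs J)
    have h3 := td_subst_le hYi.pirr (ρ J)
    rw [hρY] at h3
    change rk (subst (σ J) '' X) < _
    omega
  · rintro Z ⟨hZi, hZV, hZlt⟩ hYZ
    have hZ'c : ZClosed (subst (ρ J) '' Z) := by
      have h : subst (ρ J) '' Z = (⋂ k : {k // k ∉ J}, {x : κ → F | x k.1 = 0}) ∩
          subst (σ J) ⁻¹' Z := by
        ext x
        constructor
        · rintro ⟨y, hy, rfl⟩
          refine ⟨?_, ?_⟩
          · rw [Set.mem_iInter]
            rintro ⟨k, hk⟩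
            exact hρ0 y k hk
          · rw [Set.mem_preimage, hσρ J y (hZV hy)]
            exact hy
        · rintro ⟨h2, h3⟩
          rw [Set.mem_iInter] at h2
          exact ⟨_, h3, hρσ x (fun k hk => h2 ⟨k, hk⟩)⟩
      rw [h]
      exact (ZClosed.iInter fun k => zclosed_coord _ _).inter
        ((ratMap_subst Set.univ _).preimage_closed hZi.closed)
    have hZ'i : Irr (subst (ρ J) '' Z) := ⟨hZ'c, hZi.pirr.image (ratMap_subst _ _)⟩
    have hσZ : subst (σ J) '' (subst (ρ J) '' Z) = Z := by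
      ext y
      constructor
      · rintro ⟨_, ⟨y', hy', rfl⟩, rfl⟩
        rw [hσρ J y' (hZV hy')]
        exact hy'
      · intro hy
        exact ⟨_, ⟨y, hy, rfl⟩, hσρ J y (hZV hy)⟩
    have h2 : X = subst (ρ J) '' Z := by
      apply MaxE.eq hX hZ'i
      · rintro _ ⟨y, hy, rfl⟩
        exact ((hVJ J y).mp (hZV hy)).2
      · have h3 := rk_subst_le (X := Z) (ρ J) (hρs J)
        have h4 := td_subst_le hZ'i.pirr (σ J)
        rw [hσZ] at h4
        omega
      · rw [← hρY]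
        exact Set.image_mono hYZ
    show Z ⊆ subst (σ J) '' X
    rw [h2, hσZ]
  · rintro _ ⟨i, rfl⟩ h
    rcases i with ⟨k, hk⟩ | i
    · obtain ⟨_, x, hx, hne⟩ := Finset.mem_filter.mp hk
      exact hne (h ⟨x, hx, rfl⟩)
    · obtain ⟨x, hx⟩ := hXi.nonempty
      exact hcF (h ⟨x, hx, rfl⟩)

end StepI

end Pool.Agent.MP_dd1803_nt.Aff
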