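import Mathlib
import Pool.Agent.MP_dd1803_nt.Aff.StepI

open MvPolynomial

namespace Pool.Agent.MP_dd1803_nt.Aff

section Alg

variable {R : Type} [CommRing R]

theorem isAlgebraic_of_mul_eq {A : Type} [CommRing A] [IsDomain A] [Algebra R A] {a b : R} {x : A}
    (ha : algebraMap R A a ≠ 0) (h : algebraMap R A a * x = algebraMap R A b) :
    IsAlgebraic R x := by
  refine ⟨Polynomial.C a * Polynomial.X - Polynomial.C b, ?_, ?_⟩
  · intro h0
    have h1 := congrArg (fun p => Polynomial.coeff p 1) h0
    simp [Polynomial.coeff_C] at h1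
    apply ha
    rw [h1, map_zero]
  · simp [h]

end Alg

section StepA

variable {F : Type} [Field F] {κ : Type} [Fintype κ]

/-- Common zeros of integer polynomials. -/
def zlZ (F : Type) [Field F] {κ : Type} {q : ℕ} (f : Fin q → MvPolynomial κ ℤ) :
    Set (κ → F) := {x | ∀ j, aeval x (f j) = 0}

omit [Fintype κ] in
theorem mem_zlZ {q : ℕ} {f : Fin q → MvPolynomial κ ℤ} {x : κ → F} :
    x ∈ zlZ F f ↔ ∀ j, aeval x (f j) = 0 := Iff.rfl

omit [Fintype κ] in
theorem zclosed_zlZ {q : ℕ} (f : Fin q → MvPolynomial κ ℤ) : ZClosed (zlZ F f) := by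
  have h1 : zlZ F f = ⋂ j, zp (MvPolynomial.map (algebraMap ℤ F) (f j)) := by
    ext z
    rw [mem_zlZ, Set.mem_iInter]
    apply forall_congr'
    intro i
    rw [mem_zp, aeval_map_algebraMap]
    rfl
  rw [h1]
  exact ZClosed.iInter fun i => zclosed_zp _

/-- The variety of generic linear combinations of the equations. -/
def genV (F : Type) [Field F] {κ : Type} {q : ℕ} (f : Fin q → MvPolynomial κ ℤ) (e : ℕ) :
    Set (κ ⊕ (Fin e × Fin q) → F) :=
  {y | ∀ i, ∑ j, y (Sum.inr (i, j)) * aeval (y ∘ Sum.inl) (f j) = 0}

omit [Fintype κ] in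
theorem mem_genV {q : ℕ} {f : Fin q → MvPolynomial κ ℤ} {e : ℕ}
    {y : κ ⊕ (Fin e × Fin q) → F} : y ∈ genV F f e ↔
      ∀ i, ∑ j, y (Sum.inr (i, j)) * aeval (y ∘ Sum.inl) (f j) = 0 := Iff.rfl

variable [IsAlgClosed F] [CharZero F] [SpStr F]

open SpStr

theorem finite_maxE_genV (hA : ∀ k, (MaxE k (AA F k)).Finite) (e : ℕ) {q : ℕ}
    (f : Fin q → MvPolynomial κ ℤ) : (MaxE e (genV F f e)).Finite := by
  have h1 := finite_maxE_int hA (κ := κ ⊕ (Fin e × Fin q)) (I := Fin e)
    (fun i => ∑ j, X (Sum.inr (i, j)) * rename Sum.inl (f j))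
  rw [Fintype.card_fin] at h1
  have h2 : genV F f e = zs (fun i (z : κ ⊕ (Fin e × Fin q) → F) =>
      aeval z (∑ j, X (Sum.inr (i, j)) * rename Sum.inl (f j))) Set.univ := by
    ext y
    rw [mem_genV]
    have h3 : ∀ i : Fin e, aeval y (∑ j, X (Sum.inr (i, j)) * rename Sum.inl (f j)) =
        ∑ j, y (Sum.inr (i, j)) * aeval (y ∘ Sum.inl) (f j) := by
      intro i
      rw [map_sum]
      apply Finset.sum_congr rfl
      intro j _
      rw [map_mul, aeval_X, aeval_rename]
    constructor
    · intro h
      exact ⟨trivial, fun i => (h3 i).trans (h i)⟩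
    · rintro ⟨_, h⟩ i
      exact (h3 i).symm.trans (h i)
  rw [h2]
  exact h1

omit [IsAlgClosed F] in
/-- Coordinates of the second factor of a product with affine space are free. -/
theorem prod_univ_free {κ' : Type} [Fintype κ'] [Infinite F] {X : Set (κ → F)} (hX : X.Nonempty) (b : κ') :
    ¬ Sp (prodSet X (Set.univ : Set (κ' → F))) (Sum.inr b) ∧
      (∀ i, ¬ Rl (prodSet X (Set.univ : Set (κ' → F))) (Sum.inr b) (Sum.inl i)) ∧
      ∀ b', b ≠ b' → ¬ Rl (prodSet X (Set.univ : Set (κ' → F))) (Sum.inr b) (Sum.inr b') := by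
  classical
  obtain ⟨x, hx⟩ := hX
  have key : ∀ N, 0 < N → ∀ c : F, ¬ ∀ u, rel N u c := by
    intro N hN c h
    have h1 := fin_left (F := F) N hN c
    have h2 : {y | rel N c y} = Set.univ := by
      ext u
      simp only [Set.mem_ofPred_eq, Set.mem_univ, iff_true]
      exact SpStr.symm N hN _ _ (h u)
    rw [h2] at h1
    exact Set.infinite_univ h1
  refine ⟨?_, ?_, ?_⟩
  · rintro ⟨N, hN, h⟩
    have h1 := fin_diag (F := F) N hN
    have h2 : {y : F | rel N y y} = Set.univ := by
      ext u
      simp only [Set.mem_ofPred_eq, Set.mem_univ, iff_true]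
      have := h (a := Sum.elim x (fun _ => u)) (elim_mem_prodSet.mpr ⟨hx, trivial⟩)
      exact this
    rw [h2] at h1
    exact Set.infinite_univ h1
  · rintro i ⟨N, hN, h⟩
    apply key N hN (x i)
    intro u
    have := h (a := Sum.elim x (fun _ => u)) (elim_mem_prodSet.mpr ⟨hx, trivial⟩)
    exact this
  · rintro b' hb ⟨N, hN, h⟩
    apply key N hN 0
    intro u
    have := h (a := Sum.elim x (Pi.single b u)) (elim_mem_prodSet.mpr ⟨hx, trivial⟩)
    rw [mem_RS] at this
    simp only [Sum.elim_inr, Pi.single_eq_same, Pi.single_eq_of_ne (Ne.symm hb)] at this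
    exact this

theorem finite_maxE_zlZ (hA : ∀ k, (MaxE k (AA F k)).Finite) (e : ℕ) {q : ℕ}
    (f : Fin q → MvPolynomial κ ℤ) : (MaxE e (zlZ F f)).Finite := by
  classical
  have hinf : Infinite F := inferInstance
  have hgen := finite_maxE_genV hA e f
  rw [← maxF_empty] at hgen ⊢
  refine finite_maxF_of_ext (zclosed_zlZ f) (V' := genV F f e)
    (Sum.inl : κ → κ ⊕ (Fin e × Fin q)) Sum.inl_injective
    (Finset.univ.map Function.Embedding.inr) (e' := e) (D := e * q)
    (by rw [Finset.card_map, Finset.card_univ]; simp) hgen ?_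
  intro X hX
  have hXE := (mem_maxF.mp hX).1
  have hXi := MaxE.irr hXE
  have hXW := MaxE.subset hXE
  have hU : Irr (Set.univ : Set (Fin e × Fin q → F)) := irr_univ
  have hG : Irr (prodSet X (Set.univ : Set (Fin e × Fin q → F))) := hXi.prodSet hU
  have hpull : pull (Sum.inl : κ → κ ⊕ (Fin e × Fin q)) ''
      (prodSet X (Set.univ : Set (Fin e × Fin q → F))) = X := by
    ext x
    constructor
    · rintro ⟨z, hz, rfl⟩
      exact hz.1
    · intro hx
      exact ⟨Sum.elim x 0, elim_mem_prodSet.mpr ⟨hx, trivial⟩, rfl⟩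
  refine ⟨prodSet X Set.univ, hG, ?_, ?_, ?_, ?_, ?_, ?_, ?_⟩
  · intro y hy i
    apply Finset.sum_eq_zero
    intro j _
    have h1 : aeval (y ∘ Sum.inl) (f j) = 0 := hXW hy.1 j
    rw [h1, mul_zero]
  · rw [hpull]
    exact subset_cl X
  · have h1 := rk_le_pull_add hG.pirr (e := (Sum.inl : κ → κ ⊕ (Fin e × Fin q)))
      Sum.inl_injective (Finset.univ.map Function.Embedding.inr) (by
      intro i hi hiB
      rcases i with i | i
      · exact absurd ⟨i, rfl⟩ hi
      · exact absurd (Finset.mem_map_of_mem Function.Embedding.inr (Finset.mem_univ i)) hiB)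
    rwa [hpull] at h1
  · have := td_prod_ge (k := F) hXi.pirr hU.pirr
    rw [td_univ] at this
    simpa using this
  · intro c hc
    exact absurd hc (Set.notMem_empty c)
  · intro b hb
    obtain ⟨β, _, rfl⟩ := Finset.mem_map.mp hb
    obtain ⟨h1, h2, h3⟩ := prod_univ_free (κ' := Fin e × Fin q) hXi.nonempty β
    refine ⟨?_, h1, h2, ?_⟩
    · rintro ⟨i, hi⟩
      simp at hi
    · intro b' hb' hbb
      obtain ⟨β', _, rfl⟩ := Finset.mem_map.mp hb'
      exact h3 β' (fun h => hbb (by rw [h]))
  · intro Y hY hYV hXY hlt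
    refine ⟨?_, ?_⟩
    · by_contra hcon
      rw [Set.not_subset] at hcon
      obtain ⟨_, ⟨y0, hy0, rfl⟩, hy⟩ := hcon
      rw [mem_zlZ] at hy
      push Not at hy
      obtain ⟨j0, hj0⟩ := hy
      -- forget the coordinates (i, j0)
      let p : κ ⊕ (Fin e × Fin q) → Prop := fun i => ∀ i', i ≠ Sum.inr (i', j0)
      let π : {i // p i} → κ ⊕ (Fin e × Fin q) := Subtype.val
      have hP' := vI_isPrime (k := F) hY.pirr
      have hne : Nontrivial (MvPolynomial (κ ⊕ (Fin e × Fin q)) F ⧸ vI F Y) := inferInstance
      have hdom : IsDomain (MvPolynomial (κ ⊕ (Fin e × Fin q)) F ⧸ vI F Y) := inferInstance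
      have h3 : ∀ g : MvPolynomial κ ℤ, aeval (fun l : κ => gen F Y (Sum.inl l)) g =
          Ideal.Quotient.mk (vI F Y) (rename Sum.inl (MvPolynomial.map (algebraMap ℤ F) g)) := by
        intro g
        induction g using MvPolynomial.induction_on with
        | C a => simp
        | add p q hp hq => simp only [map_add, hp, hq]
        | mul_X p i hp =>
          simp only [map_mul, hp, aeval_X, map_X, rename_X]
          rfl
      have h1 := td_le_pull (k := F) hY.pirr (e := π) Subtype.val_injective (Set.range π) (by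
        intro i
        by_cases hi : p i
        · apply isAlgebraic_of_mem_adjoin hY.pirr
          exact Algebra.subset_adjoin ⟨i, ⟨⟨i, hi⟩, rfl⟩, rfl⟩
        · simp only [p] at hi
          push Not at hi
          obtain ⟨i', rfl⟩ := hi
          have hmem : ∀ g : MvPolynomial κ ℤ, aeval (fun l : κ => gen F Y (Sum.inl l)) g ∈
              Algebra.adjoin F (gen F Y '' Set.range π) := by
            intro g
            induction g using MvPolynomial.induction_on with
            | C a =>
              rw [aeval_C]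
              exact Subalgebra.intCast_mem _ _
            | add p q hp hq =>
              rw [map_add]
              exact Subalgebra.add_mem _ hp hq
            | mul_X p i hp =>
              rw [map_mul, aeval_X]
              apply Subalgebra.mul_mem _ hp
              apply Algebra.subset_adjoin
              exact ⟨Sum.inl i, ⟨⟨Sum.inl i, fun i' h => by simp at h⟩, rfl⟩, rfl⟩
          have hmem2 : -∑ j ∈ Finset.univ.erase j0, gen F Y (Sum.inr (i', j)) *
              aeval (fun l : κ => gen F Y (Sum.inl l)) (f j) ∈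
              Algebra.adjoin F (gen F Y '' Set.range π) := by
            apply Subalgebra.neg_mem
            apply Subalgebra.sum_mem
            intro j hj
            apply Subalgebra.mul_mem _ _ (hmem _)
            apply Algebra.subset_adjoin
            refine ⟨Sum.inr (i', j), ⟨⟨Sum.inr (i', j), ?_⟩, rfl⟩, rfl⟩
            intro i'' h
            simp only [Sum.inr.injEq, Prod.mk.injEq] at h
            exact (Finset.ne_of_mem_erase hj) h.2
          apply isAlgebraic_of_mul_eq (a := ⟨_, hmem (f j0)⟩) (b := ⟨_, hmem2⟩)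
          · intro h
            have h2 : aeval (fun l : κ => gen F Y (Sum.inl l)) (f j0) = 0 := h
            rw [h3, Ideal.Quotient.eq_zero_iff_mem, mem_vI] at h2
            have h4 := h2 y0 hy0
            rw [aeval_rename, aeval_map_algebraMap] at h4
            exact hj0 h4
          · have h2 : ∑ j, gen F Y (Sum.inr (i', j)) *
                aeval (fun l : κ => gen F Y (Sum.inl l)) (f j) = 0 := by
              simp only [h3]
              have h4 : (∑ j, gen F Y (Sum.inr (i', j)) * Ideal.Quotient.mk (vI F Y)
                  (rename Sum.inl (MvPolynomial.map (algebraMap ℤ F) (f j)))) =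
                  Ideal.Quotient.mk (vI F Y) (∑ j, MvPolynomial.X (Sum.inr (i', j)) *
                    rename Sum.inl (MvPolynomial.map (algebraMap ℤ F) (f j))) := by
                rw [map_sum]
                apply Finset.sum_congr rfl
                intro j _
                rw [map_mul]
                rfl
              rw [h4, Ideal.Quotient.eq_zero_iff_mem, mem_vI]
              intro y hy
              rw [map_sum]
              have h5 := hYV hy i'
              rw [← h5]
              apply Finset.sum_congr rfl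
              intro j _
              rw [map_mul, aeval_X, aeval_rename, aeval_map_algebraMap]
              rfl
            rw [← Finset.add_sum_erase _ _ (Finset.mem_univ j0)] at h2
            show aeval (fun l : κ => gen F Y (Sum.inl l)) (f j0) * gen F Y (Sum.inr (i', j0)) = _
            rw [mul_comm]
            exact eq_neg_of_add_eq_zero_left h2)
      rw [sdiff_self, Set.bot_eq_empty, Set.ncard_empty] at h1
      have h2 := rk_pull_add_le (X := Y) (e := π) Subtype.val_injective
        (Finset.univ.image fun i' : Fin e => (Sum.inr (i', j0) : κ ⊕ (Fin e × Fin q))) (by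
        intro b hb
        obtain ⟨i', _, rfl⟩ := Finset.mem_image.mp hb
        obtain ⟨h4, h5, h6⟩ := prod_univ_free (κ' := Fin e × Fin q) hXi.nonempty (i', j0)
        refine ⟨?_, fun h => h4 (h.anti hXY), ?_, ?_⟩
        · rintro ⟨⟨i, hi⟩, h7⟩
          exact hi i' h7
        · rintro ⟨i, hi⟩ h
          have h7 := h.anti hXY
          rcases i with i | i
          · exact h5 i h7
          · exact h6 i (fun h8 => hi i' (by rw [h8])) h7
        · intro b' hb' hbb h
          obtain ⟨i'', _, rfl⟩ := Finset.mem_image.mp hb'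
          exact h6 (i'', j0) (fun h8 => hbb (by rw [h8])) (h.anti hXY))
      rw [Finset.card_image_of_injective _ (by
        intro a b hab
        simpa using hab), Finset.card_univ, Fintype.card_fin] at h2
      have h3 := td_le_rk (hY.pirr.pull π)
      omega
    · have h1 := td_le_pull' (k := F) hY.pirr (e := (Sum.inl : κ → κ ⊕ (Fin e × Fin q)))
        Sum.inl_injective
      have h2 : (Set.range (Sum.inl : κ → κ ⊕ (Fin e × Fin q)))ᶜ.ncard = e * q := by
        rw [Set.compl_range_inl, ← Set.image_univ, Set.ncard_image_of_injective _ Sum.inr_injective,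
          Set.ncard_univ, Nat.card_eq_fintype_card]
        simp
      rw [h2] at h1
      exact h1

end StepA

end Pool.Agent.MP_dd1803_nt.Aff
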