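import Mathlib
import Pool.Agent.MP_dd1803_nt.Aff.StepA

open MvPolynomial

namespace Pool.Agent.MP_dd1803_nt.Aff

section Transfer

variable {F : Type} [Field F] [IsAlgClosed F] [CharZero F] [SpStr F] {κ : Type} [Fintype κ]

open SpStr

omit [CharZero F] [SpStr F] [IsAlgClosed F] [Fintype κ] in
theorem closed_of_cl {k : Type} [Field k] [Algebra k F] {V : Set (κ → F)} (h : cl k V = V) :
    ZClosed V := by
  rw [← h]
  exact zclosed_cl V

omit [CharZero F] [SpStr F] in
/-- Irreducible components of sets defined over `k` are defined over `k`. -/
theorem Comp.cl {k : Type} [Field k] [Algebra k F] [IsAlgClosed k] {V Y : Set (κ → F)}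
    (hV : cl k V = V) (hY : Comp V Y) : cl k Y = Y := by
  symm
  exact hY.eq_of_subset (irr_cl hY.irr.pirr) (cl_subset_of_closed hY.subset hV) (subset_cl Y)

/-- Maximal elements in a set defined over `k` are defined over `k`. -/
theorem MaxE.closed {k : Type} [Field k] [Algebra k F] [IsAlgClosed k]
    [Algebra (acl (∅ : Set F)) k] [IsScalarTower (acl (∅ : Set F)) k F] {e : ℕ}
    {V X : Set (κ → F)} (h : X ∈ MaxE e V) (hV : cl k V = V) : cl k X = X := by
  symm
  have hXi := (MaxE.irr h).pirr
  apply MaxE.eq h (irr_cl hXi)
  · exact cl_subset_of_closed (MaxE.subset h) hV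
  · have h1 := MaxE.lt h
    rw [rk_cl, td_cl_eq hXi]
    have h2 := td_tower_le (k := k) (k' := F) hXi
    omega
  · exact subset_cl X

/-- The step from `k` to an extension `k'` of transcendence degree at most one. -/
theorem maxE_step {k k' : Type} [Field k] [Field k'] [Algebra k F] [Algebra k' F] [Algebra k k']
    [IsScalarTower k k' F] [Algebra (acl (∅ : Set F)) k] [Algebra (acl (∅ : Set F)) k']
    [IsScalarTower (acl (∅ : Set F)) k F]
    [IsScalarTower (acl (∅ : Set F)) k' F] [IsAlgClosed k] [IsAlgClosed k'] (a : k')
    [Algebra.IsAlgebraic (Algebra.adjoin k {a}) k']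
    (H : ∀ V : Set (κ → F), cl k V = V → ∀ e, (MaxE e V).Finite)
    (V : Set (κ → F)) (hV : cl k' V = V) : ∀ e, (MaxE e V).Finite := by
  classical
  have key : ∀ V : Set (κ → F), ZClosed V → (cl k' V = V → ∀ e, (MaxE e V).Finite) := by
    apply closed_induction
    intro V hVc IH hV e
    by_cases hirr : Irr V
    · by_cases hcond : rk V < td F V + e
      · apply (Set.finite_singleton V).subset
        intro X hX
        exact MaxE.eq hX hirr le_rfl hcond (MaxE.subset hX)
      · by_cases hk : cl k V = V
        · exact H V hk e
        · -- the part defined over k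
          have hcore : (MaxE e (core k V)).Finite := by
            have h1 : core k V ⊂ V := by
              refine ⟨core_subset hVc, ?_⟩
              intro h2
              apply hk
              have h3 : core k V = V := Set.Subset.antisymm (core_subset hVc) h2
              rw [← h3]
              exact cl_core V
            apply IH _ (zclosed_core V) h1
            apply Set.Subset.antisymm _ (subset_cl _)
            have h4 := cl_tower k k' (core k V)
            rwa [cl_core] at h4
          have hVk : cl k (cl k V) = cl k V := cl_idem V
          have hfin : (⋃ Z ∈ MaxE (e - 1) (cl k V),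
              (if V ⊆ Z then ∅ else MaxE e (V ∩ Z))).Finite := by
            apply (H (cl k V) hVk (e - 1)).biUnion
            intro Z hZ
            split_ifs with hVZ
            · exact Set.finite_empty
            · have hZk : cl k Z = Z := MaxE.closed hZ hVk
              have h1 : V ∩ Z ⊂ V := ⟨Set.inter_subset_left, fun h => hVZ (h.trans Set.inter_subset_right)⟩
              apply IH _ (hVc.inter (MaxE.irr hZ).closed) h1
              apply Set.Subset.antisymm _ (subset_cl _)
              apply Set.subset_inter
              · exact cl_subset_of_closed Set.inter_subset_left hV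
              · have h4 := (cl_tower k k' (V ∩ Z)).trans
                  (cl_subset_of_closed (k := k) Set.inter_subset_right hZk)
                exact h4
          apply (hcore.union hfin).subset
          intro X hX
          have hXi := MaxE.irr hX
          have hXk' : cl k' X = X := MaxE.closed hX hV
          by_cases hXk : cl k X = X
          · left
            apply MaxE.of_subset hX _ (core_subset hVc)
            apply subset_core hXi.pirr
            rw [hXk]
            exact MaxE.subset hX
          · right
            have hXk2 : Irr (cl k X) := irr_cl hXi.pirr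
            have hss : X ⊂ cl k X := LE.le.ssubset_of_ne (subset_cl X) (Ne.symm hXk)
            have h1 := td_lt hXi hXk2 hss
            have h2 : td F (cl k X) = td k X := td_cl_eq hXi.pirr
            have h3 : td F X = td k' X := by
              conv_lhs => rw [← hXk']
              exact td_cl_eq hXi.pirr
            have h4 := td_tower_le_add_one (k := k) (k' := k') hXi.pirr a
            have h5 : rk (cl k X) = rk X := rk_cl X
            have h6 := MaxE.lt hX
            have h7 := td_le_rk hXi.pirr
            obtain ⟨Z, hZ, hXZ⟩ := exists_maxE (e := e - 1) hXk2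
              (cl_mono (MaxE.subset hX)) (by omega)
            rw [Set.mem_iUnion₂]
            refine ⟨Z, hZ, ?_⟩
            have hVZ : ¬ V ⊆ Z := by
              intro h
              have hZk : cl k Z = Z := MaxE.closed hZ hVk
              have h8 : cl k V = Z := by
                apply Set.Subset.antisymm _ (MaxE.subset hZ)
                exact cl_subset_of_closed h hZk
              have h9 := MaxE.lt hZ
              rw [← h8] at h9
              apply hcond
              have h11 : rk (cl k V) = rk V := rk_cl V
              have h14 : td F (cl k V) = td k V := td_cl_eq hirr.pirr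
              have h12 := td_tower_le_add_one (k := k) (k' := k') hirr.pirr a
              have h13 : td F V = td k' V := by
                conv_lhs => rw [← hV]
                exact td_cl_eq hirr.pirr
              omega
            rw [if_neg hVZ]
            exact MaxE.of_subset hX (Set.subset_inter (MaxE.subset hX) ((subset_cl X).trans hXZ))
              Set.inter_subset_left
    · have hfin : (⋃ Y ∈ {Y | Comp V Y}, MaxE e Y).Finite := by
        apply (finite_comp hVc).biUnion
        intro Y hY
        have hY' : Comp V Y := hY
        have h1 : Y ⊂ V := by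
          refine LE.le.ssubset_of_ne hY'.subset ?_
          rintro rfl
          exact hirr hY'.irr
        exact IH Y hY'.irr.closed h1 (Comp.cl hV hY') e
      apply hfin.subset
      intro X hX
      obtain ⟨Y, hY, hXY⟩ := exists_comp hVc (MaxE.irr hX) (MaxE.subset hX)
      rw [Set.mem_iUnion₂]
      exact ⟨Y, hY, MaxE.of_subset hX hXY hY.subset⟩
  exact key V (closed_of_cl hV) hV

end Transfer

section Chain

variable {F : Type} [Field F] [CharZero F]

omit [CharZero F] in
theorem exists_finset_polys {κ : Type} [Finite κ] {V : Set (κ → F)} (hV : ZClosed V) :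
    ∃ T : Finset (MvPolynomial κ F), V = {x | ∀ p ∈ T, aeval (co x) p = 0} := by
  obtain ⟨T, hT⟩ := (inferInstance : IsNoetherianRing (MvPolynomial κ F)).noetherian (vI F V)
  refine ⟨T, ?_⟩
  apply Set.Subset.antisymm
  · intro x hx p hp
    apply mem_vI.mp _ x hx
    rw [← hT]
    exact Submodule.subset_span hp
  · intro x hx
    rw [← zclosed_iff.mp hV]
    intro p hp
    rw [SetLike.mem_coe, ← hT] at hp
    induction hp using Submodule.span_induction with
    | mem p hp => exact hx p hp
    | zero => rw [map_zero]
    | add p q _ _ hp hq => rw [map_add, hp, hq, add_zero]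
    | smul a p _ hp => rw [smul_eq_mul, map_mul, hp, mul_zero]

/-- Every closed set is defined over a finitely generated field. -/
theorem exists_field_of_def {κ : Type} [Fintype κ] {V : Set (κ → F)} (hV : ZClosed V) :
    ∃ A : Set F, A.Finite ∧ ∀ K : IntermediateField ℚ F, A ⊆ K → cl K V = V := by
  classical
  obtain ⟨T, hT⟩ := exists_finset_polys hV
  refine ⟨⋃ p ∈ T, (p.support.image fun d => coeff d p : Finset F), ?_, ?_⟩
  · apply Set.Finite.biUnion (Finset.finite_toSet T)
    intro p _
    exact Finset.finite_toSet _
  · intro K hK
    apply Set.Subset.antisymm _ (subset_cl _)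
    intro x hx
    rw [hT]
    intro p hp
    have hmem : ∀ d : p.support, coeff d.1 p ∈ K := by
      intro d
      apply hK
      rw [Set.mem_iUnion₂]
      exact ⟨p, hp, Finset.mem_image.mpr ⟨d.1, d.2, rfl⟩⟩
    let q : MvPolynomial κ K := ∑ d : p.support, monomial d.1 (⟨coeff d.1 p, hmem d⟩ : K)
    have hq : MvPolynomial.map (algebraMap K F) q = p := by
      simp only [q, map_sum, map_monomial]
      conv_rhs => rw [← support_sum_monomial_coeff p]
      exact Finset.sum_coe_sort p.support (fun d => monomial d (coeff d p))
    have h1 : q ∈ vI K V := by
      rw [mem_vI]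
      intro y hy
      rw [← aeval_map_algebraMap (A := F), hq]
      rw [hT] at hy
      exact hy p hp
    have h2 := hx q h1
    rwa [← aeval_map_algebraMap (A := F), hq] at h2

variable [IsAlgClosed F] [SpStr F] {κ : Type} [Fintype κ]

theorem maxE_step_inc {K L : IntermediateField ℚ F} (h0 : acl ∅ ≤ K) (h : K ≤ L)
    [IsAlgClosed K] [IsAlgClosed L] (a : L)
    (halg : ∀ x ∈ L, IsAlgebraic (Algebra.adjoin K {(a : F)}) x)
    (H : ∀ V : Set (κ → F), cl K V = V → ∀ e, (MaxE e V).Finite)
    (V : Set (κ → F)) (hV : cl L V = V) : ∀ e, (MaxE e V).Finite := by
  let i1 := incAlgebra h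
  let i2 := incAlgebra h0
  let i3 := incAlgebra (h0.trans h)
  have t1 := incTower h
  have t2 := incTower h0
  have t3 := incTower (h0.trans h)
  have halg' := isAlgebraic_inc h a halg
  exact maxE_step (k := K) (k' := L) a H V hV

theorem maxE_all
    (H : ∀ V : Set (κ → F), cl (acl (∅ : Set F)) V = V → ∀ e, (MaxE e V).Finite)
    {V : Set (κ → F)} (hV : ZClosed V) (e : ℕ) : (MaxE e V).Finite := by
  obtain ⟨A, hA, hAV⟩ := exists_field_of_def hV
  have key : ∀ V : Set (κ → F), cl (acl A) V = V → ∀ e, (MaxE e V).Finite := by
    clear hAV hV V e
    induction A, hA using Set.Finite.induction_on with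
    | empty => exact H
    | @insert a A _ _ ih =>
      have h1 := isAlgClosed_acl A
      have h2 := isAlgClosed_acl (insert a A)
      exact maxE_step_inc (K := acl A) (L := acl (insert a A))
        (acl_mono (Set.empty_subset A)) (acl_mono (Set.subset_insert a A))
        ⟨a, subset_acl _ (Set.mem_insert a A)⟩ (fun x hx => alg_of_mem_acl_insert hx) ih
  exact key V (hAV (acl A) (subset_acl A)) e

end Chain

end Pool.Agent.MP_dd1803_nt.Aff
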