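import Mathlib
import Pool.Agent.MP_dd1803_nt.QtoK
import Pool.Agent.MP_dd1803_nt.Aff.Transfer

open MvPolynomial

namespace Pool.Agent.MP_dd1803_nt.Aff

section QtoK

variable {F : Type} [Field F] [CharZero F]

/-- Comparison of dimensions through integer polynomials. -/
theorem td_le_of_int {κ : Type} [Finite κ] {X Y : Set (κ → F)} (hX : PIrr X) (hY : PIrr Y)
    (h : ∀ q : MvPolynomial κ ℤ, (∀ x ∈ X, aeval (co x) q = 0) → ∀ y ∈ Y, aeval (co y) q = 0) :
    td F Y ≤ td (acl (∅ : Set F)) X := by
  have hP := vI_isPrime (k := acl (∅ : Set F)) hX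
  have halg := isAlgebraic_int_acl (F := F)
  obtain ⟨s, hs, hc⟩ := exists_basis' (k := F) hY
  have h1 : AlgebraicIndependent ℤ (fun i : s => gen (acl (∅ : Set F)) X i) := by
    rw [algebraicIndependent_iff]
    intro q hq
    have h2 : ∀ x ∈ X, aeval (fun i : s => co x i) q = 0 := by
      have h3 : aeval (fun i : s => gen (acl (∅ : Set F)) X i) q =
          aeval (fun i : s => gen (acl (∅ : Set F)) X i)
            (MvPolynomial.map (algebraMap ℤ (acl (∅ : Set F))) q) := by
        rw [aeval_map_algebraMap]
      rw [h3, aeval_gen_eq_zero_iff] at hq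
      intro x hx
      have h4 := hq x hx
      rwa [aeval_map_algebraMap] at h4
    have h3 : MvPolynomial.map (algebraMap ℤ F) q = 0 := by
      apply hs
      intro y hy
      rw [aeval_map_algebraMap]
      have h4 := h (rename Subtype.val q) (by
        intro x hx
        rw [aeval_rename]
        exact h2 x hx) y hy
      rw [aeval_rename] at h4
      exact h4
    exact (MvPolynomial.map_injective _ (algebraMap ℤ F).injective_int) (by rw [h3, map_zero])
  have h2 : AlgebraicIndependent (acl (∅ : Set F)) (fun i : s => gen (acl (∅ : Set F)) X i) :=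
    h1.extendScalars _
  rw [← ind_iff] at h2
  rw [← hc]
  exact h2.ncard_le hX

/-- The closure with respect to integer polynomials. -/
def clZ {κ : Type} (W : Set (κ → F)) : Set (κ → F) :=
  {x | ∀ q : MvPolynomial κ ℤ, (∀ y ∈ W, aeval (co y) q = 0) → aeval (co x) q = 0}

omit [CharZero F] in
theorem subset_clZ {κ : Type} (W : Set (κ → F)) : W ⊆ clZ W := fun x hx _ hq => hq x hx

omit [CharZero F] in
theorem clZ_eq_zlZ {κ : Type} [Finite κ] (W : Set (κ → F)) :
    ∃ (n : ℕ) (f : Fin n → MvPolynomial κ ℤ), clZ W = zlZ F f := by
  classical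
  let I : Ideal (MvPolynomial κ ℤ) :=
    { carrier := {q | ∀ y ∈ W, aeval (co y) q = 0}
      zero_mem' := fun y _ => map_zero _
      add_mem' := fun {a b} ha hb y hy => by rw [map_add, ha y hy, hb y hy, add_zero]
      smul_mem' := fun c {a} ha y hy => by rw [smul_eq_mul, map_mul, ha y hy, mul_zero] }
  obtain ⟨T, hT⟩ := (inferInstance : IsNoetherianRing (MvPolynomial κ ℤ)).noetherian I
  refine ⟨Fintype.card T, fun j => ((Fintype.equivFin T).symm j).1, ?_⟩
  apply Set.Subset.antisymm
  · intro x hx j
    apply hx
    have h1 : ((Fintype.equivFin T).symm j).1 ∈ I := by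
      rw [← hT]
      exact Submodule.subset_span ((Fintype.equivFin T).symm j).2
    exact h1
  · intro x hx
    have hkey : ∀ q ∈ Submodule.span (MvPolynomial κ ℤ) (T : Set (MvPolynomial κ ℤ)),
        aeval (co x) q = 0 := by
      intro q hq
      induction hq using Submodule.span_induction with
      | mem p hp =>
        have h2 := hx (Fintype.equivFin T ⟨p, hp⟩)
        simp only [Equiv.symm_apply_apply] at h2
        exact h2
      | zero => rw [map_zero]
      | add p q _ _ hp hq => rw [map_add, hp, hq, add_zero]
      | smul a p _ hp => rw [smul_eq_mul, map_mul, hp, mul_zero]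
    intro q hq
    apply hkey
    rw [hT]
    exact hq

variable [IsAlgClosed F] [SpStr F] {κ : Type} [Fintype κ]

open SpStr

/-- From integer polynomials to the algebraic numbers, at a fixed level. -/
theorem finite_maxE_alg (e : ℕ)
    (H : ∀ (n : ℕ) (f : Fin n → MvPolynomial κ ℤ), (MaxE e (zlZ F f)).Finite)
    {W : Set (κ → F)} (hW : cl (acl (∅ : Set F)) W = W) : (MaxE e W).Finite := by
  classical
  have hac := isAlgClosed_acl (∅ : Set F)
  have key : ∀ W : Set (κ → F), ZClosed W →
      {X | X ∈ MaxE e W ∧ cl (acl (∅ : Set F)) X = X}.Finite := by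
    apply closed_induction
    intro W hWc IH
    by_cases hirr : Irr W
    · by_cases hcond : rk W < td F W + e
      · apply (Set.finite_singleton W).subset
        rintro X ⟨hX, _⟩
        exact MaxE.eq hX hirr le_rfl hcond (MaxE.subset hX)
      · by_cases hk : cl (acl (∅ : Set F)) W = W
        · obtain ⟨n, f, hf⟩ := clZ_eq_zlZ W
          have hfin : (⋃ Z ∈ MaxE e (clZ W), (if W ⊆ Z then ∅ else
              {X | X ∈ MaxE e (W ∩ Z) ∧ cl (acl (∅ : Set F)) X = X})).Finite := by
            have h1 : (MaxE e (clZ W)).Finite := by
              rw [hf]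
              exact H n f
            apply h1.biUnion
            intro Z hZ
            split_ifs with hWZ
            · exact Set.finite_empty
            · exact IH _ (hWc.inter (MaxE.irr hZ).closed)
                ⟨Set.inter_subset_left, fun h => hWZ (h.trans Set.inter_subset_right)⟩
          apply hfin.subset
          rintro X ⟨hX, hXk⟩
          obtain ⟨Z, hZ, hXZ⟩ := exists_maxE (e := e) (MaxE.irr hX)
            ((MaxE.subset hX).trans (subset_clZ W)) (MaxE.lt hX)
          rw [Set.mem_iUnion₂]
          refine ⟨Z, hZ, ?_⟩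
          have hWZ : ¬ W ⊆ Z := by
            intro h
            have h1 : td F Z ≤ td (acl (∅ : Set F)) W :=
              td_le_of_int hirr.pirr (MaxE.irr hZ).pirr
                (fun q hq y hy => MaxE.subset hZ hy q hq)
            have h2 : td F W = td (acl (∅ : Set F)) W := by
              conv_lhs => rw [← hk]
              exact td_cl_eq hirr.pirr
            have h3 : W = Z := eq_of_td_le hirr (MaxE.irr hZ) h (by omega)
            apply hcond
            rw [h3]
            exact MaxE.lt hZ
          rw [if_neg hWZ]
          exact ⟨MaxE.of_subset hX (Set.subset_inter (MaxE.subset hX) hXZ)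
            Set.inter_subset_left, hXk⟩
        · have h1 : core (acl (∅ : Set F)) W ⊂ W := by
            refine ⟨core_subset hWc, ?_⟩
            intro h2
            apply hk
            have h3 : core (acl (∅ : Set F)) W = W := Set.Subset.antisymm (core_subset hWc) h2
            rw [← h3]
            exact cl_core W
          apply (IH _ (zclosed_core W) h1).subset
          rintro X ⟨hX, hXk⟩
          refine ⟨MaxE.of_subset hX ?_ (core_subset hWc), hXk⟩
          apply subset_core (MaxE.irr hX).pirr
          rw [hXk]
          exact MaxE.subset hX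
    · have hfin : (⋃ Y ∈ {Y | Comp W Y},
          {X | X ∈ MaxE e Y ∧ cl (acl (∅ : Set F)) X = X}).Finite := by
        apply (finite_comp hWc).biUnion
        intro Y hY
        have hY' : Comp W Y := hY
        have h1 : Y ⊂ W := by
          refine LE.le.ssubset_of_ne hY'.subset ?_
          rintro rfl
          exact hirr hY'.irr
        exact IH Y hY'.irr.closed h1
      apply hfin.subset
      rintro X ⟨hX, hXk⟩
      obtain ⟨Y, hY, hXY⟩ := exists_comp hWc (MaxE.irr hX) (MaxE.subset hX)
      rw [Set.mem_iUnion₂]
      exact ⟨Y, hY, MaxE.of_subset hX hXY hY.subset, hXk⟩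
  apply (key W (closed_of_cl hW)).subset
  intro X hX
  exact ⟨hX, MaxE.closed hX hW⟩

/-- Finiteness for the powers of the plane implies finiteness at all levels, for all sets. -/
theorem finite_maxE_all (hA : ∀ k, (MaxE k (AA F k)).Finite) {V : Set (κ → F)} (hV : ZClosed V)
    (e : ℕ) : (MaxE e V).Finite := by
  apply maxE_all (fun W hW e => ?_) hV e
  exact finite_maxE_alg e (fun n f => finite_maxE_zlZ hA e f) hW

end QtoK

end Pool.Agent.MP_dd1803_nt.Aff
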