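import Mathlib
import Pool.Agent.MP_dd1803_nt.Aff.QtoK

open MvPolynomial

namespace Pool.Agent.MP_dd1803_nt.Aff

section Special

variable {F : Type} [Field F] [IsAlgClosed F] [CharZero F] [SpStr F] {κ : Type}

open SpStr

/-- The set cut out by finitely many relations. -/
def ZL (L : Finset (ℕ × κ × κ)) : Set (κ → F) := {x | ∀ l ∈ L, rel l.1 (x l.2.1) (x l.2.2)}

omit [IsAlgClosed F] in
theorem zclosed_ZL {L : Finset (ℕ × κ × κ)} (hL : ∀ l ∈ L, 0 < l.1) :
    ZClosed (ZL L : Set (κ → F)) := by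
  have h : (ZL L : Set (κ → F)) = ⋂ l ∈ L, RS l.1 l.2.1 l.2.2 := by
    ext x
    simp only [ZL, Set.mem_iInter, mem_RS]
    rfl
  rw [h]
  exact ZClosed.iInter fun l => ZClosed.iInter fun hl => zclosed_RS (hL l hl) _ _

/-- Special subvarieties: the irreducible components of sets cut out by finitely many of the
relations. -/
def Special (T : Set (κ → F)) : Prop :=
  ∃ L : Finset (ℕ × κ × κ), (∀ l ∈ L, 0 < l.1) ∧ Comp (ZL L) T

omit [IsAlgClosed F] in
theorem Special.irr {T : Set (κ → F)} (h : Special T) : Irr T := by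
  obtain ⟨L, _, hT⟩ := h
  exact hT.irr

section Glue

open Classical in
/-- gluing two points along a set of coordinates -/
noncomputable def glue (C : κ → Prop) (a : {i // C i} → F) (y : κ → F) : κ → F :=
  fun i => if h : C i then a ⟨i, h⟩ else y i

omit [Field F] [IsAlgClosed F] [CharZero F] [SpStr F] in
theorem glue_pos {C : κ → Prop} {a : {i // C i} → F} {y : κ → F} {i : κ} (h : C i) :
    glue C a y i = a ⟨i, h⟩ := dif_pos h

omit [Field F] [IsAlgClosed F] [CharZero F] [SpStr F] in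
theorem glue_neg {C : κ → Prop} {a : {i // C i} → F} {y : κ → F} {i : κ} (h : ¬ C i) :
    glue C a y i = y i := dif_neg h

variable [Finite κ]

omit [IsAlgClosed F] in
theorem glue_mem {T : Set (κ → F)} {L : Finset (ℕ × κ × κ)} (hL : ∀ l ∈ L, 0 < l.1)
    (hT : Comp (ZL L) T) {C : κ → Prop} (hC : ∀ l ∈ L, C l.2.1 ↔ C l.2.2)
    {A : Set ({i // C i} → F)} (hA : Irr A) (hTA : pull Subtype.val '' T ⊆ A)
    (hAr : ∀ a ∈ A, ∀ l ∈ L, ∀ h : C l.2.1, ∀ h' : C l.2.2, rel l.1 (a ⟨l.2.1, h⟩) (a ⟨l.2.2, h'⟩))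
    {a : {i // C i} → F} (ha : a ∈ A) {y : κ → F} (hy : y ∈ T) : glue C a y ∈ T := by
  classical
  have hTi := hT.irr
  let jQ : {i // ¬ C i} → κ := Subtype.val
  let B : Set ({i // ¬ C i} → F) := cl F (pull jQ '' T)
  have hB : Irr B := (hTi.pirr.pull jQ).cl
  let T' : Set (κ → F) := pull (Subtype.val : {i // C i} → κ) ⁻¹' A ∩ pull jQ ⁻¹' B
  let e : κ → {i // C i} ⊕ {i // ¬ C i} := fun i =>
    if h : C i then Sum.inl ⟨i, h⟩ else Sum.inr ⟨i, h⟩
  have hT'eq : T' = pull e '' (prodSet A B) := by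
    ext x
    constructor
    · rintro ⟨h1, h2⟩
      refine ⟨Sum.elim (pull Subtype.val x) (pull jQ x), elim_mem_prodSet.mpr ⟨h1, h2⟩, ?_⟩
      funext i
      by_cases hi : C i
      · simp [pull, e, hi]
      · simp [pull, e, hi, jQ]
    · rintro ⟨z, hz, rfl⟩
      refine ⟨?_, ?_⟩
      · have h1 : pull (Subtype.val : {i // C i} → κ) (pull e z) = z ∘ Sum.inl := by
          funext ⟨i, hi⟩
          simp [pull, e, hi]
        rw [Set.mem_preimage, h1]
        exact hz.1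
      · have h1 : pull jQ (pull e z) = z ∘ Sum.inr := by
          funext ⟨i, hi⟩
          simp [pull, e, hi, jQ]
        rw [Set.mem_preimage, h1]
        exact hz.2
  have hT'i : Irr T' := by
    refine ⟨?_, ?_⟩
    · exact ((ratMap_pull Set.univ _).preimage_closed hA.closed).inter
        ((ratMap_pull Set.univ _).preimage_closed hB.closed)
    · rw [hT'eq]
      exact (hA.pirr.prodSet hB.pirr).pull e
  have hTT' : T ⊆ T' := fun x hx => ⟨hTA ⟨x, hx, rfl⟩, subset_cl _ ⟨x, hx, rfl⟩⟩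
  have hT'Z : T' ⊆ ZL L := by
    rintro x ⟨h1, h2⟩ l hl
    by_cases h : C l.2.1
    · exact hAr _ h1 l hl h ((hC l hl).mp h)
    · have h' : ¬ C l.2.2 := fun h' => h ((hC l hl).mpr h')
      have h3 : B ⊆ RS l.1 ⟨l.2.1, h⟩ ⟨l.2.2, h'⟩ := by
        apply cl_subset _ (zclosed_RS (hL l hl) _ _)
        rintro _ ⟨z, hz, rfl⟩
        exact hT.subset hz l hl
      exact h3 h2
  have hTeq : T = T' := hT.eq_of_subset hT'i hT'Z hTT'
  rw [hTeq]
  refine ⟨?_, ?_⟩
  · have h1 : pull (Subtype.val : {i // C i} → κ) (glue C a y) = a := by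
      funext ⟨i, hi⟩
      exact glue_pos hi
    rw [Set.mem_preimage, h1]
    exact ha
  · have h1 : pull jQ (glue C a y) = pull jQ y := by
      funext ⟨i, hi⟩
      exact glue_neg hi
    rw [Set.mem_preimage, h1]
    exact (hTT' hy).2

omit [IsAlgClosed F] in
theorem glue_mem' {T : Set (κ → F)} {L : Finset (ℕ × κ × κ)} (hL : ∀ l ∈ L, 0 < l.1)
    (hT : Comp (ZL L) T) {C : κ → Prop} (hC : ∀ l ∈ L, C l.2.1 ↔ C l.2.2)
    {x y : κ → F} (hx : x ∈ T) (hy : y ∈ T) : glue C (pull Subtype.val x) y ∈ T := by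
  refine glue_mem hL hT hC (hT.irr.pirr.pull Subtype.val).cl (subset_cl _) ?_
    (subset_cl _ ⟨x, hx, rfl⟩) hy
  intro a ha l hl h h'
  have h1 : cl F (pull (Subtype.val : {i // C i} → κ) '' T) ⊆ RS l.1 ⟨l.2.1, h⟩ ⟨l.2.2, h'⟩ := by
    apply cl_subset _ (zclosed_RS (hL l hl) _ _)
    rintro _ ⟨z, hz, rfl⟩
    exact hT.subset hz l hl
  exact h1 ha

end Glue

variable [Fintype κ]

omit [IsAlgClosed F] in
/-- Nonspecial coordinates take infinitely many values on special subvarieties. -/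
theorem infinite_values {T : Set (κ → F)} {L : Finset (ℕ × κ × κ)} (hL : ∀ l ∈ L, 0 < l.1)
    (hT : Comp (ZL L) T) {i0 : κ} (hi0 : ¬ Sp T i0) : {u | ∃ x ∈ T, x i0 = u}.Infinite := by
  classical
  intro hfin
  have hTi := hT.irr
  let r : κ → κ → Prop := fun i k => ∃ N, (N, i, k) ∈ L
  let C : κ → Prop := fun i => Relation.EqvGen r i0 i
  have hC : ∀ l ∈ L, C l.2.1 ↔ C l.2.2 := by
    rintro ⟨N, i, k⟩ hl
    have h1 : Relation.EqvGen r i k := Relation.EqvGen.rel _ _ ⟨N, hl⟩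
    exact ⟨fun h => h.trans _ _ _ h1, fun h => h.trans _ _ _ (h1.symm _ _)⟩
  have hRl : ∀ i k, Relation.EqvGen r i k → Rl T i k := by
    intro i k h
    induction h with
    | rel i k h =>
      obtain ⟨N, hN⟩ := h
      exact ⟨N, hL _ hN, fun x hx => hT.subset hx _ hN⟩
    | refl i => exact Rl.refl T i
    | symm i k _ ih => exact ih.symm
    | trans i k l _ _ ih1 ih2 => exact ih1.trans hTi.pirr ih2
  obtain ⟨a, _, ha⟩ := const_of_finite' hTi.pirr hfin (i := i0) (fun x hx => ⟨x, hx, rfl⟩)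
  have hconst : ∀ i : {i // C i}, ∃ b, ∀ x ∈ T, x i.1 = b := by
    rintro ⟨i, hi⟩
    obtain ⟨b, _, _, _, hb⟩ := (hRl _ _ hi).const hTi.pirr ha
    exact ⟨b, hb⟩
  choose p hp using hconst
  obtain ⟨x0, hx0⟩ := hTi.nonempty
  have hne : Nonempty {i // C i} := ⟨⟨i0, Relation.EqvGen.refl _⟩⟩
  obtain ⟨T2, hT2, hpT2, ⟨q, hq, hqp⟩, hrel⟩ := geom {i // C i} p (by
    rintro ⟨i, hi⟩ ⟨k, hk⟩
    obtain ⟨N, hN, h⟩ := hRl i k ((hi.symm _ _).trans _ _ _ hk)
    refine ⟨N, hN, ?_⟩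
    have := h hx0
    rw [mem_RS] at this
    rw [← hp ⟨i, hi⟩ x0 hx0, ← hp ⟨k, hk⟩ x0 hx0]
    exact this) (by
    rintro ⟨i, hi⟩ ⟨N, hN, h⟩
    apply hi0
    have h1 : Sp T i := sp_of_const ⟨N, hN, h⟩ (fun x hx => hp ⟨i, hi⟩ x hx)
    exact h1.of_rl hTi.pirr (hRl _ _ hi).symm)
  have h1 := glue_mem hL hT hC hT2 (by
    rintro _ ⟨x, hx, rfl⟩
    have : pull Subtype.val x = p := funext fun i => hp i x hx
    rw [this]
    exact hpT2) (by
    intro a ha l hl h h'
    apply hrel l.1 (hL l hl) ⟨l.2.1, h⟩ ⟨l.2.2, h'⟩ _ a ha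
    rw [← hp ⟨l.2.1, h⟩ x0 hx0, ← hp ⟨l.2.2, h'⟩ x0 hx0]
    exact hT.subset hx0 l hl) hq hx0
  apply hqp
  funext i
  rw [← hp i _ h1, glue_pos i.2]

omit [IsAlgClosed F] in
/-- The dimension of a special subvariety is at least its rank. -/
theorem Special.rk_le {T : Set (κ → F)} (h : Special T) : rk T ≤ td F T := by
  classical
  obtain ⟨L, hL, hT⟩ := h
  have hTi := hT.irr
  obtain ⟨s, hs, hc⟩ := exists_fr T
  rw [← hc]
  let r : κ → κ → Prop := fun i k => ∃ N, (N, i, k) ∈ L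
  let C : κ → κ → Prop := fun i0 i => Relation.EqvGen r i0 i
  have hC : ∀ i0, ∀ l ∈ L, C i0 l.2.1 ↔ C i0 l.2.2 := by
    rintro i0 ⟨N, i, k⟩ hl
    have h1 : Relation.EqvGen r i k := Relation.EqvGen.rel _ _ ⟨N, hl⟩
    exact ⟨fun h => h.trans _ _ _ h1, fun h => h.trans _ _ _ (h1.symm _ _)⟩
  have hRl : ∀ i k, Relation.EqvGen r i k → Rl T i k := by
    intro i k h
    induction h with
    | rel i k h =>
      obtain ⟨N, hN⟩ := h
      exact ⟨N, hL _ hN, fun x hx => hT.subset hx _ hN⟩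
    | refl i => exact Rl.refl T i
    | symm i k _ ih => exact ih.symm
    | trans i k l _ _ ih1 ih2 => exact ih1.trans hTi.pirr ih2
  have key : ∀ t : Finset κ, t ⊆ s → ∀ u : κ → F, (∀ a ∈ t, ∃ x ∈ T, x a = u a) →
      ∃ x ∈ T, ∀ a ∈ t, x a = u a := by
    intro t
    induction t using Finset.induction_on with
    | empty =>
      intro _ u _
      obtain ⟨x, hx⟩ := hTi.nonempty
      exact ⟨x, hx, by simp⟩
    | insert a t ha ih =>
      intro hts u hu
      obtain ⟨y, hy, hyu⟩ := ih (fun b hb => hts (Finset.mem_insert_of_mem hb)) u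
        (fun b hb => hu b (Finset.mem_insert_of_mem hb))
      obtain ⟨x, hx, hxu⟩ := hu a (Finset.mem_insert_self a t)
      refine ⟨_, glue_mem' hL hT (hC a) hx hy, ?_⟩
      intro b hb
      rcases Finset.mem_insert.mp hb with rfl | hb
      · rw [glue_pos (Relation.EqvGen.refl _)]
        exact hxu
      · rw [glue_neg, hyu b hb]
        intro hab
        have hne : a ≠ b := fun h => ha (h ▸ hb)
        exact hs.2 a (hts (Finset.mem_insert_self a t)) b (hts (Finset.mem_insert_of_mem hb)) hne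
          (hRl a b hab)
  have hind : Ind F T (s : Set κ) := by
    intro p hp
    apply MvPolynomial.funext_set (fun i : (s : Set κ) => {u | ∃ x ∈ T, x i.1 = u})
    · rintro ⟨i, hi⟩
      exact infinite_values hL hT (hs.1 i hi)
    · intro u hu
      have h1 : ∀ i (hi : i ∈ s), ∃ x ∈ T, x i = u ⟨i, hi⟩ := fun i hi => hu ⟨i, hi⟩ trivial
      obtain ⟨x, hx, hxu⟩ := key s le_rfl (fun i => if h : i ∈ s then u ⟨i, h⟩ else 0) (by
        intro a ha
        rw [dif_pos ha]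
        exact h1 a ha)
      have h2 := hp x hx
      have h3 : (fun i : (s : Set κ) => co x i) = u := by
        funext ⟨i, hi⟩
        have hi' : i ∈ s := hi
        have := hxu i hi'
        rw [dif_pos hi'] at this
        exact this
      rw [h3] at h2
      rw [map_zero, ← h2]
      rfl
  have h1 := hind.ncard_le hTi.pirr
  rwa [Set.ncard_coe_finset] at h1

/-- Every irreducible set is contained in a special subvariety of the right dimension. -/
theorem exists_special {X : Set (κ → F)} (hX : Irr X) :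
    ∃ T, Special T ∧ X ⊆ T ∧ td F T ≤ rk X := by
  classical
  obtain ⟨s, hs, hc⟩ := exists_fr X
  have hspan := fun j => hs.span hX.pirr hc.ge j
  have h1 : ∀ i, ∃ N k, 0 < N ∧ X ⊆ RS N i k ∧ ((1 < N ∧ k = i) ∨ k ∈ s) := by
    intro i
    rcases hspan i with ⟨N, hN, h⟩ | ⟨a, ha, N, hN, h⟩
    · exact ⟨N, i, by omega, h, Or.inl ⟨hN, rfl⟩⟩
    · exact ⟨N, a, hN, h, Or.inr ha⟩
  choose N k hN hsub hk using h1
  let L : Finset (ℕ × κ × κ) := Finset.univ.image fun i => (N i, i, k i)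
  have hL : ∀ l ∈ L, 0 < l.1 := by
    intro l hl
    obtain ⟨i, _, rfl⟩ := Finset.mem_image.mp hl
    exact hN i
  have hXL : X ⊆ ZL L := by
    intro x hx l hl
    obtain ⟨i, _, rfl⟩ := Finset.mem_image.mp hl
    exact hsub i hx
  obtain ⟨T, hT, hXT⟩ := exists_comp (zclosed_ZL hL) hX hXL
  refine ⟨T, ⟨L, hL, hT⟩, hXT, ?_⟩
  have hTi := hT.irr
  obtain ⟨t, hts, _, ht⟩ := exists_basis (k := F) hTi.pirr (s : Set κ)
    (isAlgebraic_gen_of_span hTi.pirr _ (fun i => by
      have h2 : T ⊆ RS (N i) i (k i) := fun x hx =>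
        hT.subset hx (N i, i, k i) (Finset.mem_image_of_mem _ (Finset.mem_univ i))
      rcases hk i with ⟨h3, h4⟩ | h3
      · left
        rw [h4] at h2
        exact ⟨N i, h3, h2⟩
      · right
        exact ⟨k i, h3, N i, hN i, h2⟩))
  rw [← ht, ← hc, ← Set.ncard_coe_finset]
  exact Set.ncard_le_ncard hts (Set.toFinite _)

end Special

end Pool.Agent.MP_dd1803_nt.Aff
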