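import Mathlib
import Pool.Agent.MP_dd1803_nt.Aff.Special

open MvPolynomial

namespace Pool.Agent.MP_dd1803_nt.Aff

section Dimension

variable {F : Type} [Field F] [IsAlgClosed F] {κ : Type} [Fintype κ]

theorem exists_codim_one {X : Set (κ → F)} (hX : Irr X) (h : td F X ≠ 0) :
    ∃ Y, Irr Y ∧ Y ⊂ X ∧ td F X = td F Y + 1 := by
  classical
  obtain ⟨x0, hx0⟩ := hX.nonempty
  by_cases hc : ∀ i, ∀ x ∈ X, x i = x0 i
  · exfalso
    apply h
    obtain ⟨s, hs, hcard⟩ := exists_basis' (k := F) hX.pirr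
    rw [← hcard, Set.ncard_eq_zero (Set.toFinite s)]
    by_contra hne
    obtain ⟨i, hi⟩ := Set.nonempty_iff_ne_empty.mpr hne
    have h1 := hs (MvPolynomial.X ⟨i, hi⟩ - C (x0 i : F)) (by
      intro x hx
      rw [map_sub, aeval_X, aeval_C, sub_eq_zero, co_apply, hc i x hx]
      rfl)
    have h2 := congrArg (aeval (fun _ : s => (x0 i : F) + 1)) h1
    rw [map_sub, aeval_X, aeval_C, map_zero] at h2
    simp at h2
  · push Not at hc
    obtain ⟨i, x1, hx1, hne⟩ := hc
    obtain ⟨Y, hY, hx0Y⟩ := exists_comp (hX.closed.inter (zclosed_zp (MvPolynomial.X i - C (x0 i : F))))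
      (irr_singleton x0) (by
      rintro x hx
      rw [Set.mem_singleton_iff.mp hx]
      refine ⟨hx0, ?_⟩
      rw [mem_zp]
      simp [co])
    have h1 := krull hX _ hY
    have h2 : Y ⊆ X := hY.subset.trans Set.inter_subset_left
    have h3 : Y ⊂ X := by
      refine ⟨h2, ?_⟩
      intro h4
      have h5 := (hY.subset (h4 hx1)).2
      rw [mem_zp, map_sub, aeval_X, aeval_C, sub_eq_zero] at h5
      exact hne h5
    have h4 := td_lt hY.irr hX h3
    exact ⟨Y, hY.irr, h3, by omega⟩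

theorem height_eq {V : Set (κ → F)} (Y : {Y : Set (κ → F) // Irr Y ∧ Y ⊆ V}) :
    Order.height Y = (td F Y.1 : ℕ∞) := by
  have hle : ∀ n : ℕ, ∀ Y : {Y : Set (κ → F) // Irr Y ∧ Y ⊆ V}, td F Y.1 = n →
      Order.height Y ≤ (n : ℕ∞) := by
    intro n
    induction n using Nat.strong_induction_on with
    | _ n ih =>
      intro Y hn
      rw [Order.height_le_coe_iff]
      intro Z hZ
      have h1 : td F Z.1 < n := by
        rw [← hn]
        exact td_lt Z.2.1 Y.2.1 hZ
      exact lt_of_le_of_lt (ih _ h1 Z rfl) (by exact_mod_cast h1)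
  have hge : ∀ n : ℕ, ∀ Y : {Y : Set (κ → F) // Irr Y ∧ Y ⊆ V}, td F Y.1 = n →
      (n : ℕ∞) ≤ Order.height Y := by
    intro n
    induction n with
    | zero =>
      intro Y _
      simp
    | succ n ih =>
      intro Y hn
      obtain ⟨Z, hZ, hZY, hd⟩ := exists_codim_one Y.2.1 (by omega)
      have h1 := ih ⟨Z, hZ, hZY.subset.trans Y.2.2⟩ (by simp only; omega)
      have h2 : (⟨Z, hZ, hZY.subset.trans Y.2.2⟩ : {Y : Set (κ → F) // Irr Y ∧ Y ⊆ V}) < Y := hZY
      have h3 := Order.height_add_one_le h2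
      push_cast
      exact (add_le_add_left h1 1).trans h3
  exact le_antisymm (hle _ Y rfl) (hge _ Y rfl)

/-- The dimension of a nonempty closed set is the maximal transcendence degree of its
irreducible closed subsets. -/
theorem exists_dm {V : Set (κ → F)} (hne : V.Nonempty) :
    ∃ d : ℕ, dm V = (d : WithBot ℕ∞) ∧ d ≤ Fintype.card κ ∧ (∀ Z, Irr Z → Z ⊆ V → td F Z ≤ d) ∧
      ∃ Z, Irr Z ∧ Z ⊆ V ∧ td F Z = d := by
  classical
  obtain ⟨x0, hx0⟩ := hne
  have hbdd : ∀ n, n ∈ {n | ∃ Z : Set (κ → F), Irr Z ∧ Z ⊆ V ∧ td F Z = n} →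
      n ≤ Fintype.card κ := by
    rintro n ⟨Z, hZ, _, rfl⟩
    rw [← Nat.card_eq_fintype_card]
    exact td_le_card hZ.pirr
  have hex : ∃ n, n ∈ {n | ∃ Z : Set (κ → F), Irr Z ∧ Z ⊆ V ∧ td F Z = n} :=
    ⟨_, {x0}, irr_singleton x0, Set.singleton_subset_iff.mpr hx0, rfl⟩
  have hmem := Nat.sSup_mem hex ⟨_, hbdd⟩
  have hmax : ∀ Z : Set (κ → F), Irr Z → Z ⊆ V →
      td F Z ≤ sSup {n | ∃ Z : Set (κ → F), Irr Z ∧ Z ⊆ V ∧ td F Z = n} := by
    intro Z hZ hZV
    exact le_csSup ⟨_, hbdd⟩ ⟨Z, hZ, hZV, rfl⟩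
  refine ⟨sSup {n | ∃ Z : Set (κ → F), Irr Z ∧ Z ⊆ V ∧ td F Z = n}, ?_, hbdd _ hmem, hmax, hmem⟩
  unfold dm
  apply le_antisymm
  · rw [Order.krullDim_eq_iSup_height]
    apply iSup_le
    intro Z
    rw [height_eq]
    have h1 := hmax Z.1 Z.2.1 Z.2.2
    exact_mod_cast h1
  · obtain ⟨Z, hZ, hZV, hd⟩ := hmem
    have h1 := Order.height_le_krullDim (⟨Z, hZ, hZV⟩ : {Y : Set (κ → F) // Irr Y ∧ Y ⊆ V})
    rw [height_eq] at h1
    rw [← hd]
    exact h1

theorem dm_irr {X : Set (κ → F)} (hX : Irr X) : dm X = (td F X : WithBot ℕ∞) := by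
  obtain ⟨d, hd, _, h1, Z, hZ, hZX, h2⟩ := exists_dm hX.nonempty
  rw [hd]
  have h3 := td_mono (k := F) hZ.pirr hX.pirr hZX
  have h4 := h1 X hX le_rfl
  have h5 : d = td F X := by omega
  rw [h5]

theorem dm_univ : dm (Set.univ : Set (κ → F)) = (Fintype.card κ : WithBot ℕ∞) := by
  rw [dm_irr irr_univ, td_univ]

end Dimension

section Bridge

variable {F : Type} [Field F] [IsAlgClosed F] [CharZero F] [SpStr F] {κ : Type}

open SpStr

/-- Atypical subvarieties of `V`: irreducible components `X` of the intersection of `V` with a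
special subvariety `T` such that `dim V + dim T < dim X + dim (ambient space)`. -/
def Atypical (V X : Set (κ → F)) : Prop :=
  ∃ T, Special T ∧ Comp (V ∩ T) X ∧ dm V + dm T < dm X + dm (Set.univ : Set (κ → F))

/-- The Zilber-Pink property of `V`: it has only finitely many maximal atypical subvarieties. -/
def ZP (V : Set (κ → F)) : Prop := {X | Maximal (Atypical V) X}.Finite

variable [Fintype κ]

/-- Maximal atypical subvarieties are the maximal subsets of small defect. -/
theorem maximal_atypical_iff {V : Set (κ → F)} (hV : ZClosed V) {d : ℕ}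
    (hd : dm V = (d : WithBot ℕ∞)) (hdle : d ≤ Fintype.card κ) (X : Set (κ → F)) :
    Maximal (Atypical V) X ↔ X ∈ MaxE (Fintype.card κ - d) V := by
  have h1 : ∀ X, Atypical V X →
      (Irr X ∧ X ⊆ V ∧ rk X < td F X + (Fintype.card κ - d)) := by
    rintro X ⟨T, hT, hX, hlt⟩
    refine ⟨hX.irr, hX.subset.trans Set.inter_subset_left, ?_⟩
    rw [hd, dm_irr hT.irr, dm_irr hX.irr, dm_univ] at hlt
    have h2 : d + td F T < td F X + Fintype.card κ := by exact_mod_cast hlt
    have h3 := hT.rk_le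
    have h4 : rk X ≤ rk T := rk_mono (hX.subset.trans Set.inter_subset_right)
    omega
  have h2 : ∀ X, (Irr X ∧ X ⊆ V ∧ rk X < td F X + (Fintype.card κ - d)) →
      ∃ Y, Atypical V Y ∧ X ⊆ Y := by
    rintro X ⟨hX, hXV, hlt⟩
    obtain ⟨T, hT, hXT, hle⟩ := exists_special hX
    obtain ⟨Y, hY, hXY⟩ := exists_comp (hV.inter hT.irr.closed) hX (Set.subset_inter hXV hXT)
    refine ⟨Y, ⟨T, hT, hY, ?_⟩, hXY⟩
    rw [hd, dm_irr hT.irr, dm_irr hY.irr, dm_univ]
    have h3 := td_mono (k := F) hX.pirr hY.irr.pirr hXY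
    have h4 : d + td F T < td F Y + Fintype.card κ := by omega
    exact_mod_cast h4
  rw [mem_maxE]
  constructor
  · intro hX
    refine ⟨h1 X hX.prop, ?_⟩
    intro Y hY hXY
    obtain ⟨Z, hZ, hYZ⟩ := h2 Y hY
    exact Set.Subset.trans hYZ (hX.le_of_ge hZ (Set.Subset.trans hXY hYZ))
  · intro hX
    obtain ⟨Z, hZ, hXZ⟩ := h2 X hX.prop
    have h3 : X = Z := Set.Subset.antisymm hXZ (hX.le_of_ge (h1 Z hZ) hXZ)
    rw [← h3] at hZ
    exact ⟨hZ, fun Y hY hXY => hX.le_of_ge (h1 Y hY) hXY⟩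

theorem zp_of_finite {V : Set (κ → F)} (hV : ZClosed V) (h : ∀ e, (MaxE e V).Finite) : ZP V := by
  by_cases hne : V.Nonempty
  · obtain ⟨d, hd, hdle, _, _⟩ := exists_dm hne
    have h1 : {X | Maximal (Atypical V) X} = MaxE (Fintype.card κ - d) V := by
      ext X
      exact maximal_atypical_iff hV hd hdle X
    unfold ZP
    rw [h1]
    exact h _
  · unfold ZP
    convert Set.finite_empty
    ext X
    simp only [Set.mem_ofPred_eq, Set.mem_empty_iff_false, iff_false]
    intro hX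
    obtain ⟨T, _, hX', _⟩ := hX.prop
    obtain ⟨x, hx⟩ := hX'.irr.nonempty
    exact hne ⟨x, (hX'.subset hx).1⟩

theorem finite_of_zp {V : Set (κ → F)} (hV : ZClosed V) {d : ℕ}
    (hd : dm V = (d : WithBot ℕ∞)) (hdle : d ≤ Fintype.card κ) (h : ZP V) :
    (MaxE (Fintype.card κ - d) V).Finite := by
  have h1 : {X | Maximal (Atypical V) X} = MaxE (Fintype.card κ - d) V := by
    ext X
    exact maximal_atypical_iff hV hd hdle X
  rw [← h1]
  exact h

end Bridge

section Planes

variable {F : Type} [Field F] [IsAlgClosed F]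

theorem td_AA_le {k : ℕ} {Z : Set (Fin k × Fin 3 → F)} (hZ : Irr Z) (h : Z ⊆ AA F k) :
    td F Z ≤ k * 2 := by
  let e : Fin k × Fin 2 → Fin k × Fin 3 := fun p => (p.1, p.2.castSucc)
  have he : Function.Injective e := by
    rintro ⟨a, b⟩ ⟨a', b'⟩ hab
    simp only [e, Prod.mk.injEq] at hab
    rw [hab.1, Fin.castSucc_injective _ hab.2]
  have h1 := td_le_pull (k := F) hZ.pirr (e := e) he (Set.range e) (by
    rintro ⟨i, l⟩
    apply isAlgebraic_of_mem_adjoin hZ.pirr
    fin_cases l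
    · exact Algebra.subset_adjoin ⟨_, ⟨(i, 0), rfl⟩, rfl⟩
    · exact Algebra.subset_adjoin ⟨_, ⟨(i, 1), rfl⟩, rfl⟩
    · apply gen_mem_of_poly e (fun v => Set.mem_range_self v)
        (MvPolynomial.X (i, 0) + MvPolynomial.X (i, 1))
      intro y hy
      rw [map_add, aeval_X, aeval_X]
      exact (h hy i).symm)
  rw [sdiff_self, Set.bot_eq_empty, Set.ncard_empty, add_zero] at h1
  have h2 := td_le_card (k := F) (hZ.pirr.pull e)
  rw [Nat.card_eq_fintype_card, Fintype.card_prod, Fintype.card_fin, Fintype.card_fin] at h2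
  exact h1.trans h2

theorem dm_AA (k : ℕ) : dm (AA F k) = ((k * 2 : ℕ) : WithBot ℕ∞) := by
  have hne : (AA F k).Nonempty := ⟨0, fun i => by simp⟩
  obtain ⟨d, hd, _, h1, Z, hZ, hZV, h2⟩ := exists_dm hne
  rw [hd]
  have h3 : d ≤ k * 2 := by
    rw [← h2]
    exact td_AA_le hZ hZV
  have h4 : k * 2 ≤ d := by
    have hG : Irr (AA F k) := by
      refine ⟨zclosed_AA k, ?_⟩
      have h5 : AA F k = (fun y : Fin k × Fin 2 → F => fun p : Fin k × Fin 3 =>
          ![y (p.1, 0), y (p.1, 1), y (p.1, 0) + y (p.1, 1)] p.2) '' Set.univ := by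
        ext x
        constructor
        · intro hx
          refine ⟨fun p => x (p.1, p.2.castSucc), trivial, ?_⟩
          funext ⟨i, l⟩
          fin_cases l
          · rfl
          · rfl
          · exact hx i
        · rintro ⟨y, _, rfl⟩ i
          rfl
      rw [h5]
      apply (irr_univ : Irr (Set.univ : Set (Fin k × Fin 2 → F))).pirr.image
      rintro ⟨i, l⟩
      fin_cases l
      · exact ratOn_coord _ (i, 0)
      · exact ratOn_coord _ (i, 1)
      · exact (ratOn_coord _ (i, 0)).add (ratOn_coord _ (i, 1))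
    refine le_trans ?_ (h1 _ hG le_rfl)
    have h6 := td_pull_le (k := F) hG.pirr (fun p : Fin k × Fin 2 => (p.1, p.2.castSucc))
    have h7 : pull (fun p : Fin k × Fin 2 => (p.1, p.2.castSucc)) '' (AA F k) = Set.univ := by
      rw [Set.eq_univ_iff_forall]
      intro y
      refine ⟨fun p : Fin k × Fin 3 =>
          ![y (p.1, 0), y (p.1, 1), y (p.1, 0) + y (p.1, 1)] p.2, fun i => rfl, ?_⟩
      funext ⟨i, l⟩
      fin_cases l <;> rfl
    rw [h7, td_univ, Fintype.card_prod, Fintype.card_fin, Fintype.card_fin] at h6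
    exact h6
  rw [le_antisymm h3 h4]

end Planes

section Final

variable {F : Type} [Field F] [IsAlgClosed F] [CharZero F] [SpStr F]

/-- The Zilber-Pink property for all closed sets is equivalent to that of the powers of the plane
`x + y = z`. -/
theorem zp_iff_plane : (∀ k : ℕ, ZP (AA F k)) ↔
    ∀ (κ : Type) [Finite κ] (V : Set (κ → F)), ZClosed V → ZP V := by
  constructor
  · intro h κ _ V hV
    have := Fintype.ofFinite κ
    apply zp_of_finite hV
    intro e
    apply finite_maxE_all _ hV e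
    intro k
    have h1 := finite_of_zp (zclosed_AA k) (dm_AA (F := F) k)
      (by rw [Fintype.card_prod, Fintype.card_fin, Fintype.card_fin]; omega) (h k)
    have h2 : Fintype.card (Fin k × Fin 3) - k * 2 = k := by
      rw [Fintype.card_prod, Fintype.card_fin, Fintype.card_fin]
      omega
    rwa [h2] at h1
  · intro h k
    exact h _ _ (zclosed_AA k)

end Final

end Pool.Agent.MP_dd1803_nt.Aff
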